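import Mathlib

/-!
# Logarithms on the multiplicative group of a field
-/

namespace Pool.Agent.W522.T

variable {K : Type*} [Field K]

/-- The function `f` is a homomorphism from the multiplicative group of `K` to the additive
group of `K` (its value at zero is arbitrary). -/
def IsLog (f : K → K) : Prop := ∀ x y, x ≠ 0 → y ≠ 0 → f (x * y) = f x + f y

theorem IsLog.one {f : K → K} (hf : IsLog f) : f 1 = 0 := by
  have h1 := hf 1 1 one_ne_zero one_ne_zero
  rw [mul_one] at h1
  linear_combination -h1

theorem IsLog.pow {f : K → K} (hf : IsLog f) {x : K} (hx : x ≠ 0) (n : ℕ) :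
    f (x ^ n) = n * f x := by
  induction n with
  | zero => rw [pow_zero, hf.one, Nat.cast_zero, zero_mul]
  | succ n ih =>
    rw [pow_succ, hf _ _ (pow_ne_zero _ hx) hx, ih]
    push_cast
    ring

theorem IsLog.prod {f : K → K} (hf : IsLog f) {κ : Type*} (s : Finset κ) (α : κ → K)
    (hα : ∀ k ∈ s, α k ≠ 0) : f (∏ k ∈ s, α k) = ∑ k ∈ s, f (α k) := by
  classical
  induction s using Finset.induction_on with
  | empty => rw [Finset.prod_empty, Finset.sum_empty, hf.one]
  | insert a s ha ih =>
    rw [Finset.prod_insert ha, Finset.sum_insert ha,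
      hf _ _ (hα a (Finset.mem_insert_self _ _))
        (Finset.prod_ne_zero_iff.2 fun k hk => hα k (Finset.mem_insert_of_mem hk)),
      ih fun k hk => hα k (Finset.mem_insert_of_mem hk)]

end Pool.Agent.W522.T
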