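import Mathlib
import Pool.Agent.W522.U.Defs
import Pool.Agent.W522.T.Log

/-!
# The conditions of the theorem
-/

namespace Pool.Agent.W522.T

open Module Pool.Agent.W522.U

variable {K : Type*} [Field K] {X : Type*} [AddCommGroup X] [Module K X]
  {Γ : Type*} [Group Γ] (R : Representation K Γ X) (χ : Γ →* K)

/-- Some quadratic unipotent element of the group acts on `U` as a transvection. -/
def HasTransvection (U : Submodule K X) : Prop :=
  ∃ γ : Γ, (R γ - 1) * (R γ - 1) = 0 ∧ finrank K (U.map (R γ - 1)) = 1

/-- Some element `γ` of the group stabilises `U` and has a simple eigenvalue `x₀` on `U` such that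
some homomorphism `f` of the multiplicative group of `K` to the additive group takes the same value
`c` on all other eigenvalues of `γ` on `U`, but not on `x₀`. -/
def HasReflection (U : Submodule K X) : Prop :=
  ∃ (γ : Γ) (h : ∀ u ∈ U, R γ u ∈ U) (f : K → K) (x₀ c : K), IsLog f ∧
    finrank K (Module.End.maxGenEigenspace ((R γ).restrict h) x₀) = 1 ∧ f x₀ ≠ c ∧
    ∀ x, Module.End.HasEigenvalue ((R γ).restrict h) x → x ≠ x₀ → f x = c

/-- Some element `γ` of the group stabilises `U` and has two simple eigenvalues `x₁` and `x₂` on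
`U` such that some homomorphism `f` of the multiplicative group of `K` to the additive group takes
the same value `c` on all other eigenvalues of `γ` on `U`, but the values `c + δ` on `x₁` and
`c - δ` on `x₂`, where `δ` is not zero. -/
def HasSymplecticReflection (U : Submodule K X) : Prop :=
  ∃ (γ : Γ) (h : ∀ u ∈ U, R γ u ∈ U) (f : K → K) (x₁ x₂ c δ : K), IsLog f ∧ δ ≠ 0 ∧
    finrank K (Module.End.maxGenEigenspace ((R γ).restrict h) x₁) = 1 ∧
    finrank K (Module.End.maxGenEigenspace ((R γ).restrict h) x₂) = 1 ∧
    f x₁ = c + δ ∧ f x₂ = c - δ ∧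
    ∀ x, Module.End.HasEigenvalue ((R γ).restrict h) x → x ≠ x₁ → x ≠ x₂ → f x = c

/-- There is a nonzero alternating pairing of `U` on which a subgroup of finite index acts by the
character `χ`. -/
def AltDu (U : Submodule K X) : Prop :=
  ∃ Δ : Subgroup Γ, Δ.FiniteIndex ∧ ∃ B : X →ₗ[K] X →ₗ[K] K, (∃ u ∈ U, ∃ v ∈ U, B u v ≠ 0) ∧
    (∀ u ∈ U, B u u = 0) ∧ ∀ g ∈ Δ, ∀ u ∈ U, ∀ v ∈ U, B (R g u) (R g v) = χ g * B u v

/-- For every strongly irreducible subspace `U` of dimension at least two, the group contains a
transvection, a reflection or (if `U` is self-dual with an alternating pairing) a symplectic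
reflection of `U`. -/
def HasReflections : Prop :=
  ∀ U, SI R U → 2 ≤ finrank K U → HasTransvection R U ∨ HasReflection R U ∨
    (HasSymplecticReflection R U ∧ AltDu R χ U)

/-- If a strongly irreducible subspace `U` of dimension at least two is not self-dual, its twists
by characters (on subgroups of finite index) are isomorphic to it (on a subgroup of finite index),
or (in dimension two) dual to it. -/
def TwistFree2 : Prop :=
  ∀ U U', SI R U → SI R U' → 2 ≤ finrank K U → ¬ Du R χ U U →
    ∀ ψ : Γ → K, Tw R ψ U U' → Tw R (fun _ => 1) U U' ∨ (finrank K U = 2 ∧ Du R χ U U')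

end Pool.Agent.W522.T
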