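import Mathlib
import Pool.Agent.W522.T.A1

/-!
# Lie algebras of families of operators: two components
-/

set_option linter.unusedSectionVars false

namespace Pool.Agent.W522.T

open Module Pool.Agent.W522.U

noncomputable section

variable {K : Type*} [Field K] [CharZero K]
  {I : Type*} [DecidableEq I] {E : I → Type*} [∀ i, AddCommGroup (E i)]
  [∀ i, Module K (E i)] [∀ i, FiniteDimensional K (E i)] {G : Type*} [Group G]
  {r : ∀ i, Representation K G (E i)}
  {𝔥 : Submodule K (∀ i, Module.End K (E i))} (h𝔥 : LieFam r 𝔥)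
  {act sd : I → Prop} {ω : ∀ i, E i →ₗ[K] Dual K (E i)} {χ : I → G → K}
  (hT : Types r 𝔥 act sd ω χ)

include hT in
/-- An operator that is not a scalar is detected by the rank one operators. -/
theorem nonscalar {j : I} (z : Module.End K (E j))
    (hz : sd j → ∀ u v, ω j (z u) v + ω j u (z v) = 0) (hns : ¬ ∃ c : K, z = c • 1) :
    ∃ w ψ, Ty sd ω j w ψ ∧ ψ (z w) ≠ 0 := by
  by_contra hcon
  push Not at hcon
  by_cases hs : sd j
  · apply hns
    have h1 : ∀ w, ω j w (z w) = 0 := by
      intro w
      exact hcon w (ω j w) ⟨hT.alt j hs w, fun _ => ⟨1, (one_smul _ _).symm⟩⟩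
    refine ⟨0, ?_⟩
    rw [zero_smul]
    ext v
    rw [LinearMap.zero_apply]
    by_contra h2
    obtain ⟨w, hw⟩ := nondeg hT hs h2
    apply hw
    have h3 := h1 (v + w)
    simp only [map_add, LinearMap.add_apply, h1] at h3
    have h4 := hz hs v w
    have h5 := skew hT hs w (z v)
    have h6 : (2 : K) * ω j (z v) w = 0 := by linear_combination -h3 + h5 + h4
    exact (mul_eq_zero.1 h6).resolve_left two_ne_zero
  · apply hns
    obtain ⟨c, hc⟩ := prop_const (LinearMap.id : E j →ₗ[K] E j) z Function.injective_id (by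
      intro w
      by_cases h : z w ∈ Submodule.span K {w}
      · obtain ⟨c, hc⟩ := Submodule.mem_span_singleton.1 h
        exact ⟨c, hc.symm⟩
      · obtain ⟨φ, h1, h2⟩ := exists_sep h
        exact absurd (hcon w φ ⟨h1, fun h3 => absurd h3 hs⟩) h2)
    refine ⟨c, ?_⟩
    ext v
    exact hc v

/-- The span of the rank one operators of type `j`. -/
def TS (sd : I → Prop) (ω : ∀ i, E i →ₗ[K] Dual K (E i)) (j : I) :
    Submodule K (Module.End K (E j)) :=
  Submodule.span K {x | ∃ w ψ, Ty sd ω j w ψ ∧ x = ψ.smulRight w}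

include hT in
theorem span_types {j : I} (n : Module.End K (E j)) (htr : LinearMap.trace K (E j) n = 0)
    (hsp : sd j → ∀ u v, ω j (n u) v + ω j u (n v) = 0) : n ∈ TS sd ω j := by
  classical
  by_cases hs : sd j
  · -- squares
    have hsq : ∀ p : E j, (ω j p).smulRight p ∈ TS sd ω j := fun p =>
      Submodule.subset_span ⟨p, ω j p, ⟨hT.alt j hs p, fun _ => ⟨1, (one_smul _ _).symm⟩⟩, rfl⟩
    have hpq : ∀ p q : E j, (ω j p).smulRight q + (ω j q).smulRight p ∈ TS sd ω j := by
      intro p q
      have h1 : (ω j p).smulRight q + (ω j q).smulRight p =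
          (ω j (p + q)).smulRight (p + q) - (ω j p).smulRight p - (ω j q).smulRight q := by
        ext v
        simp only [LinearMap.add_apply, LinearMap.sub_apply, LinearMap.smulRight_apply, map_add]
        module
      rw [h1]
      exact Submodule.sub_mem _ (Submodule.sub_mem _ (hsq _) (hsq _)) (hsq _)
    let b := Module.finBasis K (E j)
    -- the form is surjective
    have hsurj : Function.Surjective (ω j) := by
      have h1 : finrank K (E j) = finrank K (Dual K (E j)) := Subspace.dual_finrank_eq.symm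
      exact (LinearMap.injective_iff_surjective_of_finrank_eq_finrank h1).1 (hT.inj j hs)
    choose q hq using fun k => hsurj (b.coord k)
    have h1 : n = ∑ k, (ω j (q k)).smulRight (n (b k)) := by
      refine b.ext fun l => ?_
      rw [LinearMap.sum_apply, Finset.sum_eq_single l]
      · rw [LinearMap.smulRight_apply, hq, Basis.coord_apply, b.repr_self,
          Finsupp.single_eq_same, one_smul]
      · intro k _ hk
        rw [LinearMap.smulRight_apply, hq, Basis.coord_apply, b.repr_self,
          Finsupp.single_eq_of_ne hk, zero_smul]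
      · intro h
        exact absurd (Finset.mem_univ _) h
    have h2 : n = ∑ k, (ω j (n (b k))).smulRight (q k) := by
      ext v
      rw [← sub_eq_zero]
      by_contra h3
      obtain ⟨w, hw⟩ := nondeg hT hs h3
      apply hw
      rw [map_sub, LinearMap.sub_apply, LinearMap.sum_apply, map_sum, LinearMap.sum_apply]
      have h4 : ∀ k, ω j (((ω j (n (b k))).smulRight (q k)) v) w =
          ω j ((ω j (q k) w) • n (b k)) v := by
        intro k
        rw [LinearMap.smulRight_apply, map_smul, map_smul, LinearMap.smul_apply,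
          LinearMap.smul_apply, smul_eq_mul, smul_eq_mul, mul_comm]
      rw [Finset.sum_congr rfl (fun k _ => h4 k), ← LinearMap.sum_apply, ← map_sum]
      have h5 : ∑ k, (ω j (q k) w) • n (b k) = n w := by
        conv_rhs => rw [h1]
        rw [LinearMap.sum_apply]
        rfl
      rw [h5]
      have h6 := hsp hs v w
      have h7 := skew hT hs (n w) v
      linear_combination h6 - h7
    have h3 : (2 : K) • n = ∑ k, ((ω j (q k)).smulRight (n (b k)) +
        (ω j (n (b k))).smulRight (q k)) := by
      rw [Finset.sum_add_distrib, ← h1, ← h2, two_smul]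
    have h4 : (2 : K) • n ∈ TS sd ω j := by
      rw [h3]
      exact Submodule.sum_mem _ fun k _ => hpq _ _
    have h5 := Submodule.smul_mem _ (2 : K)⁻¹ h4
    rwa [smul_smul, inv_mul_cancel₀ two_ne_zero, one_smul] at h5
  · let b := Module.finBasis K (E j)
    have hE : ∀ k l, k ≠ l → (b.coord l).smulRight (b k) ∈ TS sd ω j := by
      intro k l hkl
      refine Submodule.subset_span ⟨b k, b.coord l, ⟨?_, fun h => absurd h hs⟩, rfl⟩
      rw [Basis.coord_apply, b.repr_self, Finsupp.single_eq_of_ne (Ne.symm hkl)]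
    have hDD : ∀ l l', (b.coord l).smulRight (b l) - (b.coord l').smulRight (b l') ∈
        TS sd ω j := by
      intro l l'
      by_cases hll : l = l'
      · rw [hll, sub_self]
        exact Submodule.zero_mem _
      · have h1 : (b.coord l).smulRight (b l) - (b.coord l').smulRight (b l') =
            (b.coord l - b.coord l').smulRight (b l + b l') -
              (b.coord l).smulRight (b l') + (b.coord l').smulRight (b l) := by
          ext v
          simp only [LinearMap.add_apply, LinearMap.sub_apply, LinearMap.smulRight_apply]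
          module
        rw [h1]
        refine Submodule.add_mem _ (Submodule.sub_mem _ (Submodule.subset_span
          ⟨_, _, ⟨?_, fun h => absurd h hs⟩, rfl⟩) (hE _ _ (Ne.symm hll))) (hE _ _ hll)
        simp only [LinearMap.sub_apply, map_add, Basis.coord_apply, b.repr_self,
          Finsupp.single_eq_same, Finsupp.single_eq_of_ne hll, Finsupp.single_eq_of_ne (Ne.symm hll)]
        ring
    have h1 : n = ∑ l, (b.coord l).smulRight (n (b l)) := by
      refine b.ext fun k => ?_
      rw [LinearMap.sum_apply, Finset.sum_eq_single k]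
      · rw [LinearMap.smulRight_apply, Basis.coord_apply, b.repr_self,
          Finsupp.single_eq_same, one_smul]
      · intro l _ hl
        rw [LinearMap.smulRight_apply, Basis.coord_apply, b.repr_self,
          Finsupp.single_eq_of_ne hl, zero_smul]
      · intro h
        exact absurd (Finset.mem_univ _) h
    have h2 : ∀ l, (b.coord l).smulRight (n (b l)) - b.coord l (n (b l)) •
        (b.coord l).smulRight (b l) ∈ TS sd ω j := by
      intro l
      have h3 : (b.coord l).smulRight (n (b l)) - b.coord l (n (b l)) •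
          (b.coord l).smulRight (b l) = ∑ k, (if k = l then 0 else b.coord k (n (b l)) •
            (b.coord l).smulRight (b k)) := by
        ext v
        rw [LinearMap.sub_apply, LinearMap.smul_apply, LinearMap.smulRight_apply,
          LinearMap.smulRight_apply, LinearMap.sum_apply]
        conv_lhs => rw [← b.sum_repr (n (b l)), Finset.smul_sum]
        rw [← Finset.sum_erase_add _ _ (Finset.mem_univ l), ← Finset.sum_erase_add (s :=
          Finset.univ) (f := fun k => (if k = l then (0 : Module.End K (E j)) else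
            b.coord k (n (b l)) • (b.coord l).smulRight (b k)) v) (Finset.mem_univ l), if_pos rfl,
          LinearMap.zero_apply, add_zero, b.sum_repr]
        have h4 : ∑ k ∈ Finset.univ.erase l, (if k = l then (0 : Module.End K (E j)) else
            b.coord k (n (b l)) • (b.coord l).smulRight (b k)) v =
            ∑ k ∈ Finset.univ.erase l, b.coord l v • b.repr (n (b l)) k • b k := by
          refine Finset.sum_congr rfl fun k hk => ?_
          rw [if_neg (Finset.ne_of_mem_erase hk), LinearMap.smul_apply,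
            LinearMap.smulRight_apply, smul_comm, Basis.coord_apply, Basis.coord_apply]
        rw [h4, Basis.coord_apply, Basis.coord_apply, smul_comm (b.repr (n (b l)) l),
          add_sub_assoc, sub_self, add_zero]
      rw [h3]
      refine Submodule.sum_mem _ fun k _ => ?_
      split_ifs with h
      · exact Submodule.zero_mem _
      · exact Submodule.smul_mem _ _ (hE k l h)
    have h3 : ∑ l, b.coord l (n (b l)) = 0 := by
      rw [← htr]
      conv_rhs => rw [h1]
      rw [map_sum]
      exact Finset.sum_congr rfl fun l _ => (trace_rk _ _).symm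
    have h4 : ∑ l, b.coord l (n (b l)) • (b.coord l).smulRight (b l) ∈ TS sd ω j := by
      rcases isEmpty_or_nonempty (Fin (finrank K (E j))) with h5 | ⟨⟨l₀⟩⟩
      · rw [Finset.univ_eq_empty, Finset.sum_empty]
        exact Submodule.zero_mem _
      · have h6 : ∑ l, b.coord l (n (b l)) • (b.coord l).smulRight (b l) =
            ∑ l, b.coord l (n (b l)) • ((b.coord l).smulRight (b l) -
              (b.coord l₀).smulRight (b l₀)) := by
          simp only [smul_sub, Finset.sum_sub_distrib, ← Finset.sum_smul, h3, zero_smul, sub_zero]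
        rw [h6]
        exact Submodule.sum_mem _ fun l _ => Submodule.smul_mem _ _ (hDD _ _)
    have h5 : n = ∑ l, ((b.coord l).smulRight (n (b l)) - b.coord l (n (b l)) •
        (b.coord l).smulRight (b l)) + ∑ l, b.coord l (n (b l)) •
        (b.coord l).smulRight (b l) := by
      rw [Finset.sum_sub_distrib, sub_add_cancel]
      exact h1
    rw [h5]
    exact Submodule.add_mem _ (Submodule.sum_mem _ fun l _ => h2 l) h4

/-- Independence of the components `i` and `j`. -/
def Ind (𝔥 : Submodule K (∀ i, Module.End K (E i))) (i j : I) : Prop :=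
  ∃ X ∈ 𝔥, X j = 0 ∧ ∃ (u : E i) (φ : Dual K (E i)), u ≠ 0 ∧ φ ≠ 0 ∧ φ u = 0 ∧
    X i = φ.smulRight u

/-- The subfamily of the elements that vanish in some components. -/
def sub (𝔥 : Submodule K (∀ i, Module.End K (E i))) (J : Set I) :
    Submodule K (∀ i, Module.End K (E i)) where
  carrier := {X | X ∈ 𝔥 ∧ ∀ j ∈ J, X j = 0}
  zero_mem' := ⟨𝔥.zero_mem, fun _ _ => rfl⟩
  add_mem' := by
    rintro X Y ⟨h1, h2⟩ ⟨h3, h4⟩
    refine ⟨𝔥.add_mem h1 h3, fun j hj => ?_⟩
    rw [Pi.add_apply, h2 j hj, h4 j hj, add_zero]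
  smul_mem' := by
    rintro c X ⟨h1, h2⟩
    refine ⟨𝔥.smul_mem _ h1, fun j hj => ?_⟩
    rw [Pi.smul_apply, h2 j hj, smul_zero]

include h𝔥 in
theorem lieFam_sub (J : Set I) : LieFam r (sub 𝔥 J) where
  br := by
    rintro X ⟨h1, h2⟩ Y ⟨h3, h4⟩
    refine ⟨h𝔥.br _ h1 _ h3, fun j hj => ?_⟩
    unfold brk
    rw [h2 j hj, zero_mul, mul_zero, sub_zero]
  conj := by
    rintro g X ⟨h1, h2⟩
    refine ⟨h𝔥.conj g _ h1, fun j hj => ?_⟩
    change r j g * X j * r j g⁻¹ = 0
    rw [h2 j hj, mul_zero, zero_mul]

theorem rk_mul {V : Type*} [AddCommGroup V] [Module K V] (u : V) (φ : Dual K V)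
    (hφ : φ u = 0) : (φ.smulRight u * φ.smulRight u : Module.End K V) = 0 := by
  ext v
  simp only [Module.End.mul_apply, LinearMap.smulRight_apply, map_smul, hφ, smul_zero,
    zero_smul, LinearMap.zero_apply]

include h𝔥 hT in
/-- If the components are not independent then an element that vanishes in one is scalar in
the other. -/
theorem ker_scalar {i j : I} (hi : act i) (hj : act j) (hij : ¬ Ind 𝔥 i j)
    {X : ∀ i, Module.End K (E i)} (hX : X ∈ 𝔥) (hXi : X i = 0) : ∃ c : K, X j = c • 1 := by
  by_contra hns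
  apply hij
  obtain ⟨w, ψ, hwψ, hne⟩ := nonscalar hT (X j) (fun hs => hT.sp j hs X hX) hns
  obtain ⟨Y, hY, hYj⟩ := full h𝔥 hT hj w ψ hwψ
  have hZ : brk Y (brk Y X) ∈ sub 𝔥 {i} := by
    refine ⟨h𝔥.br _ hY _ (h𝔥.br _ hY _ hX), ?_⟩
    intro k hk
    rw [Set.mem_singleton_iff] at hk
    subst hk
    simp only [brk, hXi, mul_zero, zero_mul, sub_zero]
  have hZj : brk Y (brk Y X) j = (((-2 : K) * ψ (X j w)) • ψ).smulRight w := by
    ext v
    simp only [brk, hYj, LinearMap.sub_apply, Module.End.mul_apply, LinearMap.smulRight_apply,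
      map_sub, map_smul, hwψ.1, smul_eq_mul, LinearMap.smul_apply]
    module
  have hψ0 : ψ ≠ 0 := by
    rintro rfl
    exact hne rfl
  have hw0 : w ≠ 0 := by
    rintro rfl
    rw [map_zero, map_zero] at hne
    exact hne rfl
  have hall := full_sub hT hj (lieFam_sub h𝔥 {i}) (fun X hX => hX.1)
    ⟨w, ((-2 : K) * ψ (X j w)) • ψ, hw0,
      smul_ne_zero (mul_ne_zero (by norm_num) hne) hψ0,
      by rw [LinearMap.smul_apply, hwψ.1, smul_zero], _, hZ, hZj⟩
  obtain ⟨N, hN, u, φ, hu, hφ, hφu, hNi⟩ := hT.nil i hi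
  have h1 := span_types hT (N j) (hT.tr N hN j) (fun hs => hT.sp j hs N hN)
  have h2 : ∀ x ∈ TS sd ω j, ∃ X' ∈ sub 𝔥 {i}, X' j = x := by
    intro x hx
    unfold TS at hx
    induction hx using Submodule.span_induction with
    | mem x hx =>
      obtain ⟨w', ψ', h3, rfl⟩ := hx
      exact hall w' ψ' h3
    | zero => exact ⟨0, Submodule.zero_mem _, rfl⟩
    | add a b _ _ ha hb =>
      obtain ⟨A, hA, rfl⟩ := ha
      obtain ⟨B, hB, rfl⟩ := hb
      exact ⟨A + B, Submodule.add_mem _ hA hB, rfl⟩
    | smul c a _ ha =>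
      obtain ⟨A, hA, rfl⟩ := ha
      exact ⟨c • A, Submodule.smul_mem _ _ hA, rfl⟩
  obtain ⟨X', hX', hX'j⟩ := h2 _ h1
  refine ⟨N - X', 𝔥.sub_mem hN hX'.1, ?_, u, φ, hu, hφ, hφu, ?_⟩
  · rw [Pi.sub_apply, hX'j, sub_self]
  · rw [Pi.sub_apply, hX'.2 i rfl, sub_zero, hNi]

theorem scalar_rk {V : Type*} [AddCommGroup V] [Module K V] {u : V} {φ : Dual K V}
    (hu : u ≠ 0) (hφu : φ u = 0) {c : K} (h : (φ.smulRight u : Module.End K V) = c • 1) :
    φ = 0 := by
  have h1 := congrArg (fun f : Module.End K V => f u) h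
  simp only [LinearMap.smulRight_apply, hφu, zero_smul, LinearMap.smul_apply,
    Module.End.one_apply] at h1
  have h2 : c = 0 := (smul_eq_zero.1 h1.symm).resolve_right hu
  rw [h2, zero_smul] at h
  by_contra h3
  exact smulRight_ne hu h3 h

include h𝔥 hT in
theorem ind_symm {i j : I} (hi : act i) (hj : act j) (hij : ¬ Ind 𝔥 i j) : ¬ Ind 𝔥 j i := by
  rintro ⟨X, hX, hXi, u, φ, hu, hφ, hφu, hXj⟩
  obtain ⟨c, hc⟩ := ker_scalar h𝔥 hT hi hj hij hX hXi
  rw [hXj] at hc
  exact hφ (scalar_rk hu hφu hc)

include h𝔥 hT in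
/-- An extremal element has rank at most one. -/
theorem extremal {j : I} (hj : act j) (z : Module.End K (E j)) (hz : z * z = 0)
    (hsp : sd j → ∀ u v, ω j (z u) v + ω j u (z v) = 0)
    (hex : ∀ Y ∈ 𝔥, ∃ c : K, z * Y j * z = c • z) :
    ∃ (p : E j) (α : Dual K (E j)), α p = 0 ∧ z = α.smulRight p := by
  have hzz : ∀ v, z (z v) = 0 := fun v => by
    rw [← Module.End.mul_apply, hz]
    rfl
  by_cases h0 : z = 0
  · exact ⟨0, 0, rfl, by rw [h0]; ext v; simp⟩
  obtain ⟨w, hw⟩ : ∃ w, z w ≠ 0 := by
    by_contra hcon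
    push Not at hcon
    exact h0 (LinearMap.ext hcon)
  obtain ⟨ψ, h1, h2⟩ : ∃ ψ, Ty sd ω j w ψ ∧ ∃ v, ψ (z v) ≠ 0 := by
    by_cases hs : sd j
    · obtain ⟨v, hv⟩ := nondeg hT hs hw
      refine ⟨ω j w, ⟨hT.alt j hs w, fun _ => ⟨1, (one_smul _ _).symm⟩⟩, v, fun h => hv ?_⟩
      linear_combination hsp hs w v - h
    · have h1 : z w ∉ Submodule.span K {w} := by
        intro h
        obtain ⟨c, hc⟩ := Submodule.mem_span_singleton.1 h
        have h2 := hzz w
        rw [← hc, map_smul, ← hc, smul_smul] at h2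
        have hw0 : w ≠ 0 := by
          rintro rfl
          exact hw (map_zero z)
        have h3 := (smul_eq_zero.1 h2).resolve_right hw0
        have h4 : c = 0 := by
          rcases mul_eq_zero.1 h3 with h4 | h4 <;> exact h4
        rw [h4, zero_smul] at hc
        exact hw hc.symm
      obtain ⟨φ, h2, h3⟩ := exists_sep h1
      exact ⟨φ, ⟨h2, fun h => absurd h hs⟩, w, h3⟩
  obtain ⟨v, hv⟩ := h2
  obtain ⟨Y, hY, hYj⟩ := full h𝔥 hT hj w ψ h1
  obtain ⟨c, hc⟩ := hex Y hY
  have h3 : ∀ x, ψ (z x) • z w = c • z x := by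
    intro x
    have h4 := congrArg (fun f : Module.End K (E j) => f x) hc
    simp only [hYj, Module.End.mul_apply, LinearMap.smulRight_apply, map_smul,
      LinearMap.smul_apply] at h4
    exact h4
  have hc0 : c ≠ 0 := by
    rintro rfl
    have h4 := h3 v
    rw [zero_smul] at h4
    exact (smul_ne_zero hv hw) h4
  refine ⟨z w, c⁻¹ • (ψ.comp z), ?_, ?_⟩
  · rw [LinearMap.smul_apply, LinearMap.comp_apply, hzz, map_zero, smul_zero]
  · ext x
    rw [LinearMap.smulRight_apply, LinearMap.smul_apply, LinearMap.comp_apply, smul_eq_mul,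
      mul_smul, h3, smul_smul, inv_mul_cancel₀ hc0, one_smul]

include h𝔥 hT in
/-- The products `Z Y Z` in the second component. -/
theorem zyz {i j : I} (hi : act i) (hj : act j) (hij : ¬ Ind 𝔥 i j)
    {Z : ∀ i, Module.End K (E i)} (hZ : Z ∈ 𝔥) {u : E i} {φ : Dual K (E i)} (hφ : φ u = 0)
    (hZi : Z i = φ.smulRight u) (hZj : Z j * Z j = 0) {Y : ∀ i, Module.End K (E i)}
    (hY : Y ∈ 𝔥) : Z j * Y j * Z j = φ (Y i u) • Z j := by
  have h1 : brk Z (brk Z Y) + ((2 : K) * φ (Y i u)) • Z ∈ 𝔥 :=
    𝔥.add_mem (h𝔥.br _ hZ _ (h𝔥.br _ hZ _ hY)) (𝔥.smul_mem _ hZ)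
  have h2 : (brk Z (brk Z Y) + ((2 : K) * φ (Y i u)) • Z) i = 0 := by
    ext v
    simp only [Pi.add_apply, Pi.smul_apply, brk, hZi, LinearMap.add_apply, LinearMap.sub_apply,
      Module.End.mul_apply, LinearMap.smulRight_apply, map_sub, map_smul, hφ,
      LinearMap.smul_apply, LinearMap.zero_apply]
    module
  obtain ⟨s, hs⟩ := ker_scalar h𝔥 hT hi hj hij h1 h2
  have h3 : (brk Z (brk Z Y) + ((2 : K) * φ (Y i u)) • Z) j =
      (-2 : K) • (Z j * Y j * Z j - φ (Y i u) • Z j) := by
    have h4 : (brk Z (brk Z Y) + ((2 : K) * φ (Y i u)) • Z) j =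
        Z j * (Z j * Y j - Y j * Z j) - (Z j * Y j - Y j * Z j) * Z j +
          ((2 : K) * φ (Y i u)) • Z j := rfl
    rw [h4, mul_sub, sub_mul, ← mul_assoc (Z j) (Z j), hZj, zero_mul, mul_assoc (Y j),
      hZj, mul_zero, ← mul_assoc (Z j) (Y j)]
    module
  rw [h3] at hs
  have h4 : s • Z j = 0 := by
    have h5 := congrArg (fun f => Z j * f) hs
    simp only [mul_smul_comm, mul_sub, mul_one] at h5
    rw [← mul_assoc, ← mul_assoc, hZj, zero_mul, zero_mul, smul_zero, sub_zero,
      smul_zero] at h5
    exact h5.symm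
  rcases smul_eq_zero.1 h4 with h5 | h5
  · rw [h5, zero_smul] at hs
    have h6 := (smul_eq_zero.1 hs).resolve_left (by norm_num)
    exact sub_eq_zero.1 h6
  · rw [h5, mul_zero, smul_zero]

include h𝔥 hT in
theorem rk_le {i j : I} (hi : act i) (hj : act j) (hij : ¬ Ind 𝔥 i j)
    {Z : ∀ i, Module.End K (E i)} (hZ : Z ∈ 𝔥) {u : E i} {φ : Dual K (E i)} (hφ : φ u = 0)
    (hZi : Z i = φ.smulRight u) (hZj : Z j * Z j = 0) :
    ∃ (p : E j) (α : Dual K (E j)), α p = 0 ∧ Z j = α.smulRight p :=
  extremal h𝔥 hT hj (Z j) hZj (fun hs => hT.sp j hs Z hZ)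
    (fun Y hY => ⟨φ (Y i u), zyz h𝔥 hT hi hj hij hZ hφ hZi hZj hY⟩)

theorem comm_zero {V : Type*} [AddCommGroup V] [Module K V] {p p' : V} {α α' : Dual K V}
    (h2 : α' p' = 0)
    (h : (α.smulRight p * α'.smulRight p' : Module.End K V) = α'.smulRight p' * α.smulRight p) :
    (α.smulRight p * α'.smulRight p' : Module.End K V) = 0 := by
  by_cases h0 : α p' = 0
  · ext v
    simp only [Module.End.mul_apply, LinearMap.smulRight_apply, map_smul, h0, smul_zero,
      zero_smul, LinearMap.zero_apply]
  · have h3 := congrArg (fun f : Module.End K V => f p') h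
    simp only [Module.End.mul_apply, LinearMap.smulRight_apply, map_smul, h2,
      zero_smul, map_zero] at h3
    have h4 : p' ≠ 0 := by
      rintro rfl
      exact h0 (map_zero α)
    have h5 := (smul_eq_zero.1 h3.symm).resolve_left h0
    have h6 : α' p = 0 := (smul_eq_zero.1 h5).resolve_right h4
    rw [h]
    ext v
    simp only [Module.End.mul_apply, LinearMap.smulRight_apply, map_smul, h6, smul_zero,
      zero_smul, LinearMap.zero_apply]

theorem scalar_trace {V : Type*} [AddCommGroup V] [Module K V] [FiniteDimensional K V]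
    (hV : 0 < finrank K V) {c : K} (h : LinearMap.trace K V (c • (1 : Module.End K V)) = 0) :
    c = 0 := by
  rw [map_smul, LinearMap.trace_one, smul_eq_mul] at h
  exact (mul_eq_zero.1 h).resolve_right (Nat.cast_ne_zero.2 hV.ne')

include hT in
theorem finrank_pos' {j : I} (hj : act j) : 0 < finrank K (E j) := by
  obtain ⟨N, _, u, φ, hu, _⟩ := hT.nil j hj
  have _ : Nontrivial (E j) := ⟨u, 0, hu⟩
  exact finrank_pos

include h𝔥 hT in
/-- Elements of trace zero that vanish in one component vanish in the other. -/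
theorem ker_zero {i j : I} (hi : act i) (hj : act j) (hij : ¬ Ind 𝔥 i j)
    {X : ∀ i, Module.End K (E i)} (hX : X ∈ 𝔥) (hXi : X i = 0)
    (htr : LinearMap.trace K (E j) (X j) = 0) : X j = 0 := by
  obtain ⟨c, hc⟩ := ker_scalar h𝔥 hT hi hj hij hX hXi
  rw [hc] at htr
  rw [hc, scalar_trace (finrank_pos' hT hj) htr, zero_smul]

include h𝔥 hT in
theorem add_aux {i j : I} (hi : act i) (hj : act j) (hij : ¬ Ind 𝔥 i j)
    {X X' : ∀ i, Module.End K (E i)} (hX : X ∈ 𝔥) (hX' : X' ∈ 𝔥)
    (hcom : brk X X' i = 0) {p p' : E j} {α α' : Dual K (E j)} (h1 : α p = 0) (h2 : α' p' = 0)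
    (hXj : X j = α.smulRight p) (hXj' : X' j = α'.smulRight p') :
    (X + X') j * (X + X') j = 0 := by
  have h3 := ker_zero h𝔥 hT hi hj hij (h𝔥.br _ hX _ hX') hcom (by
    change LinearMap.trace K (E j) (X j * X' j - X' j * X j) = 0
    rw [map_sub, LinearMap.trace_mul_comm, sub_self])
  have h4 : X j * X' j - X' j * X j = 0 := h3
  rw [sub_eq_zero, hXj, hXj'] at h4
  have h5 := comm_zero h2 h4
  rw [Pi.add_apply, hXj, hXj', add_mul, mul_add, mul_add, ← h4, h5, rk_mul p α h1,
    rk_mul p' α' h2]
  simp

include h𝔥 hT in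
/-- The rank one nilpotent operators in the `i`-th component, whose `j`-th component is also of
rank at most one. -/
theorem sys_two {i j : I} (hi : act i) (hj : act j) (hij : ¬ Ind 𝔥 i j) :
    Sys (r i) (fun u φ => φ u = 0 ∧ ∃ X ∈ 𝔥, X i = φ.smulRight u ∧
      ∃ (p : E j) (α : Dual K (E j)), α p = 0 ∧ X j = α.smulRight p) where
  ker := fun u φ h => h.1
  zero := fun u => ⟨rfl, 0, 𝔥.zero_mem, by ext v; simp, 0, 0, rfl, by ext v; simp⟩
  add := by
    rintro u φ φ' ⟨h1, X, hX, hXi, p, α, h2, hXj⟩ ⟨h1', X', hX', hXi', p', α', h2', hXj'⟩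
    have h0 : (φ + φ') u = 0 := by rw [LinearMap.add_apply, h1, h1', add_zero]
    have h3 : (X + X') i = (φ + φ').smulRight u := by
      rw [Pi.add_apply, hXi, hXi']
      ext v
      simp only [LinearMap.add_apply, LinearMap.smulRight_apply, add_smul]
    refine ⟨h0, X + X', 𝔥.add_mem hX hX', h3, ?_⟩
    refine rk_le h𝔥 hT hi hj hij (𝔥.add_mem hX hX') h0 h3
      (add_aux h𝔥 hT hi hj hij hX hX' ?_ h2 h2' hXj hXj')
    unfold brk
    rw [hXi, hXi']
    ext v
    simp only [LinearMap.sub_apply, Module.End.mul_apply, LinearMap.smulRight_apply, map_smul,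
      h1, h1', smul_zero, zero_smul, sub_zero, LinearMap.zero_apply]
  smul := by
    rintro c u φ ⟨h1, X, hX, hXi, p, α, h2, hXj⟩
    refine ⟨by rw [LinearMap.smul_apply, h1, smul_zero], c • X, 𝔥.smul_mem _ hX, ?_, p, c • α,
      by rw [LinearMap.smul_apply, h2, smul_zero], ?_⟩
    · rw [Pi.smul_apply, hXi]
      ext v
      simp only [LinearMap.smul_apply, LinearMap.smulRight_apply, smul_eq_mul, smul_smul]
    · rw [Pi.smul_apply, hXj]
      ext v
      simp only [LinearMap.smul_apply, LinearMap.smulRight_apply, smul_eq_mul, smul_smul]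
  addu := by
    rintro u v φ ⟨h1, X, hX, hXi, p, α, h2, hXj⟩ ⟨h1', X', hX', hXi', p', α', h2', hXj'⟩
    have h0 : φ (u + v) = 0 := by rw [map_add, h1, h1', add_zero]
    have h3 : (X + X') i = φ.smulRight (u + v) := by
      rw [Pi.add_apply, hXi, hXi']
      ext v
      simp only [LinearMap.add_apply, LinearMap.smulRight_apply, smul_add]
    refine ⟨h0, X + X', 𝔥.add_mem hX hX', h3, ?_⟩
    refine rk_le h𝔥 hT hi hj hij (𝔥.add_mem hX hX') h0 h3
      (add_aux h𝔥 hT hi hj hij hX hX' ?_ h2 h2' hXj hXj')
    unfold brk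
    rw [hXi, hXi']
    ext v
    simp only [LinearMap.sub_apply, Module.End.mul_apply, LinearMap.smulRight_apply, map_smul,
      h1, h1', smul_zero, zero_smul, sub_zero, LinearMap.zero_apply]
  smulu := by
    rintro c u φ ⟨h1, X, hX, hXi, p, α, h2, hXj⟩
    refine ⟨by rw [map_smul, h1, smul_zero], c • X, 𝔥.smul_mem _ hX, ?_, p, c • α,
      by rw [LinearMap.smul_apply, h2, smul_zero], ?_⟩
    · rw [Pi.smul_apply, hXi]
      ext v
      simp only [LinearMap.smul_apply, LinearMap.smulRight_apply]
      rw [smul_comm]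
    · rw [Pi.smul_apply, hXj]
      ext v
      simp only [LinearMap.smul_apply, LinearMap.smulRight_apply, smul_eq_mul, smul_smul]
  exp := by
    rintro u φ v ψ ⟨h1, X, hX, hXi, p, α, h2, hXj⟩ ⟨h1', X', hX', hXi', p', α', h2', hXj'⟩
    refine ⟨?_, _, exp_mem h𝔥 hX hX', exp_comp hXi h1 hXi', _, _, ?_, exp_comp hXj h2 hXj'⟩
    · simp only [LinearMap.sub_apply, LinearMap.smul_apply, map_add, map_smul, smul_eq_mul, h1,
        h1']
      ring
    · simp only [LinearMap.sub_apply, LinearMap.smul_apply, map_add, map_smul, smul_eq_mul, h2,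
        h2']
      ring
  conj := by
    rintro g u φ ⟨h1, X, hX, hXi, p, α, h2, hXj⟩
    refine ⟨by rw [LinearMap.comp_apply, r_inv, h1], _, h𝔥.conj g X hX, ?_, r j g p,
      α.comp (r j g⁻¹), by rw [LinearMap.comp_apply, r_inv, h2], ?_⟩
    · change r i g * X i * r i g⁻¹ = _
      rw [hXi, conj_one]
    · change r j g * X j * r j g⁻¹ = _
      rw [hXj, conj_one]

theorem brk3_zero {V : Type*} [AddCommGroup V] [Module K V] (n x : Module.End K V)
    (hn : n * n = 0) : n * (n * (n * x - x * n) - (n * x - x * n) * n) -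
      (n * (n * x - x * n) - (n * x - x * n) * n) * n = 0 := by
  have h1 : n * (n * (n * x - x * n) - (n * x - x * n) * n) -
      (n * (n * x - x * n) - (n * x - x * n) * n) * n =
      (n * n) * (n * x) - (3 : K) • ((n * n) * (x * n)) + (3 : K) • (n * x * (n * n)) -
        x * n * (n * n) := by
    have h3 : (3 : K) = 1 + 1 + 1 := by norm_num
    rw [h3]
    simp only [add_smul, one_smul]
    noncomm_ring
  rw [h1, hn]
  simp

theorem brk3_apply {V : Type*} [AddCommGroup V] [Module K V] (y x : Module.End K V) (v : V) :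
    (y * (y * (y * x - x * y) - (y * x - x * y) * y) -
      (y * (y * x - x * y) - (y * x - x * y) * y) * y) v =
    y (y (y (x v))) - (3 : K) • y (y (x (y v))) + (3 : K) • y (x (y (y v))) - x (y (y (y v))) := by
  simp only [LinearMap.sub_apply, Module.End.mul_apply, map_sub]
  module

include h𝔥 hT in
/-- If the components are not independent then square zero elements of one component are square
zero in the other. -/
theorem sq_zero {i j : I} (hi : act i) (hj : act j) (hij : ¬ Ind 𝔥 i j)
    {N : ∀ i, Module.End K (E i)} (hN : N ∈ 𝔥) (hNi : N i * N i = 0) : N j * N j = 0 := by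
  have key : ∀ X ∈ 𝔥, brk N (brk N (brk N X)) j = 0 := by
    intro X hX
    refine ker_zero h𝔥 hT hi hj hij (h𝔥.br _ hN _ (h𝔥.br _ hN _ (h𝔥.br _ hN _ hX))) ?_ ?_
    · exact brk3_zero (N i) (X i) hNi
    · exact hT.tr _ (h𝔥.br _ hN _ (h𝔥.br _ hN _ (h𝔥.br _ hN _ hX))) j
  set y := N j with hy
  by_cases hs : sd j
  · -- the symplectic case
    have hskew := fun u v => skew hT hs u v
    have hyy : ∀ u v, ω j (y u) v + ω j u (y v) = 0 := hT.sp j hs N hN
    have hF : ∀ v x, ω j v x • y (y (y v)) + (3 : K) • ω j (y v) x • y (y v) +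
        (3 : K) • ω j (y (y v)) x • y v + ω j (y (y (y v))) x • v = 0 := by
      intro v x
      obtain ⟨X, hX, hXj⟩ := full h𝔥 hT hj v (ω j v)
        ⟨hT.alt j hs v, fun _ => ⟨1, (one_smul _ _).symm⟩⟩
      have h1 := congrArg (fun f : Module.End K (E j) => f x) (key X hX)
      have h2 := brk3_apply y (X j) x
      have h3 : brk N (brk N (brk N X)) j = y * (y * (y * X j - X j * y) - (y * X j - X j * y) * y) -
        (y * (y * X j - X j * y) - (y * X j - X j * y) * y) * y := rfl
      rw [h3] at h1
      rw [h2, hXj] at h1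
      simp only [LinearMap.smulRight_apply, map_smul, LinearMap.zero_apply] at h1
      have e1 : ω j v (y x) = -ω j (y v) x := by linear_combination hyy v x
      have e2 : ω j v (y (y x)) = ω j (y (y v)) x := by
        linear_combination hyy v (y x) - hyy (y v) x
      have e3 : ω j v (y (y (y x))) = -ω j (y (y (y v))) x := by
        linear_combination hyy v (y (y x)) - hyy (y v) (y x) + hyy (y (y v)) x
      rw [e1, e2, e3] at h1
      rw [← h1]
      module
    have hq : ∀ v, ω j (y v) v ≠ 0 → y (y v) = 0 := by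
      intro v hv
      have h1 := hF v v
      have e1 : ω j (y (y v)) v = 0 := by
        have h2 := hyy (y v) v
        have h3 := hT.alt j hs (y v)
        linear_combination h2 - h3
      rw [hT.alt j hs v, e1, zero_smul, zero_smul, zero_add, smul_zero, add_zero] at h1
      -- `y (y v)` is a multiple of `v`
      have h2 : y (y v) = (-(ω j (y (y (y v))) v) / (3 * ω j (y v) v)) • v := by
        have h3 : (3 * ω j (y v) v) • y (y v) = (-(ω j (y (y (y v))) v)) • v := by
          rw [neg_smul, ← mul_smul] at *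
          exact eq_neg_of_add_eq_zero_left h1
        have h4 : (3 * ω j (y v) v) ≠ 0 := mul_ne_zero (by norm_num) hv
        rw [div_eq_inv_mul, mul_smul, ← h3, smul_smul, inv_mul_cancel₀ h4, one_smul]
      set c := -(ω j (y (y (y v))) v) / (3 * ω j (y v) v) with hc
      have h3 : ω j (y (y (y v))) v = c * ω j (y v) v := by
        rw [h2, map_smul, map_smul, LinearMap.smul_apply, smul_eq_mul]
      have h4 : (4 * c) * ω j (y v) v = 0 := by
        have h5 : c * (3 * ω j (y v) v) = -(ω j (y (y (y v))) v) := by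
          rw [hc, div_mul_cancel₀ _ (mul_ne_zero (by norm_num) hv)]
        rw [h3] at h5
        linear_combination h5
      have h5 := (mul_eq_zero.1 h4).resolve_right hv
      have h6 : c = 0 := (mul_eq_zero.1 h5).resolve_left (by norm_num)
      rw [h2, h6, zero_smul]
    by_cases h0 : ∀ v, ω j (y v) v = 0
    · -- then `y = 0`
      have h1 : y = 0 := by
        by_contra h
        obtain ⟨v, hv⟩ : ∃ v, y v ≠ 0 := by
          by_contra h2
          push Not at h2
          exact h (LinearMap.ext h2)
        obtain ⟨w, hw⟩ := nondeg hT hs hv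
        apply hw
        have h3 := h0 (v + w)
        simp only [map_add, LinearMap.add_apply, h0] at h3
        have h4 := hyy w v
        have h5 := hskew w (y v)
        have h6 : (2 : K) * ω j (y v) w = 0 := by linear_combination h3 - h4 + h5
        exact (mul_eq_zero.1 h6).resolve_left two_ne_zero
      rw [h1, mul_zero]
    · push Not at h0
      obtain ⟨v₀, hv₀⟩ := h0
      ext w
      rw [Module.End.mul_apply, LinearMap.zero_apply]
      by_cases hw : ω j (y w) w = 0
      · by_cases h1 : ω j (y (w + v₀)) (w + v₀) = 0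
        · have h2 : ω j (y (w - v₀)) (w - v₀) ≠ 0 := by
            intro h2
            apply hv₀
            simp only [map_add, map_sub, LinearMap.add_apply, LinearMap.sub_apply] at h1 h2
            have h3 : (2 : K) * ω j (y v₀) v₀ = 0 := by linear_combination h1 + h2 - 2 * hw
            exact (mul_eq_zero.1 h3).resolve_left two_ne_zero
          have h3 := hq _ h2
          rw [map_sub, map_sub, hq v₀ hv₀, sub_zero] at h3
          exact h3
        · have h3 := hq _ h1
          rw [map_add, map_add, hq v₀ hv₀, add_zero] at h3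
          exact h3
      · exact hq w hw
  · -- the general linear case
    have h1 : ∀ x ∈ TS sd ω j, y * (y * (y * x - x * y) - (y * x - x * y) * y) -
        (y * (y * x - x * y) - (y * x - x * y) * y) * y = 0 := by
      intro x hx
      unfold TS at hx
      induction hx using Submodule.span_induction with
      | mem x hx =>
        obtain ⟨w', ψ', h3, rfl⟩ := hx
        obtain ⟨X, hX, hXj⟩ := full h𝔥 hT hj w' ψ' h3
        rw [← hXj]
        exact key X hX
      | zero => simp
      | add a b _ _ ha hb =>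
        have h4 : y * (y * (y * (a + b) - (a + b) * y) - (y * (a + b) - (a + b) * y) * y) -
            (y * (y * (a + b) - (a + b) * y) - (y * (a + b) - (a + b) * y) * y) * y =
            (y * (y * (y * a - a * y) - (y * a - a * y) * y) -
              (y * (y * a - a * y) - (y * a - a * y) * y) * y) +
            (y * (y * (y * b - b * y) - (y * b - b * y) * y) -
              (y * (y * b - b * y) - (y * b - b * y) * y) * y) := by
          noncomm_ring
        rw [h4, ha, hb, add_zero]
      | smul c a _ ha =>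
        have h4 : y * (y * (y * (c • a) - (c • a) * y) - (y * (c • a) - (c • a) * y) * y) -
            (y * (y * (c • a) - (c • a) * y) - (y * (c • a) - (c • a) * y) * y) * y =
            c • (y * (y * (y * a - a * y) - (y * a - a * y) * y) -
              (y * (y * a - a * y) - (y * a - a * y) * y) * y) := by
          simp only [mul_sub, sub_mul, smul_mul_assoc, mul_smul_comm, smul_sub]
        rw [h4, ha, smul_zero]
    have hpos : 0 < finrank K (E j) := finrank_pos' hT hj
    have hall : ∀ (w : E j) (ψ : Dual K (E j)) (x : E j), ψ x • y (y (y w)) -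
        (3 : K) • ψ (y x) • y (y w) + (3 : K) • ψ (y (y x)) • y w - ψ (y (y (y x))) • w = 0 := by
      intro w ψ x
      let t := LinearMap.trace K (E j) (ψ.smulRight w) / (finrank K (E j) : K)
      have hn0 : (finrank K (E j) : K) ≠ 0 := Nat.cast_ne_zero.2 hpos.ne'
      have h2 : ψ.smulRight w - t • (1 : Module.End K (E j)) ∈ TS sd ω j := by
        refine span_types hT _ ?_ (fun h => absurd h hs)
        rw [map_sub, map_smul, LinearMap.trace_one, smul_eq_mul, div_mul_cancel₀ _ hn0, sub_self]
      have h3 := congrArg (fun f : Module.End K (E j) => f x) (h1 _ h2)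
      rw [brk3_apply, LinearMap.zero_apply] at h3
      simp only [LinearMap.sub_apply, LinearMap.smul_apply, Module.End.one_apply,
        LinearMap.smulRight_apply, map_sub, map_smul] at h3
      rw [← h3]
      module
    by_cases hsc : ∃ c : K, y = c • 1
    · obtain ⟨c, hc⟩ := hsc
      have h2 := hT.tr N hN j
      rw [← hy, hc] at h2
      rw [hc, scalar_trace hpos h2]
      simp
    · obtain ⟨x, hx⟩ : ∃ x, y x ∉ Submodule.span K {x} := by
        by_contra hcon
        push Not at hcon
        apply hsc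
        obtain ⟨c, hc⟩ := prop_const (LinearMap.id : E j →ₗ[K] E j) y Function.injective_id (by
          intro w
          obtain ⟨c, hc⟩ := Submodule.mem_span_singleton.1 (hcon w)
          exact ⟨c, hc.symm⟩)
        refine ⟨c, ?_⟩
        ext v
        exact hc v
      obtain ⟨ψ, hψx, hψ⟩ := exists_sep hx
      set p := ψ (y x) with hp
      set a := ψ (y (y x)) / p with ha
      set b := -(ψ (y (y (y x)))) / (3 * p) with hb
      have h3p : (3 : K) * p ≠ 0 := mul_ne_zero (by norm_num) hψ
      have hy2 : ∀ w, y (y w) = a • y w + b • w := by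
        intro w
        have h2 := hall w ψ x
        rw [hψx, zero_smul, zero_sub] at h2
        have h3 : (3 * p) • y (y w) = (3 * ψ (y (y x))) • y w + (-(ψ (y (y (y x))))) • w := by
          have h4 : (3 * p) • y (y w) - ((3 * ψ (y (y x))) • y w +
              (-(ψ (y (y (y x))))) • w) = 0 := by
            rw [← neg_eq_zero, ← h2]
            module
          exact sub_eq_zero.1 h4
        have h4 : y (y w) = (3 * p)⁻¹ • ((3 * p) • y (y w)) := by
          rw [smul_smul, inv_mul_cancel₀ h3p, one_smul]
        rw [h4, h3, smul_add, smul_smul, smul_smul]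
        congr 2
        · rw [ha]
          field_simp
        · rw [hb]
          field_simp
      have hab : a ^ 2 + 4 * b = 0 := by
        obtain ⟨w, hw⟩ : ∃ w : E j, w ≠ 0 := by
          have _ : Nontrivial (E j) := Module.nontrivial_of_finrank_pos hpos
          exact _root_.exists_ne 0
        have h2 := hall w ψ x
        have h3 : y (y (y w)) = (a ^ 2 + b) • y w + (a * b) • w := by
          rw [hy2 w, map_add, map_smul, map_smul, hy2 w]
          module
        have h4 : y (y (y x)) = (a ^ 2 + b) • y x + (a * b) • x := by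
          rw [hy2 x, map_add, map_smul, map_smul, hy2 x]
          module
        rw [h3, h4, hy2 w, hy2 x] at h2
        simp only [map_add, map_smul, hψx, smul_eq_mul] at h2
        rw [← hp] at h2
        have h5 : (-(p * (a ^ 2 + 4 * b))) • w = 0 := by
          rw [← h2]
          module
        have h6 := (smul_eq_zero.1 h5).resolve_right hw
        have h7 := neg_eq_zero.1 h6
        exact (mul_eq_zero.1 h7).resolve_left hψ
      have hnil : IsNilpotent (y - (a / 2) • (1 : Module.End K (E j))) := by
        refine ⟨2, ?_⟩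
        rw [pow_two]
        ext w
        simp only [Module.End.mul_apply, LinearMap.sub_apply, LinearMap.smul_apply,
          Module.End.one_apply, map_sub, map_smul, LinearMap.zero_apply]
        rw [hy2]
        have h2 : a • y w + b • w - (a / 2) • y w - (a / 2) • (y w - (a / 2) • w) =
            ((a ^ 2 + 4 * b) / 4) • w := by module
        rw [h2, hab, zero_div, zero_smul]
      have htr := LinearMap.isNilpotent_trace_of_isNilpotent hnil
      rw [isNilpotent_iff_eq_zero, map_sub, hT.tr N hN j, zero_sub, neg_eq_zero] at htr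
      have ha0 : a / 2 = 0 := scalar_trace hpos htr
      have ha0' : a = 0 := by
        have := (div_eq_zero_iff.1 ha0).resolve_right two_ne_zero
        exact this
      have hb0 : b = 0 := by
        rw [ha0'] at hab
        have h2 : (4 : K) * b = 0 := by linear_combination hab
        exact (mul_eq_zero.1 h2).resolve_left (by norm_num)
      ext w
      rw [Module.End.mul_apply, hy2, ha0', hb0, zero_smul, zero_smul, add_zero,
        LinearMap.zero_apply]

include h𝔥 hT in
theorem full_two {i j : I} (hi : act i) (hj : act j) (hij : ¬ Ind 𝔥 i j) :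
    ∀ u φ, Ty sd ω i u φ → ∃ X ∈ 𝔥, X i = φ.smulRight u ∧
      ∃ (p : E j) (α : Dual K (E j)), α p = 0 ∧ X j = α.smulRight p := by
  intro u φ hφ
  refine (ty_of_main hT hi (sys_two h𝔥 hT hi hj hij) ?_ ?_ u φ hφ).2
  · rintro u φ ⟨_, X, hX, hXi, _⟩
    exact ⟨X, hX, hXi⟩
  · obtain ⟨N, hN, u, φ, hu, hφ, hφu, hNi⟩ := hT.nil i hi
    exact ⟨u, φ, hu, hφ, hφu, N, hN, hNi, rk_le h𝔥 hT hi hj hij hN hφu hNi
      (sq_zero h𝔥 hT hi hj hij hN (by rw [hNi]; exact rk_mul u φ hφu))⟩

end

end Pool.Agent.W522.T
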