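import Mathlib
import Pool.Agent.W522.T.A2

/-!
# Two symplectic components that are not independent are twists of each other
-/

set_option linter.unusedSectionVars false

namespace Pool.Agent.W522.T

open Module Pool.Agent.W522.U

noncomputable section

variable {K : Type*} [Field K] [CharZero K]
  {I : Type*} [DecidableEq I] {E : I → Type*} [∀ i, AddCommGroup (E i)]
  [∀ i, Module K (E i)] [∀ i, FiniteDimensional K (E i)] {G : Type*} [Group G]
  {r : ∀ i, Representation K G (E i)}
  {𝔥 : Submodule K (∀ i, Module.End K (E i))} (h𝔥 : LieFam r 𝔥)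
  {act sd : I → Prop} {ω : ∀ i, E i →ₗ[K] Dual K (E i)} {χ : I → G → K}
  (hT : Types r 𝔥 act sd ω χ)

include hT in
theorem ty_self {i : I} (hs : sd i) (u : E i) : Ty sd ω i u (ω i u) :=
  ⟨hT.alt i hs u, fun _ => ⟨1, (one_smul _ _).symm⟩⟩

/-- From pointwise proportional maps to a twisted intertwiner. -/
theorem twist_of_pointwise {V W : Type*} [AddCommGroup V] [Module K V] [AddCommGroup W]
    [Module K W] [FiniteDimensional K W] (rV : Representation K G V) (rW : Representation K G W) (T : V →ₗ[K] W)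
    (hT : Function.Injective T) (h : ∀ g u, ∃ c : K, T (rV g u) = c • rW g (T u)) :
    ∃ ψ : G → K, ∀ g u, T (rV g u) = ψ g • rW g (T u) := by
  have h1 : ∀ g, ∃ c : K, ∀ u, (T.comp (rV g)) u = c • ((rW g).comp T) u := by
    intro g
    refine prop_const ((rW g).comp T) (T.comp (rV g)) ?_ (fun u => h g u)
    intro u v huv
    apply hT
    have h2 := congrArg (rW g⁻¹) huv
    rwa [LinearMap.comp_apply, LinearMap.comp_apply, r_inv, r_inv] at h2
  choose ψ hψ using h1
  exact ⟨ψ, fun g u => hψ g u⟩

include h𝔥 hT in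
theorem sp_sp {i j : I} (hi : act i) (hj : act j) (hsi : sd i) (hsj : sd j)
    (hij : ¬ Ind 𝔥 i j) : ∃ (T : E i →ₗ[K] E j) (ψ : G → K), T ≠ 0 ∧
      ∀ g u, T (r i g u) = ψ g • r j g (T u) := by
  classical
  choose X hX hXi p α hαp hXj using
    fun u => full_two h𝔥 hT hi hj hij u (ω i u) (ty_self hT hsi u)
  have hω0 : ∀ {u : E i}, u ≠ 0 → ω i u ≠ 0 := by
    intro u hu h
    exact hu (hT.inj i hsi (by rw [h, map_zero]))
  have hXj0 : ∀ u, u ≠ 0 → X u j ≠ 0 := by
    intro u hu h
    exact hij ⟨X u, hX u, h, u, ω i u, hu, hω0 hu, hT.alt i hsi u, hXi u⟩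
  obtain ⟨_, _, e, _, he, _⟩ := hT.nil i hi
  have hp0 : ∀ u, u ≠ 0 → p u ≠ 0 := by
    intro u hu h
    apply hXj0 u hu
    rw [hXj, h]
    ext v
    simp
  have hc : ∀ u, ∃ c : K, u ≠ 0 → α u = c • ω j (p u) := by
    intro u
    by_cases hu : u = 0
    · exact ⟨0, fun h => absurd hu h⟩
    · obtain ⟨c, hc⟩ := rk_sp hT hsj (hX u) (hXj u) (hp0 u hu)
      exact ⟨c, fun _ => hc⟩
  choose c hc using hc
  have hα0 : ∀ u, u ≠ 0 → α u ≠ 0 := by
    intro u hu h
    apply hXj0 u hu
    rw [hXj, h]
    ext v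
    simp
  have hc0 : ∀ u, u ≠ 0 → c u ≠ 0 := by
    intro u hu h
    apply hα0 u hu
    rw [hc u hu, h, zero_smul]
  -- the two evaluation maps
  let A : 𝔥 →ₗ[K] E i :=
    { toFun := fun Y => Y.1 i e
      map_add' := fun _ _ => rfl
      map_smul' := fun _ _ => rfl }
  let B : 𝔥 →ₗ[K] E j :=
    { toFun := fun Y => Y.1 j (p e)
      map_add' := fun _ _ => rfl
      map_smul' := fun _ _ => rfl }
  obtain ⟨f, hf⟩ := nondeg hT hsi he
  have hf' : ω i f e ≠ 0 := by
    rw [skew hT hsi]
    exact neg_ne_zero.2 hf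
  have hA : LinearMap.range A = ⊤ := by
    have h1 : ∀ u, ω i u e ≠ 0 → u ∈ LinearMap.range A := by
      intro u hu
      refine ⟨(ω i u e)⁻¹ • ⟨X u, hX u⟩, ?_⟩
      rw [map_smul]
      change (ω i u e)⁻¹ • X u i e = u
      rw [hXi, LinearMap.smulRight_apply, smul_smul, inv_mul_cancel₀ hu, one_smul]
    rw [eq_top_iff]
    intro v _
    by_cases hv : ω i v e = 0
    · have h2 := h1 (v + f) (by
        rw [map_add, LinearMap.add_apply, hv, zero_add]
        exact hf')
      have h3 : v = (v + f) - f := by abel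
      rw [h3]
      exact Submodule.sub_mem _ h2 (h1 f hf')
    · exact h1 v hv
  have hker : ∀ Y ∈ 𝔥, Y i e = 0 → Y j (p e) = 0 := by
    intro Y hY hYe
    have h1 : brk Y (X e) i = 0 := by
      unfold brk
      rw [hXi]
      ext v
      simp only [LinearMap.sub_apply, Module.End.mul_apply, LinearMap.smulRight_apply, map_smul,
        hYe, smul_zero, zero_sub, LinearMap.zero_apply]
      have h2 := hT.sp i hsi Y hY e v
      rw [hYe, map_zero, LinearMap.zero_apply, zero_add] at h2
      rw [h2, zero_smul, neg_zero]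
    have h2 := ker_zero h𝔥 hT hi hj hij (h𝔥.br _ hY _ (hX e)) h1 (by
      change LinearMap.trace K (E j) (Y j * X e j - X e j * Y j) = 0
      rw [map_sub, LinearMap.trace_mul_comm, sub_self])
    obtain ⟨v, hv⟩ := nondeg hT hsj (hp0 e he)
    have h3 := congrArg (fun f : Module.End K (E j) => f v) h2
    simp only [brk, hXj, hc e he, LinearMap.sub_apply, Module.End.mul_apply,
      LinearMap.smulRight_apply, map_smul, LinearMap.smul_apply, LinearMap.zero_apply,
      smul_eq_mul] at h3
    have h4 := hT.sp j hsj Y hY (p e) v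
    have h5 : ω j (p e) v • Y j (p e) = -(ω j (Y j (p e)) v) • p e := by
      have h6 : c e • (ω j (p e) v • Y j (p e) - (ω j (p e)) (Y j v) • p e) = 0 := by
        rw [← h3]
        module
      have h7 := (smul_eq_zero.1 h6).resolve_left (hc0 e he)
      rw [sub_eq_zero.1 h7]
      congr 1
      linear_combination h4
    have h6 : Y j (p e) = (-(ω j (Y j (p e)) v) / ω j (p e) v) • p e := by
      rw [div_eq_inv_mul, ← smul_smul, ← h5, smul_smul, inv_mul_cancel₀ hv, one_smul]
    set t := -(ω j (Y j (p e)) v) / ω j (p e) v with ht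
    have h7 : ω j (Y j (p e)) v = t * ω j (p e) v := by
      rw [h6, map_smul, LinearMap.smul_apply, smul_eq_mul]
    have h8 : t = -t := by
      have h9 : t * ω j (p e) v = -(ω j (Y j (p e)) v) := by
        rw [ht, div_mul_cancel₀ _ hv]
      rw [h7] at h9
      have h10 : (t + t) * ω j (p e) v = 0 := by linear_combination h9
      have h11 := (mul_eq_zero.1 h10).resolve_right hv
      linear_combination h11
    have h9 : t = 0 := by
      have h10 : (2 : K) * t = 0 := by linear_combination h8
      exact (mul_eq_zero.1 h10).resolve_left two_ne_zero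
    rw [h6, h9, zero_smul]
  obtain ⟨s, hs⟩ := LinearMap.exists_rightInverse_of_surjective A hA
  let T : E i →ₗ[K] E j := B.comp s
  have hTY : ∀ Y ∈ 𝔥, T (Y i e) = Y j (p e) := by
    intro Y hY
    have h1 : A (s (Y i e) - ⟨Y, hY⟩) = 0 := by
      rw [map_sub, ← LinearMap.comp_apply, hs]
      exact sub_self _
    have h2 := hker _ (s (Y i e) - ⟨Y, hY⟩).2 h1
    change (s (Y i e)).1 j (p e) = Y j (p e)
    have h3 : ((s (Y i e) - ⟨Y, hY⟩ : 𝔥)).1 j (p e) = (s (Y i e)).1 j (p e) - Y j (p e) := rfl
    rw [h3, sub_eq_zero] at h2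
    exact h2
  -- the value of the second component, generic vectors
  have hD1 : ∀ u, ω i u e ≠ 0 → X u j = (c e • ω j (T u)).smulRight (T u) := by
    intro u hu
    have hu0 : u ≠ 0 := by
      rintro rfl
      rw [map_zero, LinearMap.zero_apply] at hu
      exact hu rfl
    have h1 := hTY _ (hX u)
    rw [hXi, LinearMap.smulRight_apply, map_smul, hXj, LinearMap.smulRight_apply, hc u hu0,
      LinearMap.smul_apply, smul_eq_mul] at h1
    have h2 := zyz h𝔥 hT hi hj hij (hX e) (hT.alt i hsi e) (hXi e)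
      (by rw [hXj]; exact rk_mul _ _ (hαp e)) (hX u)
    obtain ⟨v, hv⟩ := nondeg hT hsj (hp0 e he)
    have h3 := congrArg (fun f : Module.End K (E j) => f v) h2
    simp only [hXj, hXi, Module.End.mul_apply, LinearMap.smulRight_apply, map_smul,
      LinearMap.smul_apply, hc e he, hc u hu0, smul_eq_mul, smul_smul] at h3
    have h4 := smul_left_injective K (hp0 e he) h3
    have h5 := skew hT hsj (p e) (p u)
    have h6 := skew hT hsi e u
    have h7 : c e * c u * (ω j (p u) (p e)) ^ 2 = (ω i u e) ^ 2 := by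
      have h8 : c e * ω j (p e) v * (c e * c u * (ω j (p u) (p e)) ^ 2 - (ω i u e) ^ 2) = 0 := by
        rw [h5, h6] at h4
        linear_combination -h4
      exact sub_eq_zero.1 ((mul_eq_zero.1 h8).resolve_left (mul_ne_zero (hc0 e he) hv))
    have h8 : T u = ((ω i u e)⁻¹ * (c u * ω j (p u) (p e))) • p u := by
      rw [← smul_smul, ← h1, smul_smul, inv_mul_cancel₀ hu, one_smul]
    rw [h8, hXj, hc u hu0]
    ext w
    simp only [LinearMap.smulRight_apply, LinearMap.smul_apply, map_smul, smul_eq_mul, smul_smul]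
    congr 1
    field_simp
    linear_combination (-(ω j (p u)) w * c u) * h7
  have htr : ∀ u, LinearMap.trace K (E j) (X u j) = 0 := by
    intro u
    rw [hXj, trace_rk, hαp]
  have hD : ∀ u, X u j = (c e • ω j (T u)).smulRight (T u) := by
    intro u
    by_cases hu : ω i u e = 0
    · have h1 := hD1 (u + f) (by
        rw [map_add, LinearMap.add_apply, hu, zero_add]
        exact hf')
      have h2 := hD1 (u - f) (by
        rw [map_sub, LinearMap.sub_apply, hu, zero_sub]
        exact neg_ne_zero.2 hf')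
      have h3 := hD1 f hf'
      have h4 : X (u + f) + X (u - f) - (2 : K) • X f - (2 : K) • X u ∈ 𝔥 :=
        𝔥.sub_mem (𝔥.sub_mem (𝔥.add_mem (hX _) (hX _)) (𝔥.smul_mem _ (hX _)))
          (𝔥.smul_mem _ (hX _))
      have h5 : (X (u + f) + X (u - f) - (2 : K) • X f - (2 : K) • X u) i = 0 := by
        simp only [Pi.add_apply, Pi.sub_apply, Pi.smul_apply, hXi]
        ext w
        simp only [LinearMap.add_apply, LinearMap.sub_apply, LinearMap.smul_apply,
          LinearMap.smulRight_apply, map_add, map_sub, LinearMap.zero_apply]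
        module
      have h6 := ker_zero h𝔥 hT hi hj hij h4 h5 (by
        simp only [Pi.add_apply, Pi.sub_apply, Pi.smul_apply, map_add, map_sub, map_smul, htr,
          smul_zero, add_zero, sub_zero])
      simp only [Pi.add_apply, Pi.sub_apply, Pi.smul_apply] at h6
      rw [h1, h2, h3] at h6
      have h7 : (2 : K) • X u j = (2 : K) • ((c e • ω j (T u)).smulRight (T u)) := by
        rw [← sub_eq_zero.1 h6]
        ext w
        simp only [LinearMap.add_apply, LinearMap.sub_apply, LinearMap.smul_apply,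
          LinearMap.smulRight_apply, map_add, map_sub, smul_eq_mul]
        module
      have h8 := congrArg (fun f => (2 : K)⁻¹ • f) h7
      simpa only [smul_smul, inv_mul_cancel₀ (two_ne_zero : (2 : K) ≠ 0), one_smul] using h8
    · exact hD1 u hu
  have hTinj : Function.Injective T := by
    rw [injective_iff_map_eq_zero]
    intro u hu
    by_contra h
    apply hXj0 u h
    rw [hD, hu]
    ext v
    simp
  obtain ⟨ψ, hψ⟩ := twist_of_pointwise (r i) (r j) T hTinj (by
    intro g u
    by_cases h0 : T (r i g u) = 0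
    · exact ⟨0, by rw [h0, zero_smul]⟩
    have h1 : χ i g • (fun i => r i g * X u i * r i g⁻¹) - X (r i g u) ∈ 𝔥 :=
      𝔥.sub_mem (𝔥.smul_mem _ (h𝔥.conj g _ (hX u))) (hX _)
    have h2 : (χ i g • (fun i => r i g * X u i * r i g⁻¹) - X (r i g u)) i = 0 := by
      simp only [Pi.sub_apply, Pi.smul_apply, hXi, conj_one]
      ext w
      simp only [LinearMap.sub_apply, LinearMap.smul_apply, LinearMap.smulRight_apply,
        LinearMap.comp_apply, LinearMap.zero_apply]
      have h3 := hT.sim i hsi g u (r i g⁻¹ w)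
      rw [r_inv'] at h3
      rw [h3, smul_smul, sub_self]
    have h3 := ker_zero h𝔥 hT hi hj hij h1 h2 (by
      simp only [Pi.sub_apply, Pi.smul_apply, map_sub, map_smul, hXj, conj_one, trace_rk,
        LinearMap.comp_apply, r_inv, hαp]
      simp)
    simp only [Pi.sub_apply, Pi.smul_apply, hD, conj_one] at h3
    obtain ⟨w, hw⟩ := nondeg hT hsj h0
    have h4 := congrArg (fun f : Module.End K (E j) => f w) h3
    simp only [LinearMap.sub_apply, LinearMap.smul_apply, LinearMap.smulRight_apply,
        LinearMap.comp_apply, LinearMap.zero_apply, smul_eq_mul] at h4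
    have h5 := sub_eq_zero.1 h4
    have h6 : c e * ω j (T (r i g u)) w ≠ 0 := mul_ne_zero (hc0 e he) hw
    refine ⟨(c e * ω j (T (r i g u)) w)⁻¹ * (χ i g * (c e * ω j (T u) (r j g⁻¹ w))), ?_⟩
    rw [← smul_smul, ← smul_smul, h5, smul_smul, inv_mul_cancel₀ h6, one_smul])
  refine ⟨T, ψ, ?_, hψ⟩
  intro h
  exact he (hTinj (by rw [h]; simp))

end

end Pool.Agent.W522.T
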