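import Mathlib
import Pool.Agent.W522.T.A3

/-!
# Pairs: the case of the special linear Lie algebra
-/

set_option linter.unusedSectionVars false

namespace Pool.Agent.W522.T

open Module Pool.Agent.W522.U

noncomputable section

variable {K : Type*} [Field K] [CharZero K]

theorem ker_dual {W : Type*} [AddCommGroup W] [Module K W] {α β : Dual K W}
    (h : ∀ c : K, β ≠ c • α) : ∃ v, α v = 0 ∧ β v ≠ 0 := by
  by_contra hcon
  push Not at hcon
  by_cases hα : ∃ v, α v ≠ 0
  · obtain ⟨v0, hv0⟩ := hα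
    apply h (β v0 / α v0)
    ext v
    have h1 := hcon (v - (α v / α v0) • v0) (by
      rw [map_sub, map_smul, smul_eq_mul, div_mul_cancel₀ _ hv0, sub_self])
    rw [map_sub, map_smul, smul_eq_mul, sub_eq_zero] at h1
    rw [h1, LinearMap.smul_apply, smul_eq_mul]
    ring
  · push Not at hα
    apply h 0
    ext v
    rw [hcon v (hα v), zero_smul, LinearMap.zero_apply]

theorem sum_rk {W : Type*} [AddCommGroup W] [Module K W] {α β γ : Dual K W} {p q s : W}
    (h : (α.smulRight p + β.smulRight q : Module.End K W) = γ.smulRight s) (hp : p ≠ 0)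
    (hα : α ≠ 0) : q ∈ Submodule.span K {p} ∨ ∃ c : K, β = c • α := by
  by_contra hcon
  rw [not_or] at hcon
  obtain ⟨h1, h2⟩ := hcon
  push Not at h2
  have h0 : ∀ v, α v • p + β v • q = γ v • s := by
    intro v
    have h3 := congrArg (fun f : Module.End K W => f v) h
    simpa only [LinearMap.add_apply, LinearMap.smulRight_apply] using h3
  obtain ⟨v, hv1, hv2⟩ := ker_dual h2
  have hq : q ≠ 0 := by
    rintro rfl
    exact h1 (Submodule.zero_mem _)
  have h3 := h0 v
  rw [hv1, zero_smul, zero_add] at h3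
  have hγ : γ v ≠ 0 := by
    intro h4
    rw [h4, zero_smul] at h3
    exact (smul_ne_zero hv2 hq) h3
  have hs : s = ((γ v)⁻¹ * β v) • q := by
    rw [← smul_smul, h3, smul_smul, inv_mul_cancel₀ hγ, one_smul]
  obtain ⟨w, hw⟩ : ∃ w, α w ≠ 0 := by
    by_contra h4
    push Not at h4
    exact hα (LinearMap.ext h4)
  have h4 := h0 w
  have h5 : p = ((α w)⁻¹ * (γ w * ((γ v)⁻¹ * β v) - β w)) • q := by
    have h6 : α w • p = (γ w * ((γ v)⁻¹ * β v) - β w) • q := by
      rw [sub_smul, ← smul_smul, ← hs, ← h4]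
      abel
    rw [← smul_smul, ← h6, smul_smul, inv_mul_cancel₀ hw, one_smul]
  set t := (α w)⁻¹ * (γ w * ((γ v)⁻¹ * β v) - β w) with ht
  have ht0 : t ≠ 0 := by
    intro h6
    rw [h6, zero_smul] at h5
    exact hp h5
  apply h1
  rw [Submodule.mem_span_singleton]
  exact ⟨t⁻¹, by rw [h5, smul_smul, inv_mul_cancel₀ ht0, one_smul]⟩

/-- Linear spaces of operators of rank at most one. -/
theorem rank_one_space {V W : Type*} [AddCommGroup V] [Module K V] [AddCommGroup W] [Module K W]
    (S : Submodule K V) (M : V →ₗ[K] Module.End K W)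
    (h : ∀ u ∈ S, ∃ (p : W) (α : Dual K W), M u = α.smulRight p) :
    (∃ p : W, ∀ u ∈ S, ∃ α : Dual K W, M u = α.smulRight p) ∨
    (∃ α : Dual K W, ∀ u ∈ S, ∃ p : W, M u = α.smulRight p) := by
  by_cases h0 : ∀ u ∈ S, M u = 0
  · left
    exact ⟨0, fun u hu => ⟨0, by rw [h0 u hu]; ext v; simp⟩⟩
  push Not at h0
  obtain ⟨u0, hu0, hM0⟩ := h0
  obtain ⟨p0, α0, h1⟩ := h u0 hu0
  have hp0 : p0 ≠ 0 := by
    rintro rfl
    apply hM0
    rw [h1]
    ext v
    simp
  have hα0 : α0 ≠ 0 := by
    rintro rfl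
    apply hM0
    rw [h1]
    ext v
    simp
  by_cases himg : ∀ u ∈ S, ∃ α : Dual K W, M u = α.smulRight p0
  · exact Or.inl ⟨p0, himg⟩
  push Not at himg
  obtain ⟨u1, hu1, hM1⟩ := himg
  obtain ⟨p1, α1, h2⟩ := h u1 hu1
  have hp1' : p1 ∉ Submodule.span K {p0} := by
    intro h3
    obtain ⟨c, rfl⟩ := Submodule.mem_span_singleton.1 h3
    apply hM1 (c • α1)
    rw [h2]
    ext v
    simp only [LinearMap.smulRight_apply, LinearMap.smul_apply, smul_smul, smul_eq_mul]
    rw [mul_comm]
  have hp1 : p1 ≠ 0 := by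
    rintro rfl
    exact hp1' (Submodule.zero_mem _)
  have hα1 : α1 ≠ 0 := by
    rintro rfl
    apply hM1 0
    rw [h2]
    ext v
    simp
  obtain ⟨c1, hc1⟩ : ∃ c : K, α1 = c • α0 := by
    obtain ⟨p, α, h3⟩ := h (u0 + u1) (S.add_mem hu0 hu1)
    rw [map_add, h1, h2] at h3
    exact (sum_rk h3 hp0 hα0).resolve_left hp1'
  have hc10 : c1 ≠ 0 := by
    rintro rfl
    rw [zero_smul] at hc1
    exact hα1 hc1
  right
  refine ⟨α0, fun u hu => ?_⟩
  obtain ⟨p, α, h3⟩ := h u hu
  by_cases hα : ∃ c : K, α = c • α0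
  · obtain ⟨c, rfl⟩ := hα
    refine ⟨c • p, ?_⟩
    rw [h3]
    ext v
    simp only [LinearMap.smulRight_apply, LinearMap.smul_apply, smul_smul, smul_eq_mul]
    rw [mul_comm]
  · have h4 : p ∈ Submodule.span K {p0} := by
      obtain ⟨p', α', h5⟩ := h (u0 + u) (S.add_mem hu0 hu)
      rw [map_add, h1, h3] at h5
      exact (sum_rk h5 hp0 hα0).resolve_right hα
    have h5 : p ∈ Submodule.span K {p1} := by
      obtain ⟨p', α', h5⟩ := h (u1 + u) (S.add_mem hu1 hu)
      rw [map_add, h2, h3] at h5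
      refine (sum_rk h5 hp1 hα1).resolve_right ?_
      rintro ⟨c, hc⟩
      apply hα
      exact ⟨c * c1, by rw [hc, hc1, smul_smul]⟩
    -- then `p = 0`
    obtain ⟨a, ha⟩ := Submodule.mem_span_singleton.1 h4
    obtain ⟨b, hb⟩ := Submodule.mem_span_singleton.1 h5
    have hb0 : b = 0 := by
      by_contra hb0
      apply hp1'
      rw [Submodule.mem_span_singleton]
      refine ⟨b⁻¹ * a, ?_⟩
      rw [← smul_smul, ha, ← hb, smul_smul, inv_mul_cancel₀ hb0, one_smul]
    refine ⟨0, ?_⟩
    rw [h3, ← hb, hb0, zero_smul]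
    ext v
    simp

/-- A common zero of two functionals. -/
theorem common_zero {V : Type*} [AddCommGroup V] [Module K V] [FiniteDimensional K V]
    (hV : 2 < finrank K V) (φ ψ : Dual K V) : ∃ u, u ≠ 0 ∧ φ u = 0 ∧ ψ u = 0 := by
  by_contra hcon
  push Not at hcon
  have h1 : Function.Injective (φ.prod ψ) := by
    rw [injective_iff_map_eq_zero]
    intro u hu
    by_contra h2
    exact hcon u h2 (congrArg Prod.fst hu) (congrArg Prod.snd hu)
  have h2 := LinearMap.finrank_le_finrank_of_injective h1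
  rw [Module.finrank_prod, finrank_self] at h2
  omega

/-- Pairs of operators, with all rank one nilpotent operators in the first component. -/
structure PairSL {V W G : Type*} [AddCommGroup V] [Module K V] [AddCommGroup W] [Module K W]
    [Group G] (rV : Representation K G V) (rW : Representation K G W)
    (𝔭 : Submodule K (Module.End K V × Module.End K W)) : Prop where
  br : ∀ x ∈ 𝔭, ∀ y ∈ 𝔭, (x.1 * y.1 - y.1 * x.1, x.2 * y.2 - y.2 * x.2) ∈ 𝔭
  conj : ∀ g, ∀ x ∈ 𝔭, (rV g * x.1 * rV g⁻¹, rW g * x.2 * rW g⁻¹) ∈ 𝔭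
  ker : ∀ y, ((0 : Module.End K V), y) ∈ 𝔭 → LinearMap.trace K W y = 0 → y = 0
  rk : ∀ (u : V) (φ : Dual K V), φ u = 0 → ∃ (p : W) (α : Dual K W), α p = 0 ∧
    ((φ.smulRight u : Module.End K V), (α.smulRight p : Module.End K W)) ∈ 𝔭
  inj : ∀ (u : V) (φ : Dual K V), u ≠ 0 → φ ≠ 0 → φ u = 0 →
    ((φ.smulRight u : Module.End K V), (0 : Module.End K W)) ∉ 𝔭
  dim : 2 < finrank K V

section pair

variable {V W G : Type*} [AddCommGroup V] [Module K V] [FiniteDimensional K V] [AddCommGroup W]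
  [Module K W] [FiniteDimensional K W] [Group G] {rV : Representation K G V}
  {rW : Representation K G W} {𝔭 : Submodule K (Module.End K V × Module.End K W)}
  (hp : PairSL rV rW 𝔭)

include hp in
theorem pair_unique {x x' : Module.End K V × Module.End K W} (h : x ∈ 𝔭) (h' : x' ∈ 𝔭)
    (h1 : x.1 = x'.1) (ht : LinearMap.trace K W x.2 = 0) (ht' : LinearMap.trace K W x'.2 = 0) :
    x.2 = x'.2 := by
  have h2 := 𝔭.sub_mem h h'
  have h3 : x - x' = ((0 : Module.End K V), x.2 - x'.2) := by
    ext1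
    · change x.1 - x'.1 = 0
      rw [h1, sub_self]
    · rfl
  rw [h3] at h2
  exact sub_eq_zero.1 (hp.ker _ h2 (by rw [map_sub, ht, ht', sub_self]))

include hp in
theorem pair_zyz {e : V} {φ : Dual K V} {p : W} {β : Dual K W} (hφ : φ e = 0) (hβ : β p = 0)
    (hZ : ((φ.smulRight e : Module.End K V), (β.smulRight p : Module.End K W)) ∈ 𝔭)
    {y : Module.End K V × Module.End K W} (hy : y ∈ 𝔭) :
    (β.smulRight p * y.2 * β.smulRight p : Module.End K W) = φ (y.1 e) • β.smulRight p := by
  have h1 := hp.br _ hZ _ (hp.br _ hZ _ hy)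
  have h2 := 𝔭.add_mem h1 (𝔭.smul_mem ((2 : K) * φ (y.1 e)) hZ)
  have h3 := rk_mul p β hβ
  have h4 := pair_unique hp h2 𝔭.zero_mem (by
    ext v
    simp only [Prod.fst_add, Prod.smul_fst, LinearMap.add_apply, LinearMap.sub_apply,
      Module.End.mul_apply, LinearMap.smulRight_apply, map_sub, map_smul, hφ,
      LinearMap.smul_apply, LinearMap.zero_apply, Prod.fst_zero]
    module) (by
    simp only [Prod.snd_add, Prod.smul_snd, map_add, map_smul, trace_rk, hβ, smul_zero, add_zero]
    rw [map_sub, LinearMap.trace_mul_comm, sub_self]) (by simp)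
  simp only [Prod.snd_add, Prod.smul_snd, Prod.snd_zero] at h4
  have h5 : (2 : K) • (β.smulRight p * y.2 * β.smulRight p : Module.End K W) =
      (2 : K) • (φ (y.1 e) • β.smulRight p) := by
    rw [mul_sub, sub_mul, ← mul_assoc (β.smulRight p : Module.End K W) (β.smulRight p), h3,
      zero_mul, mul_assoc y.2, h3, mul_zero, ← mul_assoc (β.smulRight p : Module.End K W)] at h4
    rw [← sub_eq_zero, ← neg_eq_zero, ← h4]
    module
  have h8 := congrArg (fun f => (2 : K)⁻¹ • f) h5
  rw [smul_smul, inv_mul_cancel₀ (two_ne_zero : (2 : K) ≠ 0), one_smul] at h8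
  rw [h8, smul_smul, inv_mul_cancel₀ (two_ne_zero : (2 : K) ≠ 0), one_smul]

include hp in
/-- The second component as a linear function of the first. -/
theorem exists_theta : ∃ θ : Module.End K V →ₗ[K] Module.End K W,
    ∀ x ∈ 𝔭, LinearMap.trace K W x.2 = 0 → θ x.1 = x.2 := by
  let 𝔭₀ : Submodule K (Module.End K V × Module.End K W) :=
    { carrier := {x | x ∈ 𝔭 ∧ LinearMap.trace K W x.2 = 0}
      zero_mem' := ⟨𝔭.zero_mem, by simp⟩
      add_mem' := by
        rintro x y ⟨h1, h2⟩ ⟨h3, h4⟩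
        exact ⟨𝔭.add_mem h1 h3, by rw [Prod.snd_add, map_add, h2, h4, add_zero]⟩
      smul_mem' := by
        rintro c x ⟨h1, h2⟩
        exact ⟨𝔭.smul_mem _ h1, by rw [Prod.smul_snd, map_smul, h2, smul_zero]⟩ }
  let A : 𝔭₀ →ₗ[K] Module.End K V := (LinearMap.fst K _ _).comp 𝔭₀.subtype
  let B : 𝔭₀ →ₗ[K] Module.End K W := (LinearMap.snd K _ _).comp 𝔭₀.subtype
  have hA : LinearMap.ker A = ⊥ := by
    rw [LinearMap.ker_eq_bot']
    rintro ⟨⟨x, y⟩, hxy, hy⟩ h
    have h1 : x = 0 := h
    subst h1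
    have h2 := hp.ker y hxy hy
    subst h2
    rfl
  obtain ⟨s, hs⟩ := A.exists_leftInverse_of_injective hA
  refine ⟨B.comp s, fun x hx hx2 => ?_⟩
  have h1 := congrArg (fun f => f (⟨x, hx, hx2⟩ : 𝔭₀)) hs
  change s x.1 = ⟨x, hx, hx2⟩ at h1
  change B (s x.1) = x.2
  rw [h1]
  rfl

theorem ne_of_notMem {u : V} {φ : Dual K V} {p : W} {α : Dual K W}
    (h : ((φ.smulRight u : Module.End K V), (α.smulRight p : Module.End K W)) ∈ 𝔭)
    (h' : ((φ.smulRight u : Module.End K V), (0 : Module.End K W)) ∉ 𝔭) : p ≠ 0 ∧ α ≠ 0 := by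
  constructor
  · rintro rfl
    apply h'
    convert h using 2
    ext v
    simp
  · rintro rfl
    apply h'
    convert h using 2
    ext v
    simp

theorem exists_one {α : Dual K W} (h : α ≠ 0) : ∃ v, α v = 1 := by
  obtain ⟨v, hv⟩ : ∃ w, α w ≠ 0 := by
    by_contra h4
    push Not at h4
    exact h (LinearMap.ext h4)
  exact ⟨(α v)⁻¹ • v, by rw [map_smul, smul_eq_mul, inv_mul_cancel₀ hv]⟩

include hp in
/-- The core: the case of a common functional. -/
theorem sl_core {e : V} {φ₁ : Dual K V} (he : φ₁ e = 1) {α₀ : Dual K W}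
    (hM : ∀ u, φ₁ u = 0 → ∃ p, α₀ p = 0 ∧ ((φ₁.smulRight u : Module.End K V),
      (α₀.smulRight p : Module.End K W)) ∈ 𝔭) :
    ∃ (T : V →ₗ[K] W) (ψ : G → K), T ≠ 0 ∧ ∀ g u, T (rV g u) = ψ g • rW g (T u) := by
  classical
  have hφ₁ : φ₁ ≠ 0 := by
    rintro rfl
    exact zero_ne_one he
  have he0 : e ≠ 0 := by
    rintro rfl
    rw [map_zero] at he
    exact zero_ne_one he
  have hspan : ∀ v, v ∈ Submodule.span K {e} → φ₁ v = 0 → v = 0 := by
    intro v hv h
    obtain ⟨a, rfl⟩ := Submodule.mem_span_singleton.1 hv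
    rw [map_smul, he, smul_eq_mul, mul_one] at h
    rw [h, zero_smul]
  obtain ⟨θ, hθ⟩ := exists_theta hp
  -- a nonzero vector in the kernel of `φ₁`
  obtain ⟨u₀, hu₀, hu₀1, -⟩ := common_zero hp.dim φ₁ 0
  have hα₀ : α₀ ≠ 0 := by
    obtain ⟨p, _, hp'⟩ := hM u₀ hu₀1
    exact (ne_of_notMem hp' (hp.inj u₀ φ₁ hu₀ hφ₁ hu₀1)).2
  obtain ⟨v₀, hv₀⟩ := exists_one hα₀
  let T₀ : V →ₗ[K] W :=
    { toFun := fun u => θ (φ₁.smulRight u) v₀
      map_add' := by
        intro u v
        have h1 : (φ₁.smulRight (u + v) : Module.End K V) = φ₁.smulRight u + φ₁.smulRight v := by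
          ext w
          simp only [LinearMap.smulRight_apply, LinearMap.add_apply, smul_add]
        rw [h1, map_add, LinearMap.add_apply]
      map_smul' := by
        intro c u
        have h1 : (φ₁.smulRight (c • u) : Module.End K V) = c • φ₁.smulRight u := by
          ext w
          simp only [LinearMap.smulRight_apply, LinearMap.smul_apply]
          rw [smul_comm]
        rw [h1, map_smul, LinearMap.smul_apply, RingHom.id_apply] }
  have hT₀ : ∀ u, φ₁ u = 0 → α₀ (T₀ u) = 0 ∧ ((φ₁.smulRight u : Module.End K V),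
      (α₀.smulRight (T₀ u) : Module.End K W)) ∈ 𝔭 := by
    intro u hu
    obtain ⟨p, h1, h2⟩ := hM u hu
    have h3 := hθ _ h2 (by rw [trace_rk, h1])
    have h4 : T₀ u = p := by
      change θ (φ₁.smulRight u) v₀ = p
      rw [h3, LinearMap.smulRight_apply, hv₀, one_smul]
    rw [h4]
    exact ⟨h1, h2⟩
  -- the other space
  let S : Submodule K (Dual K V) :=
    { carrier := {l | l e = 0}
      zero_mem' := rfl
      add_mem' := by
        intro a b ha hb
        change (a + b) e = 0
        rw [LinearMap.add_apply, show a e = 0 from ha, show b e = 0 from hb, add_zero]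
      smul_mem' := by
        intro c a ha
        change (c • a) e = 0
        rw [LinearMap.smul_apply, show a e = 0 from ha, smul_zero] }
  let L : Dual K V →ₗ[K] Module.End K W :=
    { toFun := fun l => θ (l.smulRight e)
      map_add' := by
        intro a b
        have h1 : ((a + b).smulRight e : Module.End K V) = a.smulRight e + b.smulRight e := by
          ext w
          simp only [LinearMap.smulRight_apply, LinearMap.add_apply, add_smul]
        rw [h1, map_add]
      map_smul' := by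
        intro c a
        have h1 : ((c • a).smulRight e : Module.End K V) = c • a.smulRight e := by
          ext w
          simp only [LinearMap.smulRight_apply, LinearMap.smul_apply, smul_eq_mul, smul_smul]
        rw [h1, map_smul, RingHom.id_apply] }
  have hL : ∀ l ∈ S, ∃ (p : W) (α : Dual K W), L l = α.smulRight p := by
    intro l hl
    obtain ⟨p, α, h1, h2⟩ := hp.rk e l hl
    exact ⟨p, α, hθ _ h2 (by rw [trace_rk, h1])⟩
  have hLmem : ∀ l ∈ S, ((l.smulRight e : Module.End K V), L l) ∈ 𝔭 ∧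
      LinearMap.trace K W (L l) = 0 := by
    intro l hl
    obtain ⟨p, α, h1, h2⟩ := hp.rk e l hl
    have h3 := hθ _ h2 (by rw [trace_rk, h1])
    change ((l.smulRight e : Module.End K V), θ (l.smulRight e)) ∈ 𝔭 ∧ _
    refine ⟨?_, ?_⟩
    · rw [h3]
      exact h2
    · change LinearMap.trace K W (θ (l.smulRight e)) = 0
      rw [h3, trace_rk, h1]
  -- a functional that vanishes at `e` and not at a given vector of the kernel of `φ₁`
  have hsep : ∀ u, u ≠ 0 → φ₁ u = 0 → ∃ l ∈ S, l u ≠ 0 := by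
    intro u hu hu1
    obtain ⟨l, h1, h2⟩ := exists_sep (K := K) (u := e) (v := u) (fun h => hu (hspan u h hu1))
    exact ⟨l, h1, h2⟩
  rcases rank_one_space S L hL with ⟨p₀, hp₀⟩ | ⟨β, hβ⟩
  swap
  · -- impossible
    exfalso
    obtain ⟨u, hu0, hu1, hu2⟩ := common_zero hp.dim φ₁ (β.comp T₀)
    obtain ⟨l, hlS, hl⟩ := hsep u hu0 hu1
    obtain ⟨q, hq⟩ := hβ l hlS
    obtain ⟨h1, h2⟩ := hLmem l hlS
    rw [hq] at h1 h2
    rw [trace_rk] at h2
    have h3 := pair_zyz hp hlS h2 h1 (hT₀ u hu1).2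
    have hl0 : l ≠ 0 := by
      rintro rfl
      exact hl rfl
    obtain ⟨hq0, hβ0⟩ := ne_of_notMem h1 (hp.inj e l he0 hl0 hlS)
    obtain ⟨v, hv⟩ := exists_one hβ0
    have h4 := congrArg (fun f : Module.End K W => f v) h3
    simp only [Module.End.mul_apply, LinearMap.smulRight_apply, map_smul, hv, one_smul,
      LinearMap.smul_apply, he] at h4
    have h5 : β (T₀ u) = 0 := hu2
    rw [h5, zero_smul, smul_zero] at h4
    exact (smul_ne_zero hl hq0) h4.symm
  · obtain ⟨l₀, hl₀S, hl₀⟩ := hsep u₀ hu₀ hu₀1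
    have hl₀0 : l₀ ≠ 0 := by
      rintro rfl
      exact hl₀ rfl
    have hp₀0 : p₀ ≠ 0 := by
      obtain ⟨α, hα⟩ := hp₀ l₀ hl₀S
      have h1 := (hLmem l₀ hl₀S).1
      rw [hα] at h1
      exact (ne_of_notMem h1 (hp.inj e l₀ he0 hl₀0 hl₀S)).1
    obtain ⟨η, hη⟩ : ∃ η : Dual K W, η p₀ = 1 := by
      obtain ⟨η, -, hη⟩ := exists_sep (K := K) (u := (0 : W)) (v := p₀) (by
        rw [Submodule.span_zero_singleton, Submodule.mem_bot]
        exact hp₀0)
      exact ⟨(η p₀)⁻¹ • η, by rw [LinearMap.smul_apply, smul_eq_mul, inv_mul_cancel₀ hη]⟩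
    let S₀ : Dual K V → Dual K W := fun l => η.comp (L l)
    have hS₀ : ∀ l ∈ S, S₀ l p₀ = 0 ∧ ((l.smulRight e : Module.End K V),
        ((S₀ l).smulRight p₀ : Module.End K W)) ∈ 𝔭 := by
      intro l hl
      obtain ⟨α, hα⟩ := hp₀ l hl
      obtain ⟨h1, h2⟩ := hLmem l hl
      have h3 : S₀ l = α := by
        ext v
        change η (L l v) = α v
        rw [hα, LinearMap.smulRight_apply, map_smul, hη, smul_eq_mul, mul_one]
      rw [h3]
      rw [hα] at h1 h2
      rw [trace_rk] at h2
      exact ⟨h2, h1⟩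
    have hS₀0 : ∀ l ∈ S, l ≠ 0 → S₀ l ≠ 0 := fun l hl hl0 =>
      (ne_of_notMem (hS₀ l hl).2 (hp.inj e l he0 hl0 hl)).2
    set c := α₀ p₀ with hc
    have hrel : ∀ l ∈ S, ∀ u, φ₁ u = 0 → c * S₀ l (T₀ u) = l u := by
      intro l hl u hu
      by_cases hl0 : l = 0
      · subst hl0
        have h1 : L 0 = 0 := map_zero L
        change c * η (L 0 (T₀ u)) = 0
        rw [h1, LinearMap.zero_apply, map_zero, mul_zero]
      · obtain ⟨v, hv⟩ := exists_one (hS₀0 l hl hl0)
        have h3 := pair_zyz hp hl (hS₀ l hl).1 (hS₀ l hl).2 (hT₀ u hu).2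
        have h4 := congrArg (fun f : Module.End K W => f v) h3
        simp only [Module.End.mul_apply, LinearMap.smulRight_apply, map_smul, hv, one_smul,
          LinearMap.smul_apply, he, smul_smul] at h4
        have h5 := smul_left_injective K hp₀0 h4
        rw [hc]
        exact h5
    have hc0 : c ≠ 0 := by
      intro h
      have h1 := hrel l₀ hl₀S u₀ hu₀1
      rw [h, zero_mul] at h1
      exact hl₀ h1.symm
    -- the map `T`
    let T : V →ₗ[K] W := T₀.comp (LinearMap.id - φ₁.smulRight e) + (c⁻¹ • φ₁).smulRight p₀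
    have hTv : ∀ v, T v = T₀ (v - φ₁ v • e) + (c⁻¹ * φ₁ v) • p₀ := fun v => rfl
    have hker : ∀ v, φ₁ (v - φ₁ v • e) = 0 := by
      intro v
      rw [map_sub, map_smul, he, smul_eq_mul, mul_one, sub_self]
    have hf1 : ∀ v, α₀ (T v) = φ₁ v := by
      intro v
      rw [hTv, map_add, (hT₀ _ (hker v)).1, map_smul, smul_eq_mul, zero_add, ← hc]
      field_simp
    have hf2 : ∀ l ∈ S, ∀ v, S₀ l (T v) = c⁻¹ * l v := by
      intro l hl v
      rw [hTv, map_add, map_smul, (hS₀ l hl).1, smul_zero, add_zero]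
      have h1 := hrel l hl _ (hker v)
      have h0 : l (v - φ₁ v • e) = l v := by
        rw [map_sub, map_smul, show l e = 0 from hl, smul_zero, sub_zero]
      rw [h0] at h1
      rw [← h1]
      field_simp
    have hT1 : ∀ u, φ₁ u = 0 → T u = T₀ u := by
      intro u hu
      rw [hTv, hu, zero_smul, sub_zero, mul_zero, zero_smul, add_zero]
    have hTe : T e = c⁻¹ • p₀ := by
      rw [hTv, he, one_smul, sub_self, map_zero, zero_add, mul_one]
    -- the intertwining pairs
    have i1 : ∀ x y : Module.End K V × Module.End K W, (∀ v, x.2 (T v) = T (x.1 v)) →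
        (∀ v, y.2 (T v) = T (y.1 v)) → ∀ v, ((x.1 * y.1 - y.1 * x.1, x.2 * y.2 - y.2 * x.2) :
          Module.End K V × Module.End K W).2 (T v) =
          T (((x.1 * y.1 - y.1 * x.1, x.2 * y.2 - y.2 * x.2) :
          Module.End K V × Module.End K W).1 v) := by
      intro x y hx hy v
      change x.2 (y.2 (T v)) - y.2 (x.2 (T v)) = T (x.1 (y.1 v) - y.1 (x.1 v))
      rw [hy, hx, hx, hy, map_sub]
    have i2 : ∀ x y : Module.End K V × Module.End K W, (∀ v, x.2 (T v) = T (x.1 v)) →
        (∀ v, y.2 (T v) = T (y.1 v)) → ∀ v, (x + y).2 (T v) = T ((x + y).1 v) := by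
      intro x y hx hy v
      change x.2 (T v) + y.2 (T v) = T (x.1 v + y.1 v)
      rw [hy, hx, map_add]
    have i3 : ∀ (a : K) (x : Module.End K V × Module.End K W), (∀ v, x.2 (T v) = T (x.1 v)) →
        ∀ v, (a • x).2 (T v) = T ((a • x).1 v) := by
      intro a x hx v
      change a • x.2 (T v) = T (a • x.1 v)
      rw [hx, map_smul]
    have hall : ∀ w (l : Dual K V), l w = 0 → ∃ x ∈ 𝔭, x.1 = l.smulRight w ∧
        LinearMap.trace K W x.2 = 0 ∧ ∀ v, x.2 (T v) = T (x.1 v) := by
      intro w l hlw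
      set t := φ₁ w with ht
      set s := l e with hs
      have h1 : φ₁ (w - t • e) = 0 := hker w
      have h2 : (l - s • φ₁) ∈ S := by
        change (l - s • φ₁) e = 0
        rw [LinearMap.sub_apply, LinearMap.smul_apply, he, smul_eq_mul, mul_one, sub_self]
      obtain ⟨h3, h4⟩ := hT₀ _ h1
      obtain ⟨h5, h6⟩ := hS₀ _ h2
      refine ⟨_, 𝔭.add_mem (𝔭.add_mem (hp.br _ h4 _ h6) (𝔭.smul_mem s h4)) (𝔭.smul_mem t h6),
        ?_, ?_, ?_⟩
      · ext v
        simp only [Prod.fst_add, Prod.smul_fst, LinearMap.add_apply, LinearMap.sub_apply,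
          LinearMap.smul_apply, Module.End.mul_apply, LinearMap.smulRight_apply, map_sub,
          map_smul, smul_eq_mul, he, hlw, ← ht, ← hs]
        module
      · simp only [Prod.snd_add, Prod.smul_snd, map_add, map_smul, trace_rk, h3, h5, smul_zero,
          add_zero]
        rw [map_sub, LinearMap.trace_mul_comm, sub_self]
      · have k1 : ∀ v, (α₀.smulRight (T₀ (w - t • e)) : Module.End K W) (T v) =
            T ((φ₁.smulRight (w - t • e) : Module.End K V) v) := by
          intro v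
          rw [LinearMap.smulRight_apply, LinearMap.smulRight_apply, map_smul, hf1, hT1 _ h1]
        have k2 : ∀ v, ((S₀ (l - s • φ₁)).smulRight p₀ : Module.End K W) (T v) =
            T (((l - s • φ₁).smulRight e : Module.End K V) v) := by
          intro v
          rw [LinearMap.smulRight_apply, LinearMap.smulRight_apply, map_smul, hf2 _ h2, hTe,
            smul_smul]
          congr 1
          ring
        exact i2 _ _ (i2 _ _ (i1 _ _ k1 k2) (i3 _ _ k1)) (i3 _ _ k2)
    have hTinj : Function.Injective T := by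
      rw [injective_iff_map_eq_zero]
      intro v hv
      by_contra hv0
      have h1 := hf1 v
      rw [hv, map_zero] at h1
      obtain ⟨l, hl, hlv⟩ := hsep v hv0 h1.symm
      have h2 := hf2 l hl v
      rw [hv, map_zero] at h2
      exact (mul_ne_zero (inv_ne_zero hc0) hlv) h2.symm
    obtain ⟨ψ, hψ⟩ := twist_of_pointwise rV rW T hTinj (by
      intro g w
      by_cases hw : w = 0
      · exact ⟨0, by rw [hw, map_zero, map_zero, map_zero, smul_zero]⟩
      obtain ⟨l, hl0, hlw⟩ : ∃ l : Dual K V, l ≠ 0 ∧ l w = 0 := by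
        obtain ⟨x, hx⟩ : ∃ x, x ∉ Submodule.span K {w} := by
          by_contra h
          push Not at h
          have h1 : (⊤ : Submodule K V) ≤ Submodule.span K {w} := fun x _ => h x
          have h2 := Submodule.finrank_mono h1
          rw [finrank_top, finrank_span_singleton hw] at h2
          have h3 := hp.dim
          omega
        obtain ⟨l, h1, h2⟩ := exists_sep hx
        refine ⟨l, ?_, h1⟩
        rintro rfl
        exact h2 rfl
      obtain ⟨v₁, hv₁⟩ := exists_one hl0
      obtain ⟨x, hx, hx1, hx2, hx3⟩ := hall w l hlw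
      obtain ⟨x', hx', hx1', hx2', hx3'⟩ := hall (rV g w) (l.comp (rV g⁻¹)) (by
        rw [LinearMap.comp_apply, r_inv, hlw])
      have h1 := pair_unique hp hx' (hp.conj g x hx) (by
        rw [hx1', hx1]
        exact (conj_one rV g w l).symm) hx2' (by
        change LinearMap.trace K W (rW g * x.2 * rW g⁻¹) = 0
        rw [mul_assoc, LinearMap.trace_mul_comm, mul_assoc, ← map_mul, inv_mul_cancel, map_one,
          mul_one, hx2])
      have h1' : x'.2 = rW g * x.2 * rW g⁻¹ := h1
      obtain ⟨q, α, hα, hq⟩ := hp.rk w l hlw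
      have h2 := pair_unique hp hx hq hx1 hx2 (by rw [trace_rk, hα])
      have h2' : x.2 = α.smulRight q := h2
      -- the two values
      have h3 : T w = α (T v₁) • q := by
        have h4 := hx3 v₁
        rw [hx1, LinearMap.smulRight_apply, hv₁, one_smul, h2', LinearMap.smulRight_apply] at h4
        exact h4.symm
      have h5 : T (rV g w) = α (rW g⁻¹ (T (rV g v₁))) • rW g q := by
        have h4 := hx3' (rV g v₁)
        rw [hx1', LinearMap.smulRight_apply, LinearMap.comp_apply, r_inv, hv₁, one_smul, h1',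
          h2', Module.End.mul_apply, Module.End.mul_apply, LinearMap.smulRight_apply,
          map_smul] at h4
        exact h4.symm
      have h6 : α (T v₁) ≠ 0 := by
        intro h7
        rw [h7, zero_smul] at h3
        exact hw (hTinj (by rw [h3, map_zero]))
      refine ⟨α (rW g⁻¹ (T (rV g v₁))) / α (T v₁), ?_⟩
      rw [h5, h3, map_smul, smul_smul, div_mul_cancel₀ _ h6])
    refine ⟨T, ψ, ?_, hψ⟩
    intro h
    exact he0 (hTinj (by rw [h]; simp))

end pair

end

end Pool.Agent.W522.T
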