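import Mathlib
import Pool.Agent.W522.T.A5
import Pool.Agent.W522.U.B6

/-!
# The Lie algebra of the Tate forms on a direct sum
-/

set_option linter.unusedSectionVars false

namespace Pool.Agent.W522.T

open Module Pool.Agent.H204R3.SP Pool.Agent.H204R3.GP Pool.Agent.W522.U

noncomputable section

section area

variable {K V : Type*} [Field K] [AddCommGroup V] [Module K V] [FiniteDimensional K V]

/-- The area form of a plane. -/
theorem exists_area (h : finrank K V = 2) : ∃ β : V →ₗ[K] Dual K V, (∀ u, β u u = 0) ∧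
    Function.Injective β ∧ (∀ (f : Module.End K V) u v, β (f u) (f v) = LinearMap.det f * β u v) ∧
    (∀ (f : Module.End K V) u v, β (f u) v + β u (f v) = LinearMap.trace K V f * β u v) ∧
    ∀ u (φ : Dual K V), u ≠ 0 → φ u = 0 → ∃ c : K, φ = c • β u := by
  let b : Basis (Fin 2) K V := Module.finBasisOfFinrankEq K V h
  let β : V →ₗ[K] Dual K V := LinearMap.mk₂ K
    (fun u v => b.coord 0 u * b.coord 1 v - b.coord 1 u * b.coord 0 v)
    (fun u u' v => by simp only [map_add]; ring)
    (fun c u v => by simp only [map_smul, smul_eq_mul]; ring)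
    (fun u v v' => by simp only [map_add]; ring)
    (fun c u v => by simp only [map_smul, smul_eq_mul]; ring)
  have hβ : ∀ u v, β u v = b.coord 0 u * b.coord 1 v - b.coord 1 u * b.coord 0 v :=
    fun _ _ => rfl
  have hβd : ∀ u v, β u v = b.det ![u, v] := by
    intro u v
    rw [hβ, b.det_apply, Matrix.det_fin_two]
    simp only [Basis.toMatrix_apply, Matrix.cons_val_zero, Matrix.cons_val_one, Basis.coord_apply]
    ring
  have hexp : ∀ u, u = b.coord 0 u • b 0 + b.coord 1 u • b 1 := by
    intro u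
    conv_lhs => rw [← b.sum_repr u]
    rw [Fin.sum_univ_two]
    rfl
  have hlin : ∀ (f : Module.End K V) (k : Fin 2) u, b.coord k (f u) =
      b.coord 0 u * b.coord k (f (b 0)) + b.coord 1 u * b.coord k (f (b 1)) := by
    intro f k u
    conv_lhs => rw [hexp u]
    rw [map_add, map_add, map_smul, map_smul, map_smul, map_smul, smul_eq_mul, smul_eq_mul]
  have hlinφ : ∀ (φ : Dual K V) u, φ u = b.coord 0 u * φ (b 0) + b.coord 1 u * φ (b 1) := by
    intro φ u
    conv_lhs => rw [hexp u]
    rw [map_add, map_smul, map_smul, smul_eq_mul, smul_eq_mul]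
  have hc : b.coord 0 (b 0) = 1 ∧ b.coord 1 (b 1) = 1 ∧ b.coord 0 (b 1) = 0 ∧
      b.coord 1 (b 0) = 0 := by
    simp [Basis.coord_apply]
  refine ⟨β, fun u => ?_, ?_, fun f u v => ?_, fun f u v => ?_, fun u φ hu hφ => ?_⟩
  · rw [hβ]
    ring
  · rw [injective_iff_map_eq_zero]
    intro u hu
    have h1 := congrArg (fun f : Dual K V => f (b 0)) hu
    have h2 := congrArg (fun f : Dual K V => f (b 1)) hu
    simp only [hβ, hc.1, hc.2.1, hc.2.2.1, hc.2.2.2, LinearMap.zero_apply, mul_one, mul_zero,
      sub_zero, zero_sub, neg_eq_zero] at h1 h2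
    rw [hexp u, h1, h2, zero_smul, zero_smul, add_zero]
  · rw [hβd, hβd]
    have h1 := Basis.det_comp b f ![u, v]
    rw [← h1]
    congr 1
    funext k
    fin_cases k <;> rfl
  · have htr : LinearMap.trace K V f = b.coord 0 (f (b 0)) + b.coord 1 (f (b 1)) := by
      rw [LinearMap.trace_eq_matrix_trace K b, Matrix.trace_fin_two, LinearMap.toMatrix_apply,
        LinearMap.toMatrix_apply]
      rfl
    rw [htr, hβ, hβ, hβ, hlin f 0 u, hlin f 1 u, hlin f 0 v, hlin f 1 v]
    ring
  · have h1 := hlinφ φ u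
    rw [hφ] at h1
    by_cases h0 : b.coord 0 u = 0
    · have h2 : b.coord 1 u ≠ 0 := by
        intro h3
        apply hu
        rw [hexp u, h0, h3, zero_smul, zero_smul, add_zero]
      have h3 : φ (b 1) = 0 := by
        rw [h0, zero_mul, zero_add] at h1
        exact (mul_eq_zero.1 h1.symm).resolve_left h2
      refine ⟨-(φ (b 0) / b.coord 1 u), ?_⟩
      ext v
      rw [LinearMap.smul_apply, hβ, hlinφ φ v, h3, h0, smul_eq_mul]
      field_simp
      ring
    · refine ⟨φ (b 1) / b.coord 0 u, ?_⟩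
      ext v
      rw [LinearMap.smul_apply, hβ, hlinφ φ v, smul_eq_mul]
      field_simp
      linear_combination (-(b.coord 0 v)) * h1

end area

variable {K : Type*} [Field K] [CharZero K]
  {I : Type*} [Fintype I] [DecidableEq I] {E : I → Type*} [∀ i, AddCommGroup (E i)]
  [∀ i, Module K (E i)] [∀ i, FiniteDimensional K (E i)] {G : Type*} [Group G]
  (r : ∀ i, Representation K G (E i)) (χ : G →* K)

/-- The families of trace zero. -/
def h0 : Submodule K (∀ i, Module.End K (E i)) where
  carrier := {X | X ∈ hh r χ ∧ ∀ i, LinearMap.trace K (E i) (X i) = 0}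
  add_mem' := by
    rintro X Y ⟨h1, h2⟩ ⟨h3, h4⟩
    refine ⟨Submodule.add_mem _ h1 h3, fun i => ?_⟩
    rw [Pi.add_apply, map_add, h2, h4, add_zero]
  zero_mem' := ⟨Submodule.zero_mem _, fun i => by rw [Pi.zero_apply, map_zero]⟩
  smul_mem' := by
    rintro c X ⟨h1, h2⟩
    refine ⟨Submodule.smul_mem _ _ h1, fun i => ?_⟩
    rw [Pi.smul_apply, map_smul, h2, smul_zero]

theorem brk_tr (X Y : ∀ i, Module.End K (E i)) (i : I) :
    LinearMap.trace K (E i) (brk X Y i) = 0 := by
  change LinearMap.trace K (E i) (X i * Y i - Y i * X i) = 0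
  rw [map_sub, LinearMap.trace_mul_comm, sub_self]

theorem brk_mem_h0 {X Y : ∀ i, Module.End K (E i)} (hX : X ∈ hh r χ) (hY : Y ∈ hh r χ) :
    brk X Y ∈ h0 r χ := ⟨(U.lieFam_hh r χ).br X hX Y hY, brk_tr X Y⟩

theorem lieFam_h0 : LieFam r (h0 r χ) where
  br := fun X hX Y hY => brk_mem_h0 r χ hX.1 hY.1
  conj := by
    rintro g X ⟨hX, htr⟩
    refine ⟨(U.lieFam_hh r χ).conj g X hX, fun i => ?_⟩
    change LinearMap.trace K (E i) (r i g * X i * r i g⁻¹) = 0
    rw [LinearMap.trace_mul_comm, ← mul_assoc, ← map_mul, inv_mul_cancel, map_one, one_mul, htr]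

variable {r χ} (ω : (∀ i, E i) →ₗ[K] (∀ i, E i) →ₗ[K] K) (halt : ∀ u, ω u u = 0)
  (hnd : ∀ u, (∀ w, ω u w = 0) → u = 0)
  (hωρ : ∀ g u v, ω (piRep r g u) (piRep r g v) = χ g * ω u v)
  (st : I → I) (hst : ∀ i, st (st i) = i)
  (hor : ∀ i j, j ≠ st i → ∀ (u : E i) (v : E j), ω (Pi.single i u) (Pi.single j v) = 0)
  (htw : ∀ i j, i ≠ j → 2 ≤ finrank K (E i) → 2 ≤ finrank K (E j) →
    (j = st i → 2 < finrank K (E i)) →
    ∀ (T : E i →ₗ[K] E j) (ψ : G → K), (∀ g u, T (r i g u) = ψ g • r j g (T u)) → T = 0)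

include hnd hor hst hωρ htw in
/-- No twisted homomorphisms to the dual. -/
theorem no_dual (i j : I) (hij : i ≠ st j) (hi : 2 ≤ finrank K (E i)) (hj : 2 ≤ finrank K (E j))
    (h2 : i = j → 2 < finrank K (E i))
    (T : E i →ₗ[K] Dual K (E j)) (ψ : G → K)
    (hT : ∀ g u v, T (r i g u) (r j g v) = ψ g * T u v) : T = 0 := by
  have hbij := par_bij ω hnd st hst hor (st j) j (hst j).symm
  let B : E (st j) ≃ₗ[K] Dual K (E j) := LinearEquiv.ofBijective _ hbij
  have hB : ∀ w, B w = par ω (st j) j w := fun _ => rfl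
  let T' : E i →ₗ[K] E (st j) := B.symm.toLinearMap.comp T
  have hBT : ∀ u, B (T' u) = T u := fun u => B.apply_symm_apply _
  have h1 := htw i (st j) hij hi (by rw [finrank_st ω hnd st hst hor]; exact hj)
    (fun h => h2 (by rw [← hst i, ← h, hst])) T'
    (fun g => ψ g * (χ g)⁻¹) (by
    intro g u
    apply B.injective
    rw [hBT, map_smul]
    ext v
    rw [LinearMap.smul_apply, hB, smul_eq_mul]
    have h2 := hT g u (r j g⁻¹ v)
    rw [r_inv'] at h2
    rw [h2]
    have h3 := par_sim ω hωρ (st j) j g (T' u) (r j g⁻¹ v)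
    rw [r_inv'] at h3
    rw [h3, ← hB, hBT]
    have := chi_ne (χ := χ) g
    field_simp)
  have h2 : T = B.toLinearMap.comp T' := by
    ext1 u
    exact (hBT u).symm
  rw [h2, h1, LinearMap.comp_zero]

/-- The components with a symplectic form. -/
def sdd (E : I → Type*) [∀ i, AddCommGroup (E i)] [∀ i, Module K (E i)] (st : I → I) (i : I) :
    Prop := st i = i ∨ finrank K (E i) = 2

/-- The symplectic forms of the components. -/
def om (i : I) : E i →ₗ[K] Dual K (E i) := by
  classical
  exact if st i = i then par ω i i else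
    (if h : finrank K (E i) = 2 then (exists_area h).choose else 0)

theorem om_self {i : I} (hi : st i = i) : om ω st i = par ω i i := by
  unfold om
  rw [if_pos hi]

theorem om_two {i : I} (hi : st i ≠ i) (h : finrank K (E i) = 2) :
    om ω st i = (exists_area h).choose := by
  unfold om
  rw [if_neg hi, dif_pos h]

/-- The characters of the forms of the components. -/
def chd (r : ∀ i, Representation K G (E i)) (χ : G →* K) (st : I → I) (i : I) (g : G) : K := by
  classical
  exact if st i = i then χ g else LinearMap.det (r i g)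

variable (hirr : ∀ i, 2 ≤ finrank K (E i) → Irr (r i))
  (hnil : ∀ i, 2 ≤ finrank K (E i) → ∃ X ∈ h0 r χ,
    ∃ (u : E i) (φ : Dual K (E i)), u ≠ 0 ∧ φ ≠ 0 ∧ φ u = 0 ∧ X i = φ.smulRight u)

include halt hnd hωρ hst hor htw hirr hnil in
theorem types_h0 : Types r (h0 r χ) (fun i => 2 ≤ finrank K (E i)) (sdd (K := K) E st)
    (fun i => om ω st i) (chd r χ st) where
  irr := hirr
  alt := by
    rintro i hi u
    by_cases h : st i = i
    · rw [om_self ω st h]
      exact halt _
    · rw [om_two ω st h (hi.resolve_left h)]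
      exact (exists_area (hi.resolve_left h)).choose_spec.1 u
  inj := by
    rintro i hi
    by_cases h : st i = i
    · rw [om_self ω st h]
      exact par_inj ω hnd st hor i i h.symm
    · rw [om_two ω st h (hi.resolve_left h)]
      exact (exists_area (hi.resolve_left h)).choose_spec.2.1
  sim := by
    rintro i hi g u v
    unfold chd
    by_cases h : st i = i
    · rw [om_self ω st h, if_pos h]
      exact par_sim ω hωρ i i g u v
    · rw [om_two ω st h (hi.resolve_left h), if_neg h]
      exact (exists_area (hi.resolve_left h)).choose_spec.2.2.1 _ u v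
  sp := by
    intro i hi X hX u v
    by_cases h : st i = i
    · rw [om_self ω st h]
      have h1 := lieT_sp (piRep r) χ ω hωρ hX.1 (Pi.single i u) (Pi.single i v)
      rw [blk_single, blk_single] at h1
      exact h1
    · rw [om_two ω st h (hi.resolve_left h)]
      have h1 := (exists_area (hi.resolve_left h)).choose_spec.2.2.2.1 (X i) u v
      rw [h1, hX.2 i, zero_mul]
  nf := by
    intro i hi his β ψ hβ hsim
    unfold sdd at his
    push Not at his
    have h1 := no_dual ω hnd hωρ st hst hor htw i i (fun h => his.1 h.symm) hi hi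
      (fun _ => by have := his.2; omega) β ψ hsim
    have h2 : 0 < finrank K (E i) := by omega
    have _ : Nontrivial (E i) := Module.nontrivial_of_finrank_pos h2
    obtain ⟨u, hu⟩ := _root_.exists_ne (0 : E i)
    apply hu
    apply hβ
    rw [h1, LinearMap.zero_apply, LinearMap.zero_apply]
  tr := fun X hX i => hX.2 i
  nil := hnil

theorem ty_two {i : I} (hi : st i ≠ i) {u : E i} {φ : Dual K (E i)} (hu : u ≠ 0) (hφ : φ u = 0) :
    Ty (sdd (K := K) E st) (fun i => om ω st i) i u φ := by
  refine ⟨hφ, fun h => ?_⟩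
  have h2 := h.resolve_left hi
  obtain ⟨c, hc⟩ := (exists_area h2).choose_spec.2.2.2.2 u φ hu hφ
  refine ⟨c, ?_⟩
  dsimp only
  rw [om_two ω st hi h2]
  exact hc

theorem ty_sd {i : I} (halt : ∀ u, ω u u = 0) (hi : st i = i) (u : E i) :
    Ty (sdd (K := K) E st) (fun i => om ω st i) i u (par ω i i u) := by
  refine ⟨halt _, fun _ => ⟨1, ?_⟩⟩
  dsimp only
  rw [om_self ω st hi, one_smul]

theorem trace_one_dim {V : Type*} [AddCommGroup V] [Module K V] [FiniteDimensional K V]
    (h : finrank K V ≤ 1) (f : Module.End K V) (hf : LinearMap.trace K V f = 0) : f = 0 := by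
  rcases (show finrank K V = 0 ∨ finrank K V = 1 by omega) with h1 | h1
  · have _ : Subsingleton V := Module.finrank_zero_iff.1 h1
    ext v
    exact Subsingleton.elim _ _
  · obtain ⟨v, hv, hspan⟩ := finrank_eq_one_iff'.1 h1
    obtain ⟨c, hc⟩ := hspan (f v)
    have h2 : f = c • (1 : Module.End K V) := by
      ext w
      obtain ⟨d, rfl⟩ := hspan w
      rw [map_smul, LinearMap.smul_apply, Module.End.one_apply, ← hc, smul_comm]
    rw [h2, map_smul, LinearMap.trace_one, h1, Nat.cast_one, smul_eq_mul, mul_one] at hf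
    rw [h2, hf, zero_smul]

include halt hnd hωρ hst hor htw hirr hnil in
/-- All rank one operators of one component. -/
theorem exists_elem (i : I) (hi : 2 ≤ finrank K (E i)) (u : E i) (φ : Dual K (E i))
    (hφ : Ty (sdd (K := K) E st) (fun i => om ω st i) i u φ) :
    ∃ X ∈ hh r χ, X i = φ.smulRight u ∧ ∀ j, j ≠ i → j ≠ st i → X j = 0 := by
  classical
  have hT := types_h0 ω halt hnd hωρ st hst hor htw hirr hnil
  have h𝔥 := lieFam_h0 r χ
  obtain ⟨X, hX, hXi, hXj⟩ := full_indep h𝔥 hT hi
    ((Finset.univ.erase i).erase (st i)) (by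
      intro j hj
      rw [Finset.mem_erase, Finset.mem_erase] at hj
      by_cases hj2 : 2 ≤ finrank K (E j)
      · have hji : i ≠ st j := fun h => hj.1 (by rw [h, hst])
        refine independent h𝔥 hT hi hj2 ⟨?_, ?_⟩ ⟨?_, ?_⟩
        · intro T ψ h
          exact htw i j (Ne.symm hj.2.1) hi hj2 (fun h => absurd h hj.1) T ψ h
        · intro T ψ h
          refine no_dual ω hnd hωρ st hst hor htw i j hji hi hj2
            (fun h => absurd h.symm hj.2.1) T ψ fun g u v => ?_
          rw [h g u, LinearMap.smul_apply, smul_eq_mul]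
          congr 1
          change T u (r j g⁻¹ (r j g v)) = _
          rw [r_inv]
        · intro T ψ h
          exact htw j i hj.2.1 hj2 hi (fun h => absurd h hji) T ψ h
        · intro T ψ h
          refine no_dual ω hnd hωρ st hst hor htw j i (fun h => hj.1 h) hj2 hi
            (fun h => absurd h hj.2.1) T ψ fun g u v => ?_
          rw [h g u, LinearMap.smul_apply, smul_eq_mul]
          congr 1
          change T u (r i g⁻¹ (r i g v)) = _
          rw [r_inv]
      · obtain ⟨N, hN, u, φ, hu, hφ, hφu, hNi⟩ := hT.nil i hi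
        exact ⟨N, hN, trace_one_dim (by omega) (N j) (hN.2 j), u, φ, hu, hφ, hφu, hNi⟩) u φ hφ
  refine ⟨X, hX.1, hXi, fun j h1 h2 => hXj j ?_⟩
  rw [Finset.mem_erase, Finset.mem_erase]
  exact ⟨h2, h1, Finset.mem_univ _⟩

end

end Pool.Agent.W522.T
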