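import Mathlib
import Pool.Agent.W522.U.S1

/-!
# Orbits of strongly irreducible representations
-/

set_option linter.unusedSectionVars false

namespace Pool.Agent.W522.T

open Module Pool.Agent.W522.U

noncomputable section

theorem fi_of_map {G α : Type*} [Group G] [Finite α] (S : Subgroup G) (f : G → α)
    (h : ∀ g g', f g = f g' → g⁻¹ * g' ∈ S) : S.FiniteIndex := by
  have h1 : Finite (G ⧸ S) := by
    refine Finite.of_injective (fun q : G ⧸ S => f q.out) fun q q' hqq => ?_
    have h2 := h _ _ hqq
    rw [← QuotientGroup.eq, QuotientGroup.out_eq', QuotientGroup.out_eq'] at h2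
    exact h2
  exact Subgroup.finiteIndex_of_finite_quotient

variable {K : Type*} [Field K] [CharZero K] {E : Type*} [AddCommGroup E] [Module K E] [FiniteDimensional K E]
  {G : Type*} [Group G] {r : Representation K G E}

theorem map_map_r (g h : G) (W : Submodule K E) : (W.map (r h)).map (r g) = W.map (r (g * h)) := by
  rw [← Submodule.map_comp, map_mul]
  rfl

theorem map_one_r (W : Submodule K E) : W.map (r 1) = W := by
  rw [map_one]
  exact Submodule.map_id W

theorem finrank_map_r (g : G) (W : Submodule K E) :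
    finrank K (W.map (r g) : Submodule K E) = finrank K W := by
  refine le_antisymm (Submodule.finrank_map_le _ _) ?_
  have h1 := Submodule.finrank_map_le (r g⁻¹) (W.map (r g))
  rwa [map_map_r, inv_mul_cancel, map_one_r] at h1

/-- The orbit of a nonzero vector under a strongly irreducible group is not covered by finitely
many proper subspaces. -/
theorem exists_avoid (hr : Irr r) {v : E} (hv : v ≠ 0) (𝒲₀ : Finset (Submodule K E))
    (h𝒲₀ : ∀ W ∈ 𝒲₀, W ≠ ⊤) : ∃ g, ∀ W ∈ 𝒲₀, r g v ∉ W := by
  classical
  by_contra hcon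
  push Not at hcon
  let Cov : Finset (Submodule K E) → Prop := fun 𝒲 => ∀ g, ∃ W ∈ 𝒲, r g v ∈ W
  have hpos : 0 < finrank K E := by
    have _ : Nontrivial E := ⟨v, 0, hv⟩
    exact finrank_pos
  -- the minimal dimension
  have hex : ∃ d, ∃ 𝒲 : Finset (Submodule K E), Cov 𝒲 ∧ ∀ W ∈ 𝒲, finrank K W ≤ d :=
    ⟨finrank K E - 1, 𝒲₀, hcon, fun W hW => by
      have := Submodule.finrank_lt (h𝒲₀ W hW)
      omega⟩
  have hex' := Nat.find_min' hex ⟨𝒲₀, hcon, fun W hW => by
      have := Submodule.finrank_lt (h𝒲₀ W hW)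
      show finrank K W ≤ finrank K E - 1
      omega⟩
  have hmin := fun d => Nat.find_min (m := d) hex
  have hspec := Nat.find_spec hex
  set d := Nat.find hex with hd
  have hex2 : ∃ N, ∃ 𝒲 : Finset (Submodule K E), (Cov 𝒲 ∧ ∀ W ∈ 𝒲, finrank K W ≤ d) ∧
      (𝒲.filter (fun W : Submodule K E => finrank K W = d)).card = N := by
    obtain ⟨𝒲, h⟩ := hspec
    exact ⟨_, 𝒲, h, rfl⟩
  have hmin2 := fun N => Nat.find_min' (m := N) hex2
  have hspec2 := Nat.find_spec hex2
  set N := Nat.find hex2 with hN
  obtain ⟨𝒲, ⟨hcov, hdim⟩, hcard⟩ := hspec2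
  -- there is a member of maximal dimension
  have hne : (𝒲.filter (fun W : Submodule K E => finrank K W = d)).Nonempty := by
    by_contra hem
    rw [Finset.not_nonempty_iff_eq_empty] at hem
    have h1 : ∀ W ∈ 𝒲, finrank K W ≠ d := by
      intro W hW h
      have h2 : W ∈ 𝒲.filter (fun W : Submodule K E => finrank K W = d) := Finset.mem_filter.2 ⟨hW, h⟩
      rw [hem] at h2
      exact Finset.notMem_empty _ h2
    by_cases hd0 : d = 0
    · obtain ⟨W, hW, _⟩ := hcov 1
      have h2 := hdim W hW
      have h3 := h1 W hW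
      omega
    · refine hmin (d - 1) (by omega) ⟨𝒲, hcov, fun W hW => ?_⟩
      have h2 := hdim W hW
      have h3 := h1 W hW
      omega
  -- the group permutes the members of maximal dimension
  have hperm : ∀ g, ∀ W ∈ 𝒲, finrank K W = d → W.map (r g) ∈ 𝒲 := by
    intro g W hW hWd
    let 𝒲' := Finset.image₂ (fun W W' => W ⊓ W'.map (r g⁻¹)) 𝒲 𝒲
    have hsub : 𝒲'.filter (fun W : Submodule K E => finrank K W = d) ⊆ 𝒲.filter (fun W : Submodule K E => finrank K W = d) := by
      intro W' hW'
      rw [Finset.mem_filter] at hW' ⊢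
      obtain ⟨W1, h1, W2, h2, rfl⟩ := Finset.mem_image₂.1 hW'.1
      have h3 : W1 ⊓ W2.map (r g⁻¹) = W1 :=
        Submodule.eq_of_le_of_finrank_le inf_le_left (by rw [hW'.2]; exact hdim W1 h1)
      rw [h3] at hW' ⊢
      exact ⟨h1, hW'.2⟩
    have hcov' : Cov 𝒲' := by
      intro h
      obtain ⟨W1, h1, h1'⟩ := hcov h
      obtain ⟨W2, h2, h2'⟩ := hcov (g * h)
      refine ⟨W1 ⊓ W2.map (r g⁻¹), Finset.mem_image₂.2 ⟨W1, h1, W2, h2, rfl⟩, h1', r (g * h) v,
        h2', ?_⟩
      rw [← Module.End.mul_apply, ← map_mul, inv_mul_cancel_left]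
    have hdim' : ∀ W ∈ 𝒲', finrank K W ≤ d := by
      intro W' hW'
      obtain ⟨W1, h1, W2, h2, rfl⟩ := Finset.mem_image₂.1 hW'
      exact (Submodule.finrank_mono inf_le_left).trans (hdim W1 h1)
    have h1 := hmin2 _ ⟨𝒲', ⟨hcov', hdim'⟩, rfl⟩
    have h2 := Finset.eq_of_subset_of_card_le hsub (by rw [hcard]; exact h1)
    have h3 : W ∈ 𝒲.filter (fun W : Submodule K E => finrank K W = d) := Finset.mem_filter.2 ⟨hW, hWd⟩
    rw [← h2, Finset.mem_filter] at h3
    obtain ⟨W1, h4, W2, h5, h6⟩ := Finset.mem_image₂.1 h3.1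
    have h7 : W ≤ W2.map (r g⁻¹) := by
      rw [← h6]
      exact inf_le_right
    have h8 : W = W2.map (r g⁻¹) := Submodule.eq_of_le_of_finrank_le h7 (by
      rw [finrank_map_r, hWd]
      exact hdim W2 h5)
    rw [h8, map_map_r, mul_inv_cancel, map_one_r]
    exact h5
  obtain ⟨W, hW⟩ := hne
  rw [Finset.mem_filter] at hW
  let S : Subgroup G :=
    { carrier := {g | W.map (r g) = W}
      mul_mem' := by
        intro a b ha hb
        change W.map (r (a * b)) = W
        rw [← map_map_r, hb, ha]
      one_mem' := map_one_r W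
      inv_mem' := by
        intro a ha
        change W.map (r a⁻¹) = W
        have h1 : W.map (r a) = W := ha
        conv_lhs => rw [← h1]
        rw [map_map_r, inv_mul_cancel, map_one_r] }
  have hS : S.FiniteIndex := fi_of_map (α := 𝒲) S
    (fun g => ⟨W.map (r g), hperm g W hW.1 hW.2⟩) (by
      intro g g' h
      have h1 : W.map (r g) = W.map (r g') := congrArg Subtype.val h
      change W.map (r (g⁻¹ * g')) = W
      rw [← map_map_r, ← h1, map_map_r, inv_mul_cancel, map_one_r])
  rcases hr S hS W (by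
    intro s hs u hu
    have h1 : W.map (r s) = W := hs
    rw [← h1]
    exact Submodule.mem_map_of_mem hu) with h | h
  · obtain ⟨W', hW', hv'⟩ := hcov 1
    have h1 := hdim W' hW'
    rw [← hW.2, h, finrank_bot, Nat.le_zero, Submodule.finrank_eq_zero] at h1
    rw [h1, Submodule.mem_bot, map_one] at hv'
    exact hv hv'
  · have h1 := hW.2
    rw [h, finrank_top] at h1
    omega

/-- A translate of a decomposition in general position. -/
theorem exists_reflect (hr : Irr r) (h2 : 2 ≤ finrank K E) {v : E} {ξ : Dual K E}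
    (hξ : ξ v = 1) : ∃ g, ξ (r g v) ≠ 0 ∧ ∀ c : K, ξ.comp (r g⁻¹) ≠ c • ξ := by
  classical
  by_contra hcon
  push Not at hcon
  have hξ0 : ξ ≠ 0 := by
    rintro rfl
    rw [LinearMap.zero_apply] at hξ
    exact zero_ne_one hξ
  let S : Subgroup G :=
    { carrier := {g | ∃ c : K, ξ.comp (r g) = c • ξ}
      mul_mem' := by
        rintro a b ⟨c, hc⟩ ⟨d, hd⟩
        refine ⟨c * d, ?_⟩
        ext u
        have h3 := congrArg (fun f : Dual K E => f (r b u)) hc
        have h4 := congrArg (fun f : Dual K E => f u) hd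
        simp only [LinearMap.comp_apply, LinearMap.smul_apply, smul_eq_mul] at h3 h4 ⊢
        rw [map_mul, Module.End.mul_apply, h3, h4, mul_assoc]
      one_mem' := ⟨1, by
        rw [map_one, one_smul]
        rfl⟩
      inv_mem' := by
        rintro a ⟨c, hc⟩
        have hc0 : c ≠ 0 := by
          rintro rfl
          apply hξ0
          ext u
          have h3 := congrArg (fun f : Dual K E => f (r a⁻¹ u)) hc
          simp only [LinearMap.comp_apply, LinearMap.smul_apply, zero_smul,
            LinearMap.zero_apply] at h3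
          rw [r_inv'] at h3
          exact h3
        refine ⟨c⁻¹, ?_⟩
        ext u
        have h3 := congrArg (fun f : Dual K E => f (r a⁻¹ u)) hc
        simp only [LinearMap.comp_apply, LinearMap.smul_apply, smul_eq_mul] at h3 ⊢
        rw [r_inv'] at h3
        rw [h3, ← mul_assoc, inv_mul_cancel₀ hc0, one_mul] }
  have hout : ∀ g, g ∉ S → ξ (r g v) = 0 := by
    intro g hg
    by_contra h
    obtain ⟨c, hc⟩ := hcon g h
    exact hg (S.inv_mem_iff.1 ⟨c, hc⟩)
  have hli : LinearIndependent K (fun q : G ⧸ S => r q.out v) := by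
    rw [linearIndependent_iff']
    intro s c hs q hq
    have h3 := congrArg (fun w => ξ (r q.out⁻¹ w)) hs
    simp only [map_sum, map_smul, map_zero] at h3
    rw [Finset.sum_eq_single q] at h3
    · rwa [r_inv, hξ, smul_eq_mul, mul_one] at h3
    · intro q' _ hq'
      have h4 : q.out⁻¹ * q'.out ∉ S := by
        rw [← QuotientGroup.eq, QuotientGroup.out_eq', QuotientGroup.out_eq']
        exact Ne.symm hq'
      have h5 := hout _ h4
      rw [map_mul, Module.End.mul_apply] at h5
      rw [h5, smul_zero]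
    · intro h
      exact absurd hq h
  have hfin : Finite (G ⧸ S) := hli.finite
  have hS : S.FiniteIndex := Subgroup.finiteIndex_of_finite_quotient
  rcases hr S hS (LinearMap.ker ξ) (by
    rintro s ⟨c, hc⟩ u hu
    have h3 := congrArg (fun f : Dual K E => f u) hc
    simp only [LinearMap.comp_apply, LinearMap.smul_apply] at h3
    rw [LinearMap.mem_ker, h3, LinearMap.mem_ker.1 hu, smul_zero]) with h | h
  · have h3 : Function.Injective ξ := LinearMap.ker_eq_bot.1 h
    have h4 := LinearMap.finrank_le_finrank_of_injective h3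
    rw [finrank_self] at h4
    omega
  · exact hξ0 (LinearMap.ker_eq_top.1 h)

end

end Pool.Agent.W522.T
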