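import Mathlib
import Pool.Agent.W522.T.D1
import Pool.Agent.W522.T.B2
import Pool.Agent.W522.T.Log
import Pool.Agent.W522.U.C4

/-!
# Toral elements
-/

set_option linter.unusedSectionVars false

namespace Pool.Agent.W522.T

open Module Pool.Agent.H204R3.SP Pool.Agent.H204R3.GP Pool.Agent.W522.U

noncomputable section

variable {K : Type*} [Field K] [CharZero K]
  {I : Type*} [Fintype I] [DecidableEq I] {E : I → Type*} [∀ i, AddCommGroup (E i)]
  [∀ i, Module K (E i)] [∀ i, FiniteDimensional K (E i)] {G : Type*} [Group G]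
  (r : ∀ i, Representation K G (E i)) (χ : G →* K)

theorem gen_ne_zero {V : Type*} [AddCommGroup V] [Module K V] {T S : Module.End K V}
    (hST : ∀ v, S (T v) = v) {v : V} (hv : v ≠ 0) {x : K}
    (h : v ∈ Module.End.maxGenEigenspace T x) : x ≠ 0 := by
  rintro rfl
  rw [Module.End.mem_maxGenEigenspace] at h
  obtain ⟨k, hk⟩ := h
  rw [zero_smul, sub_zero] at hk
  apply hv
  have h1 : ∀ (k : ℕ) (v : V), (T ^ k) v = 0 → v = 0 := by
    intro k
    induction k with
    | zero => intro v h; exact h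
    | succ k ih =>
      intro v h
      rw [pow_succ, Module.End.mul_apply] at h
      have h2 := ih _ h
      rw [← hST v, h2, map_zero]
  exact h1 k v hk

/-- A basis of generalised eigenvectors and a logarithm give an element of the Lie algebra. -/
theorem toral (γ : G) {ι : I → Type*} [∀ j, Fintype (ι j)] (b : ∀ j, Basis (ι j) K (E j))
    (x : ∀ j, ι j → K) (hb : ∀ j k, b j k ∈ Module.End.maxGenEigenspace (r j γ) (x j k))
    {f : K → K} (hf : IsLog f) :
    (fun j => (b j).constr K (fun k => (f (x j k) - f (χ γ) / 2) • b j k)) ∈ hh r χ := by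
  classical
  rw [mem_hh]
  intro m φ hφ
  obtain ⟨Δ, hΔ, hφ⟩ := hφ
  refine kills_of_basis (Pi.basis b) _ φ fun J => ?_
  set c : (Σ j, ι j) → K := fun p => f (x p.1 p.2) - f (χ γ) / 2 with hc
  have h1 : ∀ p : Σ j, ι j, blk (fun j => (b j).constr K (fun k => (f (x j k) - f (χ γ) / 2) •
      b j k)) (Pi.basis b p) = c p • Pi.basis b p := by
    intro p
    rw [Pi.basis_apply, blk_single, Basis.constr_basis, Pi.single_smul]
  have h2 : ∀ k, φ (Function.update (fun l => Pi.basis b (J l)) k (blk (fun j => (b j).constr K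
      (fun k => (f (x j k) - f (χ γ) / 2) • b j k)) (Pi.basis b (J k)))) =
      c (J k) * φ (fun l => Pi.basis b (J l)) := by
    intro k
    rw [h1, φ.map_update_smul, Function.update_eq_self, smul_eq_mul]
  rw [Finset.sum_congr rfl (fun k _ => h2 k), ← Finset.sum_mul]
  by_cases h0 : φ (fun l => Pi.basis b (J l)) = 0
  · rw [h0, mul_zero]
  · obtain ⟨M, hM0, hM⟩ := exists_pow_mem Δ hΔ γ
    have hMK : (M : K) ≠ 0 := Nat.cast_ne_zero.2 hM0
    have hx : ∀ p : Σ j, ι j, x p.1 p.2 ≠ 0 := fun p =>
      gen_ne_zero (r_inv (r := r p.1) γ) ((b p.1).ne_zero p.2) (hb p.1 p.2)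
    have h3 := gen_eig φ (piRep r γ ^ M) (χ (γ ^ M) ^ m) (fun v => by
      rw [← map_pow]
      exact hφ _ hM v) (fun k => x (J k).1 (J k).2 ^ M) (fun l => Pi.basis b (J l)) (fun k => by
      refine gen_pow _ _ _ ?_
      rw [Pi.basis_apply]
      exact gen_single γ _ _ (hb _ _)) h0
    have h4 := congrArg f h3
    rw [hf.prod _ _ (fun k _ => pow_ne_zero _ (hx _)), map_pow, ← pow_mul,
      hf.pow (chi_ne γ)] at h4
    have h5 : ∀ k ∈ (Finset.univ : Finset (Fin m × Fin 2)), f (x (J k).1 (J k).2 ^ M) =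
        M * f (x (J k).1 (J k).2) := fun k _ => hf.pow (hx _) M
    rw [Finset.sum_congr rfl h5, ← Finset.mul_sum] at h4
    have h6 : ∑ k, c (J k) = 0 := by
      simp only [hc, Finset.sum_sub_distrib, Finset.sum_const, Finset.card_univ,
        Fintype.card_prod, Fintype.card_fin, nsmul_eq_mul]
      have h7 : ∑ k, f (x (J k).1 (J k).2) = m * f (χ γ) := by
        apply mul_left_cancel₀ hMK
        rw [← h4]
        push_cast
        ring
      rw [h7]
      push_cast
      ring
    rw [h6, zero_mul]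

end

end Pool.Agent.W522.T
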