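import Mathlib
import Pool.Agent.W522.T.D2

/-!
# Reflections
-/

set_option linter.unusedSectionVars false

namespace Pool.Agent.W522.T

open Module Pool.Agent.H204R3.SP Pool.Agent.H204R3.GP Pool.Agent.W522.U

noncomputable section

/-- Generalised eigenbases. -/
theorem exists_gen_basis {K V : Type*} [Field K] [IsAlgClosed K] [AddCommGroup V] [Module K V]
    [FiniteDimensional K V] (T : Module.End K V) : ∃ (n : ℕ) (b : Basis (Fin n) K V)
    (x : Fin n → K), (∀ k, b k ∈ Module.End.maxGenEigenspace T (x k)) ∧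
      (∀ k, T.HasEigenvalue (x k)) ∧
      ∀ μ, finrank K (Module.End.maxGenEigenspace T μ) = 1 →
        ∃ k₀, x k₀ = μ ∧ ∀ k, x k = μ → k = k₀ := by
  classical
  have h : DirectSum.IsInternal (fun μ => Module.End.maxGenEigenspace T μ) :=
    DirectSum.isInternal_submodule_of_iSupIndep_of_iSup_eq_top
      (Module.End.independent_maxGenEigenspace T) (Module.End.iSup_maxGenEigenspace_eq_top T)
  let v : ∀ μ, Basis (Fin (finrank K (Module.End.maxGenEigenspace T μ))) K
    (Module.End.maxGenEigenspace T μ) := fun μ => Module.finBasis K _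
  let b := h.collectedBasis v
  have hfin : Finite (Σ μ, Fin (finrank K (Module.End.maxGenEigenspace T μ))) :=
    Module.Finite.finite_basis b
  obtain ⟨n, ⟨e⟩⟩ := Finite.exists_equiv_fin
    (Σ μ, Fin (finrank K (Module.End.maxGenEigenspace T μ)))
  have hmem : ∀ k, b.reindex e k ∈ Module.End.maxGenEigenspace T (e.symm k).1 := by
    intro k
    rw [Basis.reindex_apply]
    exact h.collectedBasis_mem v _
  refine ⟨n, b.reindex e, fun k => (e.symm k).1, hmem, fun k => ?_, fun μ hμ => ?_⟩
  · have h1 : (b.reindex e k) ≠ 0 := (b.reindex e).ne_zero k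
    rw [Module.End.HasEigenvalue, Module.End.HasUnifEigenvalue]
    intro h2
    have h3 := hmem k
    rw [Module.End.mem_maxGenEigenspace] at h3
    obtain ⟨m, hm⟩ := h3
    have h4 : ∀ (m : ℕ) (w : V), ((T - (e.symm k).1 • (1 : Module.End K V)) ^ m) w = 0 →
        w = 0 := by
      intro m
      induction m with
      | zero => intro w h; exact h
      | succ m ih =>
        intro w h
        rw [pow_succ, Module.End.mul_apply] at h
        have h5 := ih _ h
        rw [LinearMap.sub_apply, LinearMap.smul_apply, Module.End.one_apply, sub_eq_zero] at h5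
        have h6 : w ∈ Module.End.eigenspace T (e.symm k).1 := Module.End.mem_eigenspace_iff.2 h5
        rw [Module.End.eigenspace] at h6
        rw [h2, Submodule.mem_bot] at h6
        exact h6
    exact h1 (h4 m _ hm)
  · refine ⟨e ⟨μ, ⟨0, by rw [hμ]; exact Nat.one_pos⟩⟩, by
      dsimp only
      rw [Equiv.symm_apply_apply], ?_⟩
    intro k hk
    dsimp only at hk
    rw [← Equiv.symm_apply_eq]
    rcases h5 : e.symm k with ⟨μ', j⟩
    have h6 : μ' = μ := by
      rw [← hk, h5]
    subst h6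
    have h7 : (j : ℕ) < 1 := by
      have := j.2
      omega
    congr 1
    apply Fin.ext
    change (j : ℕ) = 0
    omega

variable {K : Type*} [Field K] [CharZero K]
  {I : Type*} [Fintype I] [DecidableEq I] {E : I → Type*} [∀ i, AddCommGroup (E i)]
  [∀ i, Module K (E i)] [∀ i, FiniteDimensional K (E i)] {G : Type*} [Group G]
  {r : ∀ i, Representation K G (E i)} {χ : G →* K}

/-- The conjugate of an element. -/
def cj (r : ∀ i, Representation K G (E i)) (g : G) (X : ∀ i, Module.End K (E i)) :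
    ∀ i, Module.End K (E i) := fun i => r i g * X i * r i g⁻¹

theorem cj_mem (g : G) {X : ∀ i, Module.End K (E i)} (hX : X ∈ hh r χ) : cj r g X ∈ hh r χ :=
  (U.lieFam_hh r χ).conj g X hX

/-- A reflection produces a transvection. -/
theorem nil_of_refl {i : I} (hirr : Irr (r i)) (h2 : 2 ≤ finrank K (E i))
    {X : ∀ i, Module.End K (E i)} (hX : X ∈ hh r χ) {c₀ c₁ : K} (hc₁ : c₁ ≠ 0) {v : E i}
    {ξ : Dual K (E i)} (hξ : ξ v = 1) (hXi : ∀ w, X i w = c₀ • w + (c₁ * ξ w) • v) :
    ∃ Z ∈ h0 r χ, ∃ (u : E i) (φ : Dual K (E i)), u ≠ 0 ∧ φ ≠ 0 ∧ φ u = 0 ∧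
      Z i = φ.smulRight u := by
  have hv : v ≠ 0 := by
    rintro rfl
    rw [map_zero] at hξ
    exact zero_ne_one hξ
  obtain ⟨g, hg1, hg2⟩ := exists_reflect hirr h2 hξ
  set Y := cj r g X with hY
  have hYm : Y ∈ hh r χ := cj_mem g hX
  have h1 : brk X Y ∈ h0 r χ := brk_mem_h0 r χ hX hYm
  have h3 : brk X (brk X Y) ∈ h0 r χ := brk_mem_h0 r χ hX h1.1
  refine ⟨brk X (brk X Y) + c₁ • brk X Y, Submodule.add_mem _ h3 (Submodule.smul_mem _ _ h1), v,
    (2 * c₁ ^ 3 * ξ (r i g v)) • (ξ.comp (r i g⁻¹) - ξ (r i g⁻¹ v) • ξ), hv, ?_, ?_, ?_⟩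
  · intro h
    rcases smul_eq_zero.1 h with h4 | h4
    · have h5 : (2 : K) * c₁ ^ 3 ≠ 0 := mul_ne_zero two_ne_zero (pow_ne_zero _ hc₁)
      exact (mul_ne_zero h5 hg1) h4
    · exact hg2 _ (sub_eq_zero.1 h4)
  · rw [LinearMap.smul_apply, LinearMap.sub_apply, LinearMap.comp_apply, LinearMap.smul_apply, hξ,
      smul_eq_mul, smul_eq_mul, mul_one, sub_self, mul_zero]
  · have hYi : ∀ w, Y i w = c₀ • w + (c₁ * ξ (r i g⁻¹ w)) • r i g v := by
      intro w
      change r i g (X i (r i g⁻¹ w)) = _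
      rw [hXi, map_add, map_smul, map_smul, r_inv']
    refine LinearMap.ext fun w => ?_
    have hb : ∀ (A B : ∀ i, Module.End K (E i)) (w : E i), brk A B i w = A i (B i w) - B i (A i w) :=
      fun _ _ _ => rfl
    rw [Pi.add_apply, Pi.smul_apply, LinearMap.add_apply, LinearMap.smul_apply, hb, hb X Y, hb X Y]
    simp only [hXi, hYi, map_add, map_sub, map_smul, smul_eq_mul, hξ, LinearMap.smulRight_apply,
      LinearMap.smul_apply, LinearMap.sub_apply, LinearMap.comp_apply]
    module

end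

end Pool.Agent.W522.T
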