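import Mathlib
import Pool.Agent.W522.T.D3

/-!
# Symplectic reflections
-/

set_option linter.unusedSectionVars false

namespace Pool.Agent.W522.T

open Module Pool.Agent.H204R3.SP Pool.Agent.H204R3.GP Pool.Agent.W522.U

noncomputable section

/-- The trace of an operator of the symplectic Lie algebra. -/
theorem trace_sp {K V : Type*} [Field K] [CharZero K] [AddCommGroup V] [Module K V]
    [FiniteDimensional K V] (B : V →ₗ[K] Dual K V) (hB : Function.Injective B)
    (X : Module.End K V) (hX : ∀ u v, B (X u) v + B u (X v) = 0) : LinearMap.trace K V X = 0 := by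
  have hbij : Function.Bijective B := by
    refine ⟨hB, ?_⟩
    have h2 : finrank K V = finrank K (Dual K V) := by rw [Subspace.dual_finrank_eq]
    exact (LinearMap.injective_iff_surjective_of_finrank_eq_finrank h2).1 hB
  let e : V ≃ₗ[K] Dual K V := LinearEquiv.ofBijective B hbij
  have h1 : e.conj X = -(Module.Dual.transpose (R := K) X) := by
    refine LinearMap.ext fun ψ => LinearMap.ext fun v => ?_
    rw [LinearEquiv.conj_apply_apply, LinearMap.neg_apply, LinearMap.neg_apply,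
      Module.Dual.transpose_apply]
    obtain ⟨u, rfl⟩ := e.surjective ψ
    rw [LinearEquiv.symm_apply_apply]
    change B (X u) v = -(B u (X v))
    linear_combination hX u v
  have h2 := LinearMap.trace_conj' X e
  rw [h1] at h2
  have h4 := map_neg (LinearMap.trace K (Dual K V)) (Module.Dual.transpose (R := K) X)
  have h5 := h4.symm.trans h2
  rw [LinearMap.trace_transpose'] at h5
  have h3 : (2 : K) * LinearMap.trace K V X = 0 := by linear_combination -h5
  exact (mul_eq_zero.1 h3).resolve_left two_ne_zero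

variable {K : Type*} [Field K] [CharZero K]
  {I : Type*} [Fintype I] [DecidableEq I] {E : I → Type*} [∀ i, AddCommGroup (E i)]
  [∀ i, Module K (E i)] [∀ i, FiniteDimensional K (E i)] {G : Type*} [Group G]
  {r : ∀ i, Representation K G (E i)} {χ : G →* K}

/-- A symplectic reflection produces a transvection. -/
theorem nil_of_sprefl {i : I} (hirr : Irr (r i)) (h2 : 2 ≤ finrank K (E i))
    (B : E i →ₗ[K] Dual K (E i)) (hB : Function.Injective B) (halt : ∀ u, B u u = 0)
    (hsim : ∀ g u v, B (r i g u) (r i g v) = χ g * B u v)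
    (hsp : ∀ X ∈ hh r χ, ∀ u v, B (X i u) v + B u (X i v) = 0)
    {X : ∀ i, Module.End K (E i)} (hX : X ∈ hh r χ) {c₀ δ : K} (hδ : δ ≠ 0)
    {ι : Type*} [Fintype ι] [DecidableEq ι] (b : Basis ι K (E i)) {k₁ k₂ : ι} (hk : k₁ ≠ k₂)
    (hXi : ∀ w, X i w = c₀ • w + (δ * b.coord k₁ w) • b k₁ - (δ * b.coord k₂ w) • b k₂) :
    ∃ Z ∈ h0 r χ, ∃ (u : E i) (φ : Dual K (E i)), u ≠ 0 ∧ φ ≠ 0 ∧ φ u = 0 ∧
      Z i = φ.smulRight u := by
  have hskew : ∀ u v, B u v = -B v u := by
    intro u v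
    have h1 := halt (u + v)
    simp only [map_add, LinearMap.add_apply, halt, zero_add, add_zero] at h1
    linear_combination h1
  set v₁ := b k₁ with hv₁
  set v₂ := b k₂ with hv₂
  set ξ₁ := b.coord k₁ with hξ₁
  set ξ₂ := b.coord k₂ with hξ₂
  have e11 : ξ₁ v₁ = 1 := by simp [hξ₁, hv₁]
  have e12 : ξ₁ v₂ = 0 := by simp [hξ₁, hv₂, hk.symm]
  have e21 : ξ₂ v₁ = 0 := by simp [hξ₂, hv₁, hk]
  have e22 : ξ₂ v₂ = 1 := by simp [hξ₂, hv₂]
  -- the constant is zero
  have hc₀ : c₀ = 0 := by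
    have h3 := trace_sp B hB (X i) (hsp X hX)
    have h4 : X i = c₀ • LinearMap.id + (δ • ξ₁).smulRight v₁ - (δ • ξ₂).smulRight v₂ := by
      refine LinearMap.ext fun w => ?_
      rw [hXi]
      rfl
    rw [h4, map_sub, map_add, map_smul, trace_rk, trace_rk, LinearMap.trace_id,
      LinearMap.smul_apply, LinearMap.smul_apply, e11, e22, smul_eq_mul, smul_eq_mul, mul_one,
      add_sub_cancel_right] at h3
    rcases mul_eq_zero.1 h3 with h5 | h5
    · exact h5
    · rw [Nat.cast_eq_zero] at h5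
      omega
  subst hc₀
  simp only [zero_smul, zero_add] at hXi
  -- the form on the two vectors
  have hw : ∀ w, B v₁ w = ξ₂ w * B v₁ v₂ := by
    intro w
    have h3 := hsp X hX v₁ w
    have h4 : X i v₁ = δ • v₁ := by
      rw [hXi, e11, e21, mul_one, mul_zero, zero_smul, sub_zero]
    rw [h4, hXi, map_smul, LinearMap.smul_apply, map_sub, map_smul, map_smul, halt, smul_zero,
      zero_sub, smul_eq_mul, smul_eq_mul] at h3
    apply mul_left_cancel₀ hδ
    linear_combination h3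
  have hw' : ∀ w, B w v₂ = ξ₁ w * B v₁ v₂ := by
    intro w
    have h3 := hsp X hX w v₂
    have h4 : X i v₂ = -(δ • v₂) := by
      rw [hXi, e12, e22, mul_one, mul_zero, zero_smul, zero_sub]
    rw [h4, hXi, map_sub, LinearMap.sub_apply, map_smul, LinearMap.smul_apply, map_smul,
      LinearMap.smul_apply, halt, smul_zero, sub_zero, map_neg, map_smul, smul_eq_mul,
      smul_eq_mul] at h3
    apply mul_left_cancel₀ hδ
    linear_combination -h3
  have hβ : B v₁ v₂ ≠ 0 := by
    intro h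
    have h3 : B v₁ = 0 := by
      refine LinearMap.ext fun w => ?_
      rw [hw, h, mul_zero, LinearMap.zero_apply]
    have h4 := hB (h3.trans (map_zero B).symm)
    exact b.ne_zero k₁ h4
  -- the conjugating element
  have hker : ∀ (ξ : Dual K (E i)) (v : E i), ξ v = 1 → LinearMap.ker ξ ≠ ⊤ := by
    intro ξ v h1 h3
    rw [LinearMap.ker_eq_top] at h3
    rw [h3, LinearMap.zero_apply] at h1
    exact zero_ne_one h1
  classical
  obtain ⟨g', hg'⟩ := exists_avoid hirr (b.ne_zero k₂) {LinearMap.ker ξ₁, LinearMap.ker ξ₂} (by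
    intro W hW
    rw [Finset.mem_insert, Finset.mem_singleton] at hW
    rcases hW with rfl | rfl
    · exact hker ξ₁ v₁ e11
    · exact hker ξ₂ v₂ e22)
  have h1 : ξ₁ (r i g' v₂) ≠ 0 := fun h => hg' _ (by simp) (LinearMap.mem_ker.2 h)
  have h3 : ξ₂ (r i g' v₂) ≠ 0 := fun h => hg' _ (by simp) (LinearMap.mem_ker.2 h)
  obtain ⟨g, rfl⟩ : ∃ g : G, g' = g⁻¹ := ⟨g'⁻¹, (inv_inv g').symm⟩
  set w₀ := r i g⁻¹ v₂ with hw₀
  set Y := cj r g X with hY
  have hYm : Y ∈ hh r χ := cj_mem g hX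
  have hξY : ξ₁ (Y i v₂) * B v₁ v₂ = χ g * (2 * δ * B v₁ v₂ * ξ₁ w₀ * ξ₂ w₀) := by
    rw [← hw']
    change B (r i g (X i (r i g⁻¹ v₂))) v₂ = _
    have h4 := hsim g (X i w₀) w₀
    have h5 : r i g w₀ = v₂ := by
      rw [hw₀, r_inv']
    rw [h5] at h4
    rw [h4, hXi, map_sub, LinearMap.sub_apply, map_smul, map_smul, LinearMap.smul_apply,
      LinearMap.smul_apply, hskew v₂ w₀, hw w₀, hw' w₀, smul_eq_mul, smul_eq_mul]
    ring
  have hξY0 : ξ₁ (Y i v₂) ≠ 0 := by
    intro h
    rw [h, zero_mul] at hξY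
    have h4 : χ g * (2 * δ * B v₁ v₂ * ξ₁ w₀ * ξ₂ w₀) ≠ 0 :=
      mul_ne_zero (chi_ne g) (mul_ne_zero (mul_ne_zero (mul_ne_zero (mul_ne_zero two_ne_zero hδ)
        hβ) h1) h3)
    exact h4 hξY.symm
  have m1 : brk X Y ∈ h0 r χ := brk_mem_h0 r χ hX hYm
  have m2 : brk X (brk X Y) ∈ h0 r χ := brk_mem_h0 r χ hX m1.1
  have m3 : brk X (brk X (brk X Y)) ∈ h0 r χ := brk_mem_h0 r χ hX m2.1
  have m4 : brk X (brk X (brk X (brk X Y))) ∈ h0 r χ := brk_mem_h0 r χ hX m3.1
  refine ⟨brk X (brk X (brk X (brk X Y))) + (2 * δ) • brk X (brk X (brk X Y)) -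
    (δ ^ 2) • brk X (brk X Y) - (2 * δ ^ 3) • brk X Y,
    Submodule.sub_mem _ (Submodule.sub_mem _ (Submodule.add_mem _ m4 (Submodule.smul_mem _ _ m3))
      (Submodule.smul_mem _ _ m2)) (Submodule.smul_mem _ _ m1), v₁,
    (24 * δ ^ 4 * ξ₁ (Y i v₂)) • ξ₂, b.ne_zero k₁, ?_, ?_, ?_⟩
  · intro h
    rcases smul_eq_zero.1 h with h4 | h4
    · have h5 : (24 : K) * δ ^ 4 ≠ 0 := mul_ne_zero (by norm_num) (pow_ne_zero _ hδ)
      exact (mul_ne_zero h5 hξY0) h4
    · rw [h4, LinearMap.zero_apply] at e22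
      exact zero_ne_one e22
  · rw [LinearMap.smul_apply, e21, smul_zero]
  · refine LinearMap.ext fun w => ?_
    have hb : ∀ (A C : ∀ i, Module.End K (E i)) (w : E i),
        brk A C i w = A i (C i w) - C i (A i w) := fun _ _ _ => rfl
    simp only [Pi.add_apply, Pi.sub_apply, Pi.smul_apply, LinearMap.add_apply,
      LinearMap.sub_apply, LinearMap.smul_apply, hb]
    simp only [hXi, map_sub, map_smul, smul_eq_mul, e11, e12, e21, e22,
      LinearMap.smulRight_apply, LinearMap.smul_apply]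
    module

end

end Pool.Agent.W522.T
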