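import Mathlib
import Pool.Agent.W522.T.Defs
import Pool.Agent.W522.T.D4
import Pool.Agent.W522.U.C6

/-!
# Elements of the Lie algebra of a family of strongly irreducible subspaces
-/

set_option linter.unusedSectionVars false

namespace Pool.Agent.W522.T

open Module Pool.Agent.H204R3.SP Pool.Agent.H204R3.GP Pool.Agent.W522.U

noncomputable section

variable {K : Type*} [Field K] [CharZero K] [IsAlgClosed K] {X : Type*} [AddCommGroup X]
  [Module K X] [FiniteDimensional K X]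
  {Γ : Type*} [Group Γ] {R : Representation K Γ X} {χ : Γ →* K}
  {s : Type*} [Fintype s] [DecidableEq s] (W : s → Submodule K X) (Δ : Subgroup Γ)
  (hWΔ : ∀ i, ∀ g ∈ Δ, ∀ u ∈ W i, R g u ∈ W i)

theorem restrict_pow {U : Submodule K X} {γ : Γ} (h : ∀ u ∈ U, R γ u ∈ U) (M : ℕ) (u : U) :
    (((((R γ).restrict h) ^ M) u : U) : X) = R (γ ^ M) u := by
  induction M generalizing u with
  | zero => simp
  | succ M ih =>
    rw [pow_succ, Module.End.mul_apply, ih, pow_succ, map_mul]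
    rfl

theorem restrict_pow' (hWΔ : ∀ i, ∀ g ∈ Δ, ∀ u ∈ W i, R g u ∈ W i) {i : s} {γ : Γ}
    (h : ∀ u ∈ W i, R γ u ∈ W i) (M : ℕ) (hM : γ ^ M ∈ Δ) :
    resR R Δ (W i) (hWΔ i) ⟨γ ^ M, hM⟩ = ((R γ).restrict h) ^ M := by
  refine LinearMap.ext fun u => Subtype.ext ?_
  rw [restrict_pow, resR_apply]

/-- Toral elements. -/
theorem toral_family (hΔ : Δ.FiniteIndex) {i : s} {γ : Γ} (h : ∀ u ∈ W i, R γ u ∈ W i) {n : ℕ}
    (b : Basis (Fin n) K (W i)) (x : Fin n → K)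
    (hb : ∀ k, b k ∈ Module.End.maxGenEigenspace ((R γ).restrict h) (x k)) {f : K → K}
    (hf : IsLog f) : ∃ Y ∈ hh (fun i => resR R Δ (W i) (hWΔ i)) (χ.comp Δ.subtype), ∃ M F : K,
      M ≠ 0 ∧ ∀ k, Y i (b k) = (M * f (x k) - F) • b k := by
  obtain ⟨M, hM0, hM⟩ := exists_pow_mem Δ hΔ γ
  have hMK : (M : K) ≠ 0 := Nat.cast_ne_zero.2 hM0
  have hx0 : ∀ k, x k ≠ 0 := by
    intro k hk
    have h1 := hb k
    rw [hk, Module.End.mem_maxGenEigenspace] at h1
    obtain ⟨m, hm⟩ := h1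
    rw [zero_smul, sub_zero] at hm
    have h2 : R (γ ^ m) (b k : X) = 0 := by
      rw [← restrict_pow h, hm]
      rfl
    have h3 : ((b k : W i) : X) ≠ 0 := fun h4 => b.ne_zero k (Subtype.ext h4)
    exact Rne (R := R) (γ ^ m) h3 h2
  let g : Δ := ⟨γ ^ M, hM⟩
  let r : ∀ i, Representation K Δ (W i) := fun i => resR R Δ (W i) (hWΔ i)
  set F : K := f ((χ.comp Δ.subtype) g) / 2 with hF
  have hbas : ∀ j, ∃ (n' : ℕ) (b' : Basis (Fin n') K (W j)) (y : Fin n' → K),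
      (∀ k, b' k ∈ Module.End.maxGenEigenspace (r j g) (y k)) ∧
      (j = i → ∀ k, ∀ w : W j, (w : X) = b k →
        b'.constr K (fun k => (f (y k) - F) • b' k) w = (M * f (x k) - F) • w) := by
    intro j
    by_cases hj : j = i
    · subst hj
      refine ⟨n, b, fun k => x k ^ M, fun k => ?_, fun _ k w hw => ?_⟩
      · change b k ∈ Module.End.maxGenEigenspace (resR R Δ (W j) (hWΔ j) ⟨γ ^ M, hM⟩) _
        rw [restrict_pow' W Δ hWΔ h M hM]
        exact gen_pow _ _ _ (hb k)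
      · have h1 : w = b k := Subtype.ext hw
        rw [h1, Basis.constr_basis, hf.pow (hx0 k)]
    · obtain ⟨n', b', y, h1, -, -⟩ := exists_gen_basis (r j g)
      exact ⟨n', b', y, h1, fun h => absurd h hj⟩
  choose n' b' y h1 h2 using hbas
  exact ⟨_, toral r (χ.comp Δ.subtype) g b' y h1 hf, M, F, hMK, fun k => h2 i rfl k (b k) rfl⟩

/-- Reflections. -/
theorem nil_refl (hΔ : Δ.FiniteIndex) {i : s}
    (hirr : Irr (resR R Δ (W i) (hWΔ i))) (h2 : 2 ≤ finrank K (W i)) (hR : HasReflection R (W i)) :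
    ∃ Z ∈ h0 (fun i => resR R Δ (W i) (hWΔ i)) (χ.comp Δ.subtype),
      ∃ (u : W i) (φ : Dual K (W i)), u ≠ 0 ∧ φ ≠ 0 ∧ φ u = 0 ∧ Z i = φ.smulRight u := by
  obtain ⟨γ, h, f, x₀, c, hf, hx₀, hfx, hc⟩ := hR
  obtain ⟨n, b, x, hb, hev, huniq⟩ := exists_gen_basis ((R γ).restrict h)
  obtain ⟨k₀, hk₀, hk⟩ := huniq x₀ hx₀
  obtain ⟨Y, hY, M, F, hM, hYb⟩ := toral_family (χ := χ) W Δ hWΔ hΔ h b x hb hf
  refine nil_of_refl (r := fun i => resR R Δ (W i) (hWΔ i)) hirr h2 hY (c₀ := M * c - F)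
    (c₁ := M * (f x₀ - c)) (mul_ne_zero hM (sub_ne_zero.2 hfx)) (v := b k₀) (ξ := b.coord k₀)
    (by simp) ?_
  have h3 : Y i = (M * c - F) • LinearMap.id + (M * (f x₀ - c)) • (b.coord k₀).smulRight (b k₀) := by
    refine b.ext fun k => ?_
    rw [hYb, LinearMap.add_apply, LinearMap.smul_apply, LinearMap.smul_apply, LinearMap.id_apply,
      LinearMap.smulRight_apply, Basis.coord_apply, Basis.repr_self]
    by_cases hkk : k = k₀
    · subst hkk
      rw [Finsupp.single_eq_same, one_smul, hk₀, ← add_smul]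
      congr 1
      ring
    · rw [Finsupp.single_eq_of_ne (Ne.symm hkk), zero_smul, smul_zero, add_zero,
        hc _ (hev k) fun h4 => hkk (hk k h4)]
  intro w
  rw [h3]
  simp only [LinearMap.add_apply, LinearMap.smul_apply, LinearMap.id_apply,
    LinearMap.smulRight_apply, smul_smul]

/-- Symplectic reflections. -/
theorem nil_sprefl (hΔ : Δ.FiniteIndex) {i : s}
    (hirr : Irr (resR R Δ (W i) (hWΔ i))) (h2 : 2 ≤ finrank K (W i))
    (hR : HasSymplecticReflection R (W i))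
    (B : X →ₗ[K] X →ₗ[K] K) (hB0 : ∀ u ∈ W i, (∀ v ∈ W i, B u v = 0) → u = 0)
    (hBa : ∀ u ∈ W i, B u u = 0)
    (hB : ∀ g ∈ Δ, ∀ u ∈ W i, ∀ v ∈ W i, B (R g u) (R g v) = χ g * B u v) :
    ∃ Z ∈ h0 (fun i => resR R Δ (W i) (hWΔ i)) (χ.comp Δ.subtype),
      ∃ (u : W i) (φ : Dual K (W i)), u ≠ 0 ∧ φ ≠ 0 ∧ φ u = 0 ∧ Z i = φ.smulRight u := by
  obtain ⟨γ, h, f, x₁, x₂, c, δ, hf, hδ, hx₁, hx₂, hfx₁, hfx₂, hc⟩ := hR
  obtain ⟨n, b, x, hb, hev, huniq⟩ := exists_gen_basis ((R γ).restrict h)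
  obtain ⟨k₁, hk₁, hk₁'⟩ := huniq x₁ hx₁
  obtain ⟨k₂, hk₂, hk₂'⟩ := huniq x₂ hx₂
  have hkk : k₁ ≠ k₂ := by
    rintro rfl
    rw [← hk₁, hk₂, hfx₂] at hfx₁
    have h3 : 2 * δ = 0 := by linear_combination -hfx₁
    exact hδ ((mul_eq_zero.1 h3).resolve_left two_ne_zero)
  obtain ⟨Y, hY, M, F, hM, hYb⟩ := toral_family (χ := χ) W Δ hWΔ hΔ h b x hb hf
  have h3 : Y i = (M * c - F) • LinearMap.id + (M * δ) • (b.coord k₁).smulRight (b k₁) -
      (M * δ) • (b.coord k₂).smulRight (b k₂) := by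
    refine b.ext fun k => ?_
    rw [hYb, LinearMap.sub_apply, LinearMap.add_apply, LinearMap.smul_apply,
      LinearMap.smul_apply, LinearMap.smul_apply, LinearMap.id_apply,
      LinearMap.smulRight_apply, LinearMap.smulRight_apply, Basis.coord_apply, Basis.coord_apply,
      Basis.repr_self]
    by_cases h4 : k = k₁
    · subst h4
      rw [Finsupp.single_eq_same, one_smul, Finsupp.single_eq_of_ne (Ne.symm hkk), zero_smul,
        smul_zero, sub_zero, hk₁, hfx₁, ← add_smul]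
      congr 1
      ring
    · rw [Finsupp.single_eq_of_ne (Ne.symm h4), zero_smul, smul_zero, add_zero]
      by_cases h5 : k = k₂
      · subst h5
        rw [Finsupp.single_eq_same, one_smul, hk₂, hfx₂, ← sub_smul]
        congr 1
        ring
      · rw [Finsupp.single_eq_of_ne (Ne.symm h5), zero_smul, smul_zero, sub_zero,
          hc _ (hev k) (fun h6 => h4 (hk₁' k h6)) fun h6 => h5 (hk₂' k h6)]
  let B' : W i →ₗ[K] Dual K (W i) := B.compl₁₂ (W i).subtype (W i).subtype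
  have hB' : ∀ u v : W i, B' u v = B u v := fun _ _ => rfl
  refine nil_of_sprefl (r := fun i => resR R Δ (W i) (hWΔ i)) (χ := χ.comp Δ.subtype) hirr h2 B'
    ?_ (fun u => hBa u u.2) (fun g u v => ?_) ?_ hY (c₀ := M * c - F) (δ := M * δ)
    (mul_ne_zero hM hδ) b hkk ?_
  · rw [injective_iff_map_eq_zero]
    intro u hu
    refine Subtype.ext (hB0 u u.2 fun v hv => ?_)
    exact congrArg (fun f : Dual K (W i) => f ⟨v, hv⟩) hu
  · rw [hB', hB']
    exact hB g.1 g.2 u u.2 v v.2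
  · intro Z hZ u v
    have h4 : IsTate2 (piRep (fun i => resR R Δ (W i) (hWΔ i))) (χ.comp Δ.subtype)
        (B'.compl₁₂ (LinearMap.proj i) (LinearMap.proj i)) := by
      refine ⟨⊤, inferInstance, fun g _ u v => ?_⟩
      exact hB g.1 g.2 (u i) (u i).2 (v i) (v i).2
    have h5 := lieT_bil _ _ h4 ((mem_hh _ _ Z).1 hZ) (Pi.single i u) (Pi.single i v)
    rw [blk_single, blk_single] at h5
    simpa using h5
  · intro w
    rw [h3]
    simp only [LinearMap.add_apply, LinearMap.sub_apply, LinearMap.smul_apply, LinearMap.id_apply,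
      LinearMap.smulRight_apply, smul_smul]

end

end Pool.Agent.W522.T
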