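import Mathlib
import Pool.Agent.W522.T.C1

/-!
# Transvections of a family, and alternating pairings
-/

set_option linter.unusedSectionVars false

namespace Pool.Agent.W522.T

open Module Pool.Agent.H204R3.SP Pool.Agent.H204R3.GP Pool.Agent.W522.U

noncomputable section

variable {K : Type*} [Field K] [CharZero K] {X : Type*} [AddCommGroup X]
  [Module K X] [FiniteDimensional K X]
  {Γ : Type*} [Group Γ] {R : Representation K Γ X} {χ : Γ →* K}

theorem irr_res {U : Submodule K X} (hU : SI R U) {Δ : Subgroup Γ} (hΔ : Δ.FiniteIndex)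
    (hUΔ : ∀ g ∈ Δ, ∀ u ∈ U, R g u ∈ U) : Irr (resR R Δ U hUΔ) := by
  intro Δ' hΔ' U' hU'
  have h1 : Pot R (U'.map U.subtype) := by
    refine ⟨Δ'.map Δ.subtype, fi_map hΔ Δ' hΔ', ?_⟩
    rintro _ ⟨g, hg, rfl⟩ _ ⟨u, hu, rfl⟩
    exact ⟨resR R Δ U hUΔ g u, hU' g hg u hu, rfl⟩
  rcases hU.2.2 _ (Submodule.map_subtype_le _ _) h1 with h2 | h2
  · left
    rw [eq_bot_iff]
    intro u hu
    have h3 : (u : X) ∈ U'.map U.subtype := ⟨u, hu, rfl⟩
    rw [h2, Submodule.mem_bot] at h3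
    rw [Submodule.mem_bot]
    exact Subtype.ext h3
  · right
    rw [eq_top_iff]
    intro u _
    have h3 : (u : X) ∈ U'.map U.subtype := by
      rw [h2]
      exact u.2
    obtain ⟨u', hu', huu⟩ := h3
    have h4 : u' = u := Subtype.ext huu
    rw [← h4]
    exact hu'

section trans

variable {s : Type*} [Fintype s] [DecidableEq s] (W : s → Submodule K X) (Δ : Subgroup Γ)
  (hWΔ : ∀ i, ∀ g ∈ Δ, ∀ u ∈ W i, R g u ∈ W i)

/-- Transvections. -/
theorem nil_trans (hΔ : Δ.FiniteIndex) {i : s} (hW : SI R (W i)) {γ : Γ} (hχγ : χ γ = 1)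
    (h2 : (R γ - 1) * (R γ - 1) = 0) (hrk : finrank K ((W i).map (R γ - 1)) = 1) :
    ∃ Z ∈ h0 (fun i => resR R Δ (W i) (hWΔ i)) (χ.comp Δ.subtype),
      ∃ (u : W i) (φ : Dual K (W i)), u ≠ 0 ∧ φ ≠ 0 ∧ φ u = 0 ∧ Z i = φ.smulRight u := by
  let r : ∀ i, Representation K Δ (W i) := fun i => resR R Δ (W i) (hWΔ i)
  have hr : ∀ (i : s) (g : Δ) (u : W i), ((r i g u : W i) : X) = R g.1 u := fun _ _ _ => rfl
  obtain ⟨M, hM0, hM⟩ := exists_pow_mem Δ hΔ γ
  have hMK : (M : K) ≠ 0 := Nat.cast_ne_zero.2 hM0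
  let g : Δ := ⟨γ ^ M, hM⟩
  let N : ∀ j, Module.End K (W j) := fun j => r j g - 1
  have hN : ∀ (j : s) (y : W j), ((N j y : W j) : X) = (M : K) • (R γ - 1) (y : X) := by
    intro j y
    change ((r j g y - y : W j) : X) = _
    rw [Submodule.coe_sub, hr]
    change R (γ ^ M) _ - _ = _
    rw [unip_pow R γ h2, LinearMap.add_apply, LinearMap.smul_apply, Module.End.one_apply,
      add_sub_cancel_left]
  have hNN : ∀ j, N j * N j = 0 := by
    intro j
    refine LinearMap.ext fun y => Subtype.ext ?_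
    rw [Module.End.mul_apply, hN, hN, map_smul, ← Module.End.mul_apply, h2]
    simp
  have hblk : blk N = piRep r g - 1 := by
    refine LinearMap.ext fun y => ?_
    funext j
    rfl
  have hsq : (piRep r g - 1) * (piRep r g - 1) = 0 := by
    rw [← hblk]
    refine LinearMap.ext fun y => ?_
    funext j
    exact congrArg (fun f : Module.End K (W j) => f (y j)) (hNN j)
  have hmem : N ∈ hh r (χ.comp Δ.subtype) := by
    rw [mem_hh, hblk]
    refine unip_lieT _ _ g hsq ?_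
    change χ (γ ^ M) = 1
    rw [map_pow, hχγ, one_pow]
  refine ⟨N, ⟨hmem, fun j => ?_⟩, ?_⟩
  · have h3 : IsNilpotent (N j) := ⟨2, by rw [pow_two, hNN]⟩
    exact (LinearMap.isNilpotent_trace_of_isNilpotent h3).eq_zero
  · obtain ⟨⟨v, hv⟩, hv0, hspan⟩ := finrank_eq_one_iff'.1 hrk
    obtain ⟨x, hx, hxv⟩ := id hv
    have hst := unip_stable hW.2.1 γ h2
    have hvW : v ∈ W i := by
      rw [← hxv]
      exact hst x hx
    have hv0' : (⟨v, hvW⟩ : W i) ≠ 0 := by
      intro h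
      apply hv0
      have h3 : v = 0 := congrArg (fun w : W i => (w : X)) h
      exact Subtype.ext h3
    obtain ⟨f, hf⟩ : ∃ f : Dual K (W i), f ⟨v, hvW⟩ = 1 := by
      obtain ⟨f, hf⟩ : ∃ f : Dual K (W i), f ⟨v, hvW⟩ ≠ 0 := by
        by_contra h
        push Not at h
        exact hv0' ((Module.forall_dual_apply_eq_zero_iff K _).1 h)
      exact ⟨(f ⟨v, hvW⟩)⁻¹ • f, by
        rw [LinearMap.smul_apply, smul_eq_mul, inv_mul_cancel₀ hf]⟩
    have hNv : ∀ y : W i, (R γ - 1) (y : X) = f ⟨(R γ - 1) y, hst y y.2⟩ • v := by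
      intro y
      obtain ⟨c, hc⟩ := hspan ⟨(R γ - 1) y, Submodule.mem_map_of_mem y.2⟩
      have h6 : c • v = (R γ - 1) (y : X) := congrArg Subtype.val hc
      have h7 : (⟨(R γ - 1) y, hst y y.2⟩ : W i) = c • ⟨v, hvW⟩ := Subtype.ext h6.symm
      rw [h7, map_smul, hf, smul_eq_mul, mul_one, h6]
    have hNφ : N i = ((M : K) • f.comp ((R γ - 1).restrict hst)).smulRight ⟨v, hvW⟩ := by
      refine LinearMap.ext fun y => Subtype.ext ?_
      rw [hN, LinearMap.smulRight_apply, LinearMap.smul_apply, LinearMap.comp_apply,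
        Submodule.coe_smul, smul_eq_mul, mul_smul]
      congr 1
      exact hNv y
    have hφ0 : (M : K) • f.comp ((R γ - 1).restrict hst) ≠ 0 := by
      intro h
      have h1 := congrArg (fun φ : Dual K (W i) => φ ⟨x, hx⟩) h
      have h3 : (R γ - 1).restrict hst ⟨x, hx⟩ = ⟨v, hvW⟩ := Subtype.ext hxv
      rw [LinearMap.smul_apply, LinearMap.comp_apply, h3, hf, LinearMap.zero_apply, smul_eq_mul,
        mul_one] at h1
      exact hMK h1
    refine ⟨⟨v, hvW⟩, (M : K) • f.comp ((R γ - 1).restrict hst), hv0', hφ0, ?_, hNφ⟩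
    have h3 := trace_rk (⟨v, hvW⟩ : W i) ((M : K) • f.comp ((R γ - 1).restrict hst))
    rw [← hNφ] at h3
    rw [← h3]
    have h4 : IsNilpotent (N i) := ⟨2, by rw [pow_two, hNN]⟩
    exact (LinearMap.isNilpotent_trace_of_isNilpotent h4).eq_zero

end trans

/-- The pairings of a strongly irreducible subspace with a reflection are alternating. -/
theorem alt_of_refl [IsAlgClosed K] {U : Submodule K X} (hU : SI R U) (hU2 : 2 ≤ finrank K U)
    (hR : HasReflection R U) {Δ : Subgroup Γ} (hΔ : Δ.FiniteIndex) (B : X →ₗ[K] X →ₗ[K] K)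
    (hB : ∀ g ∈ Δ, ∀ u ∈ U, ∀ v ∈ U, B (R g u) (R g v) = χ g * B u v) : ∀ u ∈ U, B u u = 0 := by
  by_contra hcon
  push Not at hcon
  obtain ⟨w, hw, hw0⟩ := hcon
  let B' := B + B.flip
  have hB' : ∀ u v, B' u v = B u v + B v u := fun _ _ => rfl
  have h0 : ∃ u ∈ U, ∃ v ∈ U, B' u v ≠ 0 := by
    refine ⟨w, hw, w, hw, ?_⟩
    rw [hB', ← two_mul]
    exact mul_ne_zero two_ne_zero hw0
  have hinv : ∀ g ∈ Δ, ∀ u ∈ U, ∀ v ∈ U, B' (R g u) (R g v) = χ g * B' u v := by
    intro g hg u hu v hv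
    rw [hB', hB', hB g hg u hu v hv, hB g hg v hv u hu, mul_add]
  have hnd := du_left hU hU.2.1 hΔ h0 hinv
  obtain ⟨Δ1, hΔ1, hΔU⟩ := hU.2.1
  let Δ2 := Δ ⊓ Δ1
  have hΔ2 : Δ2.FiniteIndex := inferInstance
  have hUΔ : ∀ g ∈ Δ2, ∀ u ∈ U, R g u ∈ U := fun g hg => hΔU g hg.2
  obtain ⟨Z, hZ, u, φ, hu, hφ, hφu, hZu⟩ := nil_refl (χ := χ) (fun _ : Unit => U) Δ2
    (fun _ => hUΔ) hΔ2 (i := ()) (irr_res hU hΔ2 hUΔ) hU2 hR
  let B2 : U →ₗ[K] Dual K U := B'.compl₁₂ U.subtype U.subtype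
  have hB2 : ∀ u v : U, B2 u v = B' u v := fun _ _ => rfl
  have hsk : ∀ a b : U, φ a * B' u b + φ b * B' a u = 0 := by
    intro a b
    have h4 : IsTate2 (piRep (fun _ : Unit => resR R Δ2 U hUΔ)) (χ.comp Δ2.subtype)
        (B2.compl₁₂ (LinearMap.proj ()) (LinearMap.proj ())) := by
      refine ⟨⊤, inferInstance, fun g _ u v => ?_⟩
      exact hinv g.1 g.2.1 (u ()) (u ()).2 (v ()) (v ()).2
    have h5 := lieT_bil _ _ h4 ((mem_hh _ _ Z).1 hZ.1) (Pi.single () a) (Pi.single () b)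
    rw [blk_single, blk_single, hZu] at h5
    have h6 : B2 (φ a • u) b + B2 a (φ b • u) = 0 := by simpa using h5
    rw [map_smul, map_smul, LinearMap.smul_apply, smul_eq_mul, smul_eq_mul, hB2, hB2] at h6
    exact h6
  obtain ⟨a, ha⟩ : ∃ a, φ a ≠ 0 := by
    by_contra h
    push Not at h
    exact hφ (LinearMap.ext h)
  have hau : B' a u = 0 := by
    have h3 := hsk a a
    rw [hB' u a, hB' a u] at h3
    have h4 : φ a * (2 * (B a u + B u a)) = 0 := by linear_combination h3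
    rcases mul_eq_zero.1 h4 with h5 | h5
    · exact absurd h5 ha
    · rw [hB']
      exact (mul_eq_zero.1 h5).resolve_left two_ne_zero
  apply hu
  refine Subtype.ext (hnd u u.2 fun b hb => ?_)
  have h3 := hsk a ⟨b, hb⟩
  rw [hau, mul_zero, add_zero] at h3
  exact (mul_eq_zero.1 h3).resolve_left ha

end

end Pool.Agent.W522.T
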