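import Mathlib
import Pool.Agent.W522.T.C2
import Pool.Agent.W522.T.B6
import Pool.Agent.W522.U.C9

/-!
# The theorem for the sum of the representatives
-/

set_option linter.unusedSectionVars false

namespace Pool.Agent.W522.T

open Module Pool.Agent.H204R3.SP Pool.Agent.H204R3.GP Pool.Agent.W522.U

noncomputable section

variable {K : Type*} [Field K] [CharZero K] {X : Type*} [AddCommGroup X] [Module K X]
  [FiniteDimensional K X]
  {Γ : Type*} [Group Γ] {R : Representation K Γ X} {χ : Γ →* K}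
  (ω : X →ₗ[K] X →ₗ[K] K) (hnd : ∀ u, (∀ v, ω u v = 0) → u = 0)
  (hωR : ∀ g u v, ω (R g u) (R g v) = χ g * ω u v)
  (hR1 : HasReflections R χ) (hR2 : LinesNotSelfDual R χ) (hH : TwistFree2 R χ)
  (hD : DetIndependent R χ)

include hnd hωR hR1 hR2 hH hD in
theorem main_E [IsAlgClosed K] {s : ℕ} (W : Fin s → Submodule K X) (hW : ∀ i, SI R (W i))
    (hWW : ∀ i j, Tw R (fun _ => 1) (W i) (W j) → i = j)
    (st : Fin s → Fin s) (hst : ∀ i, st (st i) = i) (hDu : ∀ i, Du R χ (W i) (W (st i)))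
    (hDu' : ∀ i j, Du R χ (W i) (W j) → j = st i) :
    ∃ (Δ : Subgroup Γ) (_ : Δ.FiniteIndex) (hWΔ : ∀ i, ∀ g ∈ Δ, ∀ u ∈ W i, R g u ∈ W i),
      ∀ (m : ℕ) (φ : MultilinearMap K (fun _ : Fin m × Fin 2 => ∀ i, W i) K),
        IsTate (piRep (fun i => resR R Δ (W i) (hWΔ i))) (χ.comp Δ.subtype) m φ →
        φ ∈ Submodule.span K (PT (piRep (fun i => resR R Δ (W i) (hWΔ i)))
          (χ.comp Δ.subtype) m) := by
  classical
  choose D hDfi hDs using fun i => (hW i).2.1
  have hpos : ∀ i, 0 < finrank K (W i) := by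
    intro i
    rw [Nat.pos_iff_ne_zero, ne_eq, Submodule.finrank_eq_zero]
    exact (hW i).1
  have hDuA : ∀ i, ∃ D' : Subgroup Γ, D'.FiniteIndex ∧ ∃ B : X →ₗ[K] X →ₗ[K] K,
      (∃ u ∈ W i, ∃ v ∈ W (st i), B u v ≠ 0) ∧
      (∀ g ∈ D', ∀ u ∈ W i, ∀ v ∈ W (st i), B (R g u) (R g v) = χ g * B u v) ∧
      (st i = i → ∀ u ∈ W i, B u u = 0) := by
    intro i
    obtain ⟨D', hD', B, hB0, hB⟩ := hDu i
    by_cases hi : st i = i
    · rcases (show finrank K (W i) = 1 ∨ 2 ≤ finrank K (W i) by have := hpos i; omega)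
        with h1 | h1
      · rw [hi] at hB hB0
        exact absurd ⟨D', hD', B, hB0, hB⟩ (hR2 _ (hW i) h1)
      · rcases hR1 _ (hW i) h1 with ⟨γ, h2, hr⟩ | hr | ⟨-, D2, hD2, B2, hB20, hB2a, hB2⟩
        · refine ⟨D', hD', B, hB0, hB, fun _ => ?_⟩
          rw [hi] at hB hB0
          exact alt_of_unip (hW i) hD' B hB γ h2 (unip_chi' ω hnd hωR h2 hr) hr
        · refine ⟨D', hD', B, hB0, hB, fun _ => ?_⟩
          rw [hi] at hB hB0
          exact alt_of_refl (hW i) h1 hr hD' B hB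
        · rw [hi]
          exact ⟨D2, hD2, B2, hB20, hB2, fun _ => hB2a⟩
    · exact ⟨D', hD', B, hB0, hB, fun h => absurd h hi⟩
  choose D' hD' B hB0 hB hBA using hDuA
  let Δ : Subgroup Γ := ⨅ i, D i ⊓ D' i
  have hΔ : Δ.FiniteIndex := Subgroup.finiteIndex_iInf (fun i => inferInstance)
  have hm : ∀ g ∈ Δ, ∀ i, g ∈ D i ∧ g ∈ D' i := fun g hg i => Subgroup.mem_iInf.1 hg i
  have hWΔ : ∀ i, ∀ g ∈ Δ, ∀ u ∈ W i, R g u ∈ W i := fun i g hg u hu => hDs i g (hm g hg i).1 u hu
  have hBalt : ∀ i, st i = i → ∀ u ∈ W i, B i u u = 0 := hBA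
  have hBl : ∀ i j, j = st i → ∀ u ∈ W i, (∀ v ∈ W j, B i u v = 0) → u = 0 := by
    rintro i _ rfl
    exact du_left (hW i) (hW _).2.1 (hD' i) (hB0 i) (hB i)
  have hBr : ∀ i j, j = st i → ∀ v ∈ W j, (∀ u ∈ W i, B i u v = 0) → v = 0 := by
    rintro i _ rfl
    exact du_right (hW i).2.1 (hW _) (hD' i) (hB0 i) (hB i)
  have hBs : ∀ i j, j = st i → ∀ g ∈ Δ, ∀ u ∈ W i, ∀ v ∈ W j,
      B i (R g u) (R g v) = χ g * B i u v := by
    rintro i _ rfl g hg
    exact hB i g (hm g hg i).2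
  let r : ∀ i, Representation K Δ (W i) := fun i => resR R Δ (W i) (hWΔ i)
  have hr : ∀ (i : Fin s) (g : Δ) (u : W i), ((r i g u : W i) : X) = R g.1 u := fun _ _ _ => rfl
  -- the conditions
  have hsim : ∀ (g : Δ) u v, pf W st B (piRep r g u) (piRep r g v) =
      (χ.comp Δ.subtype) g * pf W st B u v := by
    intro g u v
    rw [pf_apply, pf_apply, Finset.mul_sum]
    refine Finset.sum_congr rfl fun i _ => ?_
    rw [Finset.mul_sum]
    refine Finset.sum_congr rfl fun j _ => ?_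
    rw [piRep_apply, piRep_apply, hr, hr]
    change _ = χ g.1 * _
    unfold cf
    by_cases h : j = st i
    · rw [if_pos h]
      rcases lt_trichotomy i j with h1 | h1 | h1
      · rw [if_pos h1]
        exact hBs i j h g.1 g.2 _ (u i).2 _ (v j).2
      · rw [if_neg (not_lt.2 h1.ge), if_neg (not_lt.2 h1.le)]
        exact hBs i j h g.1 g.2 _ (u i).2 _ (v j).2
      · rw [if_neg (not_lt.2 h1.le), if_pos h1, LinearMap.neg_apply, LinearMap.neg_apply,
          LinearMap.neg_apply, LinearMap.neg_apply, LinearMap.flip_apply, LinearMap.flip_apply,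
          hBs j i (by rw [h, hst]) g.1 g.2 _ (v j).2 _ (u i).2, mul_neg]
    · rw [if_neg h, LinearMap.zero_apply, LinearMap.zero_apply, LinearMap.zero_apply,
        LinearMap.zero_apply, mul_zero]
  have hor : ∀ i j, j ≠ st i → ∀ (u : W i) (v : W j),
      pf W st B (Pi.single i u) (Pi.single j v) = 0 := by
    intro i j hij u v
    rw [pf_single]
    unfold cf
    rw [if_neg hij, LinearMap.zero_apply, LinearMap.zero_apply]
  have htw : ∀ i j, i ≠ j → 2 ≤ finrank K (W i) → 2 ≤ finrank K (W j) →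
      (j = st i → 2 < finrank K (W i)) →
      ∀ (T : W i →ₗ[K] W j) (ψ : Δ → K), (∀ g u, T (r i g u) = ψ g • r j g (T u)) → T = 0 := by
    intro i j hij hi hj h2f T ψ hT
    by_contra hT0
    obtain ⟨p, hp⟩ := exists_pr (W i)
    let ψ' : Γ → K := fun g => if h : g ∈ Δ then ψ ⟨g, h⟩ else 1
    have htw : Tw R ψ' (W i) (W j) := by
      refine ⟨Δ, hΔ, (W j).subtype.comp (T.comp p), fun u _ => SetLike.coe_mem _, ?_, ?_⟩
      · by_contra hcon
        push Not at hcon
        apply hT0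
        ext u
        have h1 := hcon u u.2
        rw [LinearMap.comp_apply, LinearMap.comp_apply, hp] at h1
        exact h1
      · intro g hg u hu
        have h1 := hT ⟨g, hg⟩ ⟨u, hu⟩
        have h2 : p (R g u) = r i ⟨g, hg⟩ ⟨u, hu⟩ := hp (r i ⟨g, hg⟩ ⟨u, hu⟩)
        have h3 : p u = ⟨u, hu⟩ := hp ⟨u, hu⟩
        have h4 : ψ' g = ψ ⟨g, hg⟩ := dif_pos hg
        rw [LinearMap.comp_apply, LinearMap.comp_apply, LinearMap.comp_apply,
          LinearMap.comp_apply, h2, h3, h1, h4]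
        rfl
    have h1 : Tw R (fun _ => 1) (W i) (W j) ∨ (finrank K (W i) = 2 ∧ Du R χ (W i) (W j)) := by
      by_cases h2 : Du R χ (W i) (W i)
      · by_cases h3 : Du R χ (W j) (W j)
        · exact Or.inl (sp_twist (hW i) (hW j) h2 h3 htw)
        · rcases hH _ _ (hW j) (hW i) hj h3 _ (htw.symm (hW i) (hW j)) with h4 | ⟨h4, h5⟩
          · exact Or.inl (h4.symm1 (hW j) (hW i))
          · refine Or.inr ⟨?_, h5.symm⟩
            have h6 := hDu' _ _ h5.symm
            obtain ⟨Δ5, hΔ5, B5, hB50, hB5⟩ := h5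
            rw [← h4]
            exact (du_bij (hW j) (hW i) hΔ5 B5 hB50 hB5).1.symm
      · exact hH _ _ (hW i) (hW j) hi h2 _ htw
    rcases h1 with h1 | ⟨h1, h2⟩
    · exact hij (hWW _ _ h1)
    · have h3 := h2f (hDu' _ _ h2)
      omega
  have hirr : ∀ i, Irr (r i) := fun i => irr_res (hW i) hΔ (hWΔ i)
  have hnil : ∀ i, 2 ≤ finrank K (W i) → ∃ Z ∈ h0 r (χ.comp Δ.subtype),
      ∃ (u : W i) (φ : Dual K (W i)), u ≠ 0 ∧ φ ≠ 0 ∧ φ u = 0 ∧ Z i = φ.smulRight u := by
    intro i hi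
    rcases hR1 _ (hW i) hi with ⟨γ, h2, hrk⟩ | hr | ⟨hr, hA⟩
    · exact nil_trans W Δ hWΔ hΔ (hW i) (unip_chi' ω hnd hωR h2 hrk) h2 hrk
    · exact nil_refl W Δ hWΔ hΔ (hirr i) hi hr
    · have hsi : st i = i := by
        obtain ⟨D2, hD2, B2, hB20, -, hB2⟩ := hA
        exact (hDu' _ _ ⟨D2, hD2, B2, hB20, hB2⟩).symm
      exact nil_sprefl W Δ hWΔ hΔ (hirr i) hi hr (B i) (hBl i i hsi.symm) (hBalt i hsi)
        (hBs i i hsi.symm)
  have hdet : ∀ a : Fin s → ℤ, (∀ i, a (st i) = -a i) →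
      (∀ g : Δ, ∏ i, LinearMap.det (r i g) ^ a i = 1) → a = 0 := by
    intro a ha hag
    let eqv := (Fintype.equivFin {i // i < st i}).symm
    have h1 := hD (Fintype.card {i // i < st i}) (fun l => W (eqv l).1) (fun l => hW _)
      (fun l l' h => by
        have h2 := hDu' _ _ h
        have h3 := (eqv l).2
        have h4 := (eqv l').2
        rw [h2, hst] at h4
        exact lt_asymm h3 h4)
      (fun l l' h => eqv.injective (Subtype.ext (hWW _ _ h)))
      Δ hΔ (fun g hg l u hu => hWΔ _ g hg u hu) (fun l => a (eqv l).1) (fun g hg => by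
        have h5 := hag ⟨g, hg⟩
        rw [det_split st hst _ (fun i hi => by
          have h6 := ha i
          rw [hi] at h6
          have h7 : a i = 0 := by omega
          rw [h7, zpow_zero])] at h5
        rw [← h5, ← eqv.prod_comp]
        refine Finset.prod_congr rfl fun l _ => ?_
        set i := (eqv l).1 with hi
        have h8 := du_det (hW i) (hW (st i)) (hD' i) (B i) (hB0 i) (hB i) (hm g hg i).2
          (hWΔ i g hg) (hWΔ (st i) g hg)
        have h9 : χ g ^ finrank K (W i) ≠ 0 := pow_ne_zero _ (χne g)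
        change (LinearMap.det ((R g).restrict (hWΔ i g hg)) ^ 2 / χ g ^ finrank K (W i)) ^ a i =
          LinearMap.det ((R g).restrict (hWΔ i g hg)) ^ a i *
            LinearMap.det ((R g).restrict (hWΔ (st i) g hg)) ^ a (st i)
        rw [← h8] at h9 ⊢
        have h10 := left_ne_zero_of_mul h9
        have h11 := right_ne_zero_of_mul h9
        rw [ha, zpow_neg, ← div_eq_mul_inv, ← div_zpow]
        congr 1
        field_simp)
    have h2 : ∀ i, i < st i → a i = 0 := by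
      intro i hi
      have h3 := congrFun h1 (eqv.symm ⟨i, hi⟩)
      rw [Equiv.apply_symm_apply] at h3
      exact h3
    funext i
    rcases lt_trichotomy i (st i) with h3 | h3 | h3
    · exact h2 i h3
    · have h4 := ha i
      rw [← h3] at h4
      change a i = 0
      omega
    · have h4 := ha i
      rw [h2 (st i) (by rw [hst]; exact h3)] at h4
      change a i = 0
      omega
  refine ⟨Δ, hΔ, hWΔ, fun m φ hφ => ?_⟩
  exact main_pi (pf W st B) (pf_alt W st B hst hBalt) (pf_nondeg W st B hst hBl hBr) hsim st hst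
    hor htw (fun i _ => hirr i) hnil hdet (hasProj_pi hirr) φ hφ

include hnd hωR hR1 hR2 hH hD in
/-- The theorem over an algebraically closed field. -/
theorem main_X [IsAlgClosed K] (hss : HasProj R)
    {m : ℕ} (φ : MultilinearMap K (fun _ : Fin m × Fin 2 => X) K) (hφ : IsTate R χ m φ) :
    φ ∈ Submodule.span K (PT R χ m) := by
  obtain ⟨s, W, hW, hWW, hall⟩ := exists_reps hss
  obtain ⟨st, hst, hDu, hDu'⟩ := exists_st hss ω hnd hωR W hW hWW hall
  obtain ⟨Δ, hΔ, hWΔ, hE⟩ := main_E ω hnd hωR hR1 hR2 hH hD W hW hWW st hst hDu hDu'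
  exact tate_of_reps hss W hW hall Δ hΔ hWΔ m (hE m) φ hφ

end

end Pool.Agent.W522.T
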