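import Mathlib
import Pool.Agent.W522.T.D3

/-!
# The unipotent part of an element
-/

set_option linter.unusedSectionVars false

namespace Pool.Agent.W522.T

open Module Pool.Agent.H204R3.SP Pool.Agent.H204R3.GP Pool.Agent.W522.U

noncomputable section

/-- The binomial polynomials. -/
def bc (K : Type*) [Field K] (l : ℕ) : Polynomial K :=
  Polynomial.C ((l.factorial : K)⁻¹) * descPochhammer K l

section bcs

variable {K : Type*} [Field K] [CharZero K]

theorem bc_eval (l n : ℕ) : (bc K l).eval (n : K) = (n.choose l : K) := by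
  have h1 : (l.factorial : K) ≠ 0 := Nat.cast_ne_zero.2 (Nat.factorial_ne_zero l)
  rw [bc, Polynomial.eval_mul, Polynomial.eval_C, descPochhammer_eval_eq_descFactorial,
    Nat.descFactorial_eq_factorial_mul_choose]
  push_cast
  rw [← mul_assoc, inv_mul_cancel₀ h1, one_mul]

theorem bc_zero (l : ℕ) : (bc K l).eval 0 = if l = 0 then 1 else 0 := by
  have h1 := bc_eval (K := K) l 0
  rw [Nat.cast_zero] at h1
  rw [h1]
  cases l with
  | zero => simp
  | succ l => simp

/-- The coefficients of the logarithm. -/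
def lc (K : Type*) [Field K] (l : ℕ) : K := (Polynomial.derivative (bc K l)).eval 0

theorem lc_zero : lc K 0 = 0 := by
  unfold lc bc
  simp

theorem lc_one : lc K 1 = 1 := by
  unfold lc bc
  simp

/-- The derivative of a multilinear expression in the binomial polynomials. -/
theorem deriv_multi {V κ : Type*} [AddCommGroup V] [Module K V] [Fintype κ] [DecidableEq κ]
    (φ : MultilinearMap K (fun _ : κ => V) K) {L : ℕ} (w : κ → Fin (L + 1) → V) (M : ℕ)
    (hM : M ≠ 0)
    (h : ∀ n : ℕ, φ (fun k => ∑ l : Fin (L + 1), ((M * n).choose l.1 : K) • w k l) =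
      φ (fun k => w k 0)) :
    ∑ k, ∑ l : Fin (L + 1), lc K l.1 * φ (Function.update (fun k => w k 0) k (w k l)) = 0 := by
  let P : Polynomial K := ∑ q : κ → Fin (L + 1), Polynomial.C (φ fun k => w k (q k)) *
    ∏ k, bc K (q k).1
  have hPe : ∀ t : K, P.eval t = φ (fun k => ∑ l : Fin (L + 1), (bc K l.1).eval t • w k l) := by
    intro t
    rw [MultilinearMap.map_sum, Polynomial.eval_finsetSum]
    refine Finset.sum_congr rfl fun q _ => ?_
    rw [Polynomial.eval_mul, Polynomial.eval_C, Polynomial.eval_prod,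
      MultilinearMap.map_smul_univ, smul_eq_mul, mul_comm]
  have hP : P = Polynomial.C (φ fun k => w k 0) := by
    rw [← sub_eq_zero]
    refine Polynomial.eq_zero_of_infinite_isRoot _ ?_
    refine Set.infinite_of_injective_forall_mem (f := fun n : ℕ => ((M * n : ℕ) : K)) ?_ ?_
    · intro n n' hnn
      have h1 : M * n = M * n' := Nat.cast_injective hnn
      exact Nat.eq_of_mul_eq_mul_left (Nat.pos_of_ne_zero hM) h1
    · intro n
      change (P - Polynomial.C _).eval _ = 0
      rw [Polynomial.eval_sub, Polynomial.eval_C, hPe, sub_eq_zero, ← h n]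
      congr 1
      funext k
      refine Finset.sum_congr rfl fun l _ => ?_
      rw [bc_eval]
  have h1 : (Polynomial.derivative P).eval 0 = 0 := by
    rw [hP, Polynomial.derivative_C, Polynomial.eval_zero]
  have h2 : (Polynomial.derivative P).eval 0 = ∑ k, ∑ q : κ → Fin (L + 1),
      (if ∀ j, j ≠ k → q j = 0 then lc K (q k).1 * φ (fun k => w k (q k)) else 0) := by
    simp only [P]
    rw [Polynomial.derivative_sum, Polynomial.eval_finsetSum, Finset.sum_comm]
    refine Finset.sum_congr rfl fun q _ => ?_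
    rw [Polynomial.derivative_C_mul, Polynomial.eval_mul, Polynomial.eval_C,
      Polynomial.derivative_prod_finset, Polynomial.eval_finsetSum, Finset.mul_sum]
    refine Finset.sum_congr rfl fun k _ => ?_
    rw [Polynomial.eval_mul, Polynomial.eval_prod]
    change _ * (_ * lc K (q k).1) = _
    split_ifs with hq
    · rw [Finset.prod_eq_one, one_mul, mul_comm]
      intro j hj
      rw [bc_zero, hq j (Finset.ne_of_mem_erase hj), Fin.val_zero, if_pos rfl]
    · push Not at hq
      obtain ⟨j, hj, hqj⟩ := hq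
      rw [Finset.prod_eq_zero (Finset.mem_erase.2 ⟨hj, Finset.mem_univ _⟩), zero_mul, mul_zero]
      rw [bc_zero, if_neg]
      intro h3
      exact hqj (Fin.ext h3)
  rw [h2] at h1
  rw [← h1]
  refine Finset.sum_congr rfl fun k _ => ?_
  rw [← Finset.sum_filter]
  refine Finset.sum_nbij' (fun l => Function.update (fun _ => 0) k l) (fun q => q k) ?_ ?_ ?_ ?_ ?_
  · intro l _
    rw [Finset.mem_filter]
    exact ⟨Finset.mem_univ _, fun j hj => Function.update_of_ne hj _ _⟩
  · intro q _
    exact Finset.mem_univ _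
  · intro l _
    exact Function.update_self _ _ _
  · intro q hq
    funext j
    by_cases hj : j = k
    · subst hj
      rw [Function.update_self]
    · rw [Function.update_of_ne hj, (Finset.mem_filter.1 hq).2 j hj]
  · intro l _
    rw [Function.update_self]
    congr 2
    funext j
    by_cases hj : j = k
    · subst hj
      rw [Function.update_self, Function.update_self]
    · rw [Function.update_of_ne hj, Function.update_of_ne hj]

/-- The powers of an operator on a generalised eigenvector. -/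
theorem gen_pow_apply {V : Type*} [AddCommGroup V] [Module K V] (T : Module.End K V) {x : K}
    (hx : x ≠ 0) {L : ℕ} {v : V} (hv : ((T - x • (1 : Module.End K V)) ^ L) v = 0) (n : ℕ) :
    (x⁻¹) ^ n • (T ^ n) v = ∑ l : Fin (L + 1), (n.choose l.1 : K) •
      ((x⁻¹ • (T - x • (1 : Module.End K V))) ^ l.1) v := by
  set N := x⁻¹ • (T - x • (1 : Module.End K V)) with hN
  have hT : x⁻¹ • T = 1 + N := by
    rw [hN, smul_sub, smul_smul, inv_mul_cancel₀ hx, one_smul]
    abel
  have hNL : ∀ l, L ≤ l → (N ^ l) v = 0 := by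
    intro l hl
    obtain ⟨d, rfl⟩ := Nat.exists_eq_add_of_le hl
    rw [add_comm L d, pow_add, Module.End.mul_apply, hN, smul_pow, smul_pow, LinearMap.smul_apply,
      LinearMap.smul_apply, hv, smul_zero, map_zero, smul_zero]
  have h1 : (x⁻¹) ^ n • (T ^ n) v = ((1 + N) ^ n) v := by
    rw [← hT, smul_pow, LinearMap.smul_apply]
  have h2 : ((1 + N) ^ n) v = ∑ l ∈ Finset.range (n + 1), (n.choose l : K) • (N ^ l) v := by
    rw [add_comm, (Commute.one_right N).add_pow, LinearMap.sum_apply]
    refine Finset.sum_congr rfl fun l _ => ?_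
    rw [one_pow, mul_one, ← Nat.cast_comm, ← nsmul_eq_mul, LinearMap.smul_apply,
      Nat.cast_smul_eq_nsmul]
  rw [h1, h2, ← Finset.sum_range (fun l => (n.choose l : K) • (N ^ l) v)]
  have h3 : ∀ a, ∀ l ∈ Finset.range a, l ∉ Finset.range (min (n + 1) (L + 1)) →
      (n.choose l : K) • (N ^ l) v = 0 := by
    intro a l _ hl
    rw [Finset.mem_range, not_lt] at hl
    rcases (show n + 1 ≤ l ∨ L ≤ l by
      rcases le_total (n + 1) (L + 1) with h | h
      · rw [min_eq_left h] at hl
        exact Or.inl hl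
      · rw [min_eq_right h] at hl
        right
        omega) with h | h
    · rw [Nat.choose_eq_zero_of_lt (by omega), Nat.cast_zero, zero_smul]
    · rw [hNL l h, smul_zero]
  rw [← Finset.sum_subset (Finset.range_subset_range.2 (min_le_left (n + 1) (L + 1))) (h3 _),
    ← Finset.sum_subset (Finset.range_subset_range.2 (min_le_right (n + 1) (L + 1))) (h3 _)]

end bcs

variable {K : Type*} [Field K] [CharZero K]
  {I : Type*} [Fintype I] [DecidableEq I] {E : I → Type*} [∀ i, AddCommGroup (E i)]
  [∀ i, Module K (E i)] [∀ i, FiniteDimensional K (E i)] {G : Type*} [Group G]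
  (r : ∀ i, Representation K G (E i)) (χ : G →* K)

/-- The logarithm of the unipotent part of an element. -/
theorem unipotent (γ : G) {ι : I → Type*} [∀ j, Fintype (ι j)] (b : ∀ j, Basis (ι j) K (E j))
    (x : ∀ j, ι j → K) (hb : ∀ j k, b j k ∈ Module.End.maxGenEigenspace (r j γ) (x j k)) :
    ∃ L : ℕ, (fun j => (b j).constr K (fun k => ∑ l : Fin (L + 2), lc K l.1 •
      (((x j k)⁻¹ • (r j γ - x j k • (1 : Module.End K (E j)))) ^ l.1) (b j k))) ∈ hh r χ := by
  classical
  let L : ℕ := ∑ j, finrank K (E j)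
  have hL : ∀ j, finrank K (E j) ≤ L + 1 := fun j =>
    (Finset.single_le_sum (f := fun j => finrank K (E j)) (fun _ _ => Nat.zero_le _)
      (Finset.mem_univ j)).trans (Nat.le_succ _)
  have hbL : ∀ j k, ((r j γ - x j k • (1 : Module.End K (E j))) ^ (L + 1)) (b j k) = 0 := by
    intro j k
    have h1 := hb j k
    rw [Module.End.maxGenEigenspace_eq_genEigenspace_finrank, Module.End.mem_genEigenspace_nat,
      LinearMap.mem_ker] at h1
    obtain ⟨d, hd⟩ := Nat.exists_eq_add_of_le (hL j)
    rw [hd, add_comm _ d, pow_add, Module.End.mul_apply, h1, map_zero]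
  refine ⟨L, ?_⟩
  set N : ∀ j, ι j → Module.End K (E j) := fun j k =>
    (x j k)⁻¹ • (r j γ - x j k • (1 : Module.End K (E j))) with hN
  have hx : ∀ p : Σ j, ι j, x p.1 p.2 ≠ 0 := fun p =>
    gen_ne_zero (r_inv (r := r p.1) γ) ((b p.1).ne_zero p.2) (hb p.1 p.2)
  rw [mem_hh]
  intro m φ hφ
  obtain ⟨Δ, hΔ, hφ⟩ := hφ
  refine kills_of_basis (Pi.basis b) _ φ fun J => ?_
  obtain ⟨M, hM0, hM⟩ := exists_pow_mem Δ hΔ γ
  have h4 : ∀ (j : I) (k : ι j) (n : ℕ), (Pi.single j (r j (γ ^ n) (b j k)) : ∀ j, E j) =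
      (x j k) ^ n • ∑ l : Fin (L + 2), (n.choose l.1 : K) • (Pi.single j ((N j k ^ l.1) (b j k)) :
        ∀ j, E j) := by
    intro j k n
    have h5 := gen_pow_apply (r j γ) (hx ⟨j, k⟩) (hbL j k) n
    have h6 : r j (γ ^ n) (b j k) = (x j k) ^ n • ∑ l : Fin (L + 2), (n.choose l.1 : K) •
        (N j k ^ l.1) (b j k) := by
      rw [← h5, smul_smul, ← mul_pow, mul_inv_cancel₀ (hx ⟨j, k⟩), one_pow, one_smul, map_pow]
    rw [h6]
    change LinearMap.single K E j _ = _ • ∑ l : Fin (L + 2), _ • LinearMap.single K E j _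
    rw [map_smul, _root_.map_sum]
    congr 1
    refine Finset.sum_congr rfl fun l _ => ?_
    rw [map_smul]
  let w : Fin m × Fin 2 → Fin (L + 1 + 1) → (∀ j, E j) := fun k l =>
    Pi.single (J k).1 ((N (J k).1 (J k).2 ^ l.1) (b (J k).1 (J k).2))
  have hw0 : ∀ k, w k 0 = Pi.basis b (J k) := by
    intro k
    rw [Pi.basis_apply]
    simp only [w]
    rw [Fin.val_zero, pow_zero]
    rfl
  have key := deriv_multi φ w M hM0 (by
    intro n
    have h5 : φ (fun k => piRep r (γ ^ (M * n)) (w k 0)) = χ (γ ^ (M * n)) ^ m *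
        φ (fun k => w k 0) := by
      have h6 : γ ^ (M * n) ∈ Δ := by
        rw [pow_mul]
        exact Δ.pow_mem hM n
      exact hφ _ h6 _
    have h6 : (fun k => piRep r (γ ^ (M * n)) (w k 0)) = fun k =>
        (x (J k).1 (J k).2 ^ (M * n)) • ∑ l : Fin (L + 1 + 1), ((M * n).choose l.1 : K) • w k l := by
      funext k
      rw [hw0, Pi.basis_apply, piRep_single, h4]
    rw [h6, MultilinearMap.map_smul_univ, smul_eq_mul] at h5
    have h7 : (∏ k, x (J k).1 (J k).2 ^ (M * n)) ≠ 0 :=
      Finset.prod_ne_zero_iff.2 fun k _ => pow_ne_zero _ (hx _)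
    apply mul_left_cancel₀ h7
    rw [h5]
    by_cases h0 : φ (fun k => w k 0) = 0
    · rw [h0, mul_zero, mul_zero]
    · congr 1
      have h8 := gen_eig φ (piRep r γ ^ M) (χ (γ ^ M) ^ m) (fun v => by
        rw [← map_pow]
        exact hφ _ hM v) (fun k => x (J k).1 (J k).2 ^ M) (fun k => w k 0) (fun k => by
        refine gen_pow _ _ _ ?_
        rw [hw0, Pi.basis_apply]
        exact gen_single γ _ _ (hb _ _)) h0
      have h9 : ∀ k, x (J k).1 (J k).2 ^ (M * n) = (x (J k).1 (J k).2 ^ M) ^ n := fun k =>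
        pow_mul _ _ _
      rw [Finset.prod_congr rfl (fun k _ => h9 k), Finset.prod_pow, ← h8, pow_mul, map_pow,
        ← pow_mul, ← pow_mul, mul_comm n m])
  rw [← key]
  refine Finset.sum_congr rfl fun k _ => ?_
  have h10 : blk (fun j => (b j).constr K (fun k => ∑ l : Fin (L + 2), lc K l.1 •
      ((N j k) ^ l.1) (b j k))) (Pi.basis b (J k)) = ∑ l : Fin (L + 1 + 1), lc K l.1 • w k l := by
    rw [Pi.basis_apply, blk_single, Basis.constr_basis]
    change LinearMap.single K E _ _ = ∑ l : Fin (L + 2), _ • LinearMap.single K E _ _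
    rw [_root_.map_sum]
    refine Finset.sum_congr rfl fun l _ => ?_
    rw [map_smul]
  rw [h10, MultilinearMap.map_update_sum]
  refine Finset.sum_congr rfl fun l _ => ?_
  rw [MultilinearMap.map_update_smul, smul_eq_mul]
  congr 3
  funext k
  exact (hw0 k).symm

end

end Pool.Agent.W522.T
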