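import Mathlib

/-!
# Roots of unity of bounded degree over the p-adic numbers
-/

namespace Pool.Agent.W522.T

open Polynomial

noncomputable section

variable (ℓ : ℕ) [hℓ : Fact ℓ.Prime] {Ω : Type*} [Field Ω] [Algebra ℚ_[ℓ] Ω]

/-- Roots of unity of order prime to `ℓ`. -/
theorem prime_part {m : ℕ} (hm : 0 < m) (hmℓ : ¬ ℓ ∣ m) {z : Ω} (hz : IsPrimitiveRoot z m) :
    m < ℓ ^ (minpoly ℚ_[ℓ] z).natDegree := by
  let _ : Algebra ℤ_[ℓ] Ω := ((algebraMap ℚ_[ℓ] Ω).comp (algebraMap ℤ_[ℓ] ℚ_[ℓ])).toAlgebra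
  have _ : IsScalarTower ℤ_[ℓ] ℚ_[ℓ] Ω := IsScalarTower.of_algebraMap_eq (fun _ => rfl)
  have _ : Module.IsTorsionFree ℤ_[ℓ] Ω := Module.isTorsionFree_iff_algebraMap_injective.2
    ((algebraMap ℚ_[ℓ] Ω).injective.comp (IsFractionRing.injective ℤ_[ℓ] ℚ_[ℓ]))
  have hint : IsIntegral ℤ_[ℓ] z := by
    refine ⟨X ^ m - 1, monic_X_pow_sub_C 1 hm.ne', ?_⟩
    rw [eval₂_sub, eval₂_X_pow, eval₂_one, hz.pow_eq_one, sub_self]
  set P := minpoly ℤ_[ℓ] z with hP
  have hdeg : (minpoly ℚ_[ℓ] z).natDegree = P.natDegree := by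
    rw [minpoly.isIntegrallyClosed_eq_field_fractions' ℚ_[ℓ] hint,
      (minpoly.monic hint).natDegree_map]
  have hdvd : P ∣ cyclotomic m ℤ_[ℓ] := by
    refine minpoly.isIntegrallyClosed_dvd hint ?_
    rw [aeval_def, ← eval_map, map_cyclotomic]
    have _ : NeZero m := ⟨hm.ne'⟩
    exact hz.isRoot_cyclotomic hm
  let f : ℤ_[ℓ] →+* ZMod ℓ := PadicInt.toZMod
  have hPm : (P.map f).Monic := (minpoly.monic hint).map f
  have hPd : (P.map f).natDegree = P.natDegree := (minpoly.monic hint).natDegree_map f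
  have hP0 : P.natDegree ≠ 0 := (minpoly.natDegree_pos hint).ne'
  obtain ⟨q, hq, hqP⟩ := exists_irreducible_of_natDegree_ne_zero (f := P.map f)
    (by rw [hPd]; exact hP0)
  have _ : Fact (Irreducible q) := ⟨hq⟩
  let α : AdjoinRoot q := AdjoinRoot.root q
  have hα : (P.map f).eval₂ (AdjoinRoot.of q) α = 0 := by
    obtain ⟨s, hs⟩ := hqP
    rw [hs, eval₂_mul, AdjoinRoot.eval₂_root, zero_mul]
  have hmα : NeZero ((m : ℕ) : AdjoinRoot q) := by
    refine ⟨fun h => hmℓ ?_⟩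
    have h1 : AdjoinRoot.of q ((m : ℕ) : ZMod ℓ) = 0 := by rw [map_natCast, h]
    rw [map_eq_zero] at h1
    exact (ZMod.natCast_eq_zero_iff _ _).1 h1
  have hroot : IsPrimitiveRoot α m := by
    rw [← isRoot_cyclotomic_iff]
    obtain ⟨s, hs⟩ := hdvd
    have h1 : cyclotomic m (ZMod ℓ) = P.map f * s.map f := by
      rw [← Polynomial.map_mul, ← hs, map_cyclotomic]
    have h2 : cyclotomic m (AdjoinRoot q) = (cyclotomic m (ZMod ℓ)).map (AdjoinRoot.of q) := by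
      rw [map_cyclotomic]
    rw [IsRoot, h2, eval_map, h1, eval₂_mul, hα, zero_mul]
  have hq0 : q ≠ 0 := hq.ne_zero
  have hfinb := (AdjoinRoot.powerBasis hq0)
  have _ : Module.Finite (ZMod ℓ) (AdjoinRoot q) := hfinb.finite
  have _ : Finite (AdjoinRoot q) := Module.finite_of_finite (ZMod ℓ)
  have _ : Fintype (AdjoinRoot q) := Fintype.ofFinite _
  have hcard : Fintype.card (AdjoinRoot q) = ℓ ^ q.natDegree := by
    rw [Module.card_eq_pow_finrank (K := ZMod ℓ), ZMod.card, (AdjoinRoot.powerBasis hq0).finrank,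
      AdjoinRoot.powerBasis_dim]
  have hα0 : α ≠ 0 := hroot.ne_zero hm.ne'
  have hle : m ≤ Fintype.card (AdjoinRoot q) - 1 := by
    have h1 : α ^ (Fintype.card (AdjoinRoot q) - 1) = 1 := FiniteField.pow_card_sub_one_eq_one α hα0
    exact Nat.le_of_dvd (Nat.sub_pos_of_lt Fintype.one_lt_card) (hroot.dvd_of_pow_eq_one _ h1)
  have hqd : q.natDegree ≤ P.natDegree := by
    rw [← hPd]
    exact natDegree_le_of_dvd hqP hPm.ne_zero
  have h2 : ℓ ^ q.natDegree ≤ ℓ ^ P.natDegree := Nat.pow_le_pow_right hℓ.out.pos hqd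
  have h3 : 0 < Fintype.card (AdjoinRoot q) := Fintype.card_pos
  rw [hdeg]
  omega

/-- Roots of unity of order a power of `ℓ`. -/
theorem power_part (a : ℕ) {y : Ω} (hy : IsPrimitiveRoot y (ℓ ^ (a + 1))) :
    a < (minpoly ℚ_[ℓ] y).natDegree := by
  let _ : Algebra ℤ_[ℓ] Ω := ((algebraMap ℚ_[ℓ] Ω).comp (algebraMap ℤ_[ℓ] ℚ_[ℓ])).toAlgebra
  have _ : IsScalarTower ℤ_[ℓ] ℚ_[ℓ] Ω := IsScalarTower.of_algebraMap_eq (fun _ => rfl)
  have hE := cyclotomic_prime_pow_comp_X_add_one_isEisensteinAt ℓ a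
  set F := ((cyclotomic (ℓ ^ (a + 1)) ℤ).comp (X + 1)) with hF
  have hFm : F.Monic := by
    rw [hF, show (X + 1 : ℤ[X]) = X + C 1 by simp]
    refine (cyclotomic.monic _ ℤ).comp (monic_X_add_C 1) fun h => ?_
    rw [natDegree_X_add_C] at h
    exact zero_ne_one h.symm
  let f : ℤ →+* ℤ_[ℓ] := Int.castRingHom _
  have hF0 : F.coeff 0 = ℓ := by
    rw [hF, coeff_zero_eq_eval_zero, eval_comp, cyclotomic_prime_pow_eq_geom_sum hℓ.out, eval_add,
      eval_X, eval_one, zero_add, eval_finsetSum]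
    simp
  have hFE : (F.map f).IsEisensteinAt (Ideal.span {(ℓ : ℤ_[ℓ])}) := by
    have hw := (hE.isWeaklyEisensteinAt).map f
    have hid : Ideal.map f (Submodule.span ℤ {(ℓ : ℤ)}) = Ideal.span {(ℓ : ℤ_[ℓ])} := by
      rw [Ideal.submodule_span_eq, Ideal.map_span, Set.image_singleton]
      simp [f]
    rw [hid] at hw
    refine ⟨?_, fun hn => hw.mem hn, ?_⟩
    · rw [(hFm.map f).leadingCoeff, Ideal.mem_span_singleton]
      intro h
      exact (PadicInt.prime_p).not_isUnit (isUnit_of_dvd_one h)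
    · rw [coeff_map, hF0, Ideal.span_singleton_pow, Ideal.mem_span_singleton]
      intro h
      have h1 : (ℓ : ℤ_[ℓ]) ^ 2 ∣ ℓ := by simpa [f] using h
      obtain ⟨c, hc⟩ := h1
      have h2 : (ℓ : ℤ_[ℓ]) ≠ 0 := PadicInt.prime_p.ne_zero
      have h3 : (1 : ℤ_[ℓ]) = ℓ * c := by
        apply mul_left_cancel₀ h2
        rw [mul_one]
        rw [pow_two, mul_assoc] at hc
        exact hc
      exact (PadicInt.prime_p).not_isUnit (isUnit_of_dvd_one ⟨c, h3⟩)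
  have hdeg : F.natDegree = (ℓ ^ a) * (ℓ - 1) := by
    rw [hF, natDegree_comp, show (X + 1 : ℤ[X]) = X + C 1 by simp, natDegree_X_add_C, mul_one,
      natDegree_cyclotomic, Nat.totient_prime_pow hℓ.out (Nat.succ_pos _), Nat.add_one_sub_one]
  have h2 := hℓ.out.two_le
  have hpos : 0 < F.natDegree := by
    rw [hdeg]
    exact Nat.mul_pos (Nat.pow_pos hℓ.out.pos) (by omega)
  have hirr : Irreducible (F.map f) := hFE.irreducible
    ((Ideal.span_singleton_prime PadicInt.prime_p.ne_zero).2 PadicInt.prime_p)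
    (hFm.map f).isPrimitive (by rw [hFm.natDegree_map]; exact hpos)
  have hirr' : Irreducible ((F.map f).map (algebraMap ℤ_[ℓ] ℚ_[ℓ])) :=
    (hFm.map f).irreducible_iff_irreducible_map_fraction_map.1 hirr
  have hroot : aeval (y - 1) ((F.map f).map (algebraMap ℤ_[ℓ] ℚ_[ℓ])) = 0 := by
    rw [Polynomial.map_map, aeval_def, eval₂_map]
    have h3 : ((algebraMap ℚ_[ℓ] Ω).comp ((algebraMap ℤ_[ℓ] ℚ_[ℓ]).comp f)) = Int.castRingHom Ω :=
      Subsingleton.elim _ _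
    rw [h3, ← eval_map, hF, Polynomial.map_comp, map_cyclotomic, eval_comp]
    simp only [Polynomial.map_add, map_X, Polynomial.map_one, eval_add, eval_X, eval_one,
      sub_add_cancel]
    exact hy.isRoot_cyclotomic (Nat.pow_pos hℓ.out.pos)
  have hmin := minpoly.eq_of_irreducible_of_monic hirr' hroot ((hFm.map f).map _)
  have hd : (minpoly ℚ_[ℓ] (y - 1)).natDegree = (ℓ ^ a) * (ℓ - 1) := by
    rw [← hmin, (hFm.map f).natDegree_map, hFm.natDegree_map, hdeg]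
  have hd' : (minpoly ℚ_[ℓ] (y - 1)).natDegree = (minpoly ℚ_[ℓ] y).natDegree := by
    have h4 := minpoly.sub_algebraMap (A := ℚ_[ℓ]) (B := Ω) (x := y) 1
    rw [map_one] at h4
    rw [h4, natDegree_comp, show (X + C (1 : ℚ_[ℓ])) = X + C 1 from rfl, natDegree_X_add_C, mul_one]
  rw [← hd', hd]
  have h5 : a < ℓ ^ a := Nat.lt_pow_self hℓ.out.one_lt
  calc a < ℓ ^ a := h5
    _ ≤ ℓ ^ a * (ℓ - 1) := Nat.le_mul_of_pos_right _ (by omega)

/-- The roots of unity of bounded degree have bounded order. -/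
theorem roots_bound (D : ℕ) : ∃ N : ℕ, 0 < N ∧ ∀ x : Ω, (∃ n : ℕ, 0 < n ∧ x ^ n = 1) →
    Module.finrank ℚ_[ℓ] (IntermediateField.adjoin ℚ_[ℓ] {x}) ≤ D → x ^ N = 1 := by
  refine ⟨ℓ ^ (D + 1) * (ℓ ^ D).factorial, Nat.mul_pos (Nat.pow_pos hℓ.out.pos)
    (Nat.factorial_pos _), fun x hx hD => ?_⟩
  have hfin : IsOfFinOrder x := isOfFinOrder_iff_pow_eq_one.2 hx
  have hxi : IsIntegral ℚ_[ℓ] x := by
    obtain ⟨n, hn, hxn⟩ := hx
    refine ⟨X ^ n - 1, monic_X_pow_sub_C 1 hn.ne', ?_⟩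
    rw [eval₂_sub, eval₂_X_pow, eval₂_one, hxn, sub_self]
  have hdeg : ∀ k : ℕ, (minpoly ℚ_[ℓ] (x ^ k)).natDegree ≤ D := by
    intro k
    rw [← IntermediateField.adjoin.finrank (hxi.pow k)]
    have _ : FiniteDimensional ℚ_[ℓ] (IntermediateField.adjoin ℚ_[ℓ] {x}) :=
      IntermediateField.adjoin.finiteDimensional hxi
    refine le_trans ?_ hD
    refine IntermediateField.finrank_le_of_le_right ?_
    rw [IntermediateField.adjoin_le_iff, Set.singleton_subset_iff]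
    exact pow_mem (IntermediateField.mem_adjoin_simple_self _ x) k
  set n := orderOf x with hn
  have hn0 : n ≠ 0 := hfin.orderOf_pos.ne'
  obtain ⟨a, m, hmℓ, hnm⟩ := Nat.exists_eq_pow_mul_and_not_dvd hn0 ℓ hℓ.out.ne_one
  have hm0 : m ≠ 0 := by
    rintro rfl
    exact hn0 (by rw [hnm, mul_zero])
  have hprim : IsPrimitiveRoot x n := IsPrimitiveRoot.orderOf x
  have hz : IsPrimitiveRoot (x ^ (ℓ ^ a)) m := hprim.pow (Nat.pos_of_ne_zero hn0) hnm
  have hy : IsPrimitiveRoot (x ^ m) (ℓ ^ a) := hprim.pow (Nat.pos_of_ne_zero hn0)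
    (by rw [hnm, mul_comm])
  have hm := prime_part ℓ (Nat.pos_of_ne_zero hm0) hmℓ hz
  have hm' : m ≤ ℓ ^ D := hm.le.trans (Nat.pow_le_pow_right hℓ.out.pos (hdeg _))
  have ha : a ≤ D + 1 := by
    rcases a with _ | a
    · exact Nat.zero_le _
    · have h1 := power_part ℓ a hy
      have h2 := hdeg m
      omega
  have hdvd : n ∣ ℓ ^ (D + 1) * (ℓ ^ D).factorial := by
    rw [hnm]
    exact Nat.mul_dvd_mul (Nat.pow_dvd_pow _ ha) (Nat.dvd_factorial (Nat.pos_of_ne_zero hm0) hm')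
  obtain ⟨c, hc⟩ := hdvd
  rw [hc, pow_mul, hprim.pow_eq_one, one_pow]

end

end Pool.Agent.W522.T
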