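import Mathlib
import Pool.Agent.W522.T.Log

/-!
# Existence of logarithms
-/

namespace Pool.Agent.W522.T

noncomputable section

variable {K : Type*} [Field K] [CharZero K]

/-- A nonzero element which is not a root of unity has a nonzero logarithm. -/
theorem exists_log {x : K} (hx : x ≠ 0) (h : ∀ n : ℕ, 0 < n → x ^ n ≠ 1) :
    ∃ f : K → K, IsLog f ∧ f x ≠ 0 := by
  classical
  let A := Additive Kˣ
  let u : A := Additive.ofMul (Units.mk0 x hx)
  -- the map from the integers
  have hinj : Function.Injective (fun n : ℤ => n • u) := by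
    rw [show (fun n : ℤ => n • u) = (zmultiplesHom A u) from rfl, injective_iff_map_eq_zero]
    intro n hn
    by_contra hn0
    have h1 : (Units.mk0 x hx) ^ n = 1 := by
      have h2 : n • u = 0 := hn
      exact h2
    have h3 : x ^ n = 1 := by
      have h4 := congrArg Units.val h1
      simpa using h4
    rcases Int.natAbs_eq n with h5 | h5
    · apply h n.natAbs (Int.natAbs_pos.2 hn0)
      rw [h5, zpow_natCast] at h3
      exact h3
    · apply h n.natAbs (Int.natAbs_pos.2 hn0)
      rw [h5, zpow_neg, zpow_natCast, inv_eq_one] at h3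
      exact h3
  let i : ℤ →ₗ[ℤ] A := LinearMap.toSpanSingleton ℤ A u
  have hi : Function.Injective i := hinj
  have hQ : Module.Baer ℤ ℚ := Module.Baer.of_divisible ℚ
  obtain ⟨g, hg⟩ := Module.Baer.extension_property hQ i hi (LinearMap.toSpanSingleton ℤ ℚ 1)
  have hgu : g u = 1 := by
    have h1 := congrArg (fun f : ℤ →ₗ[ℤ] ℚ => f 1) hg
    simpa [i] using h1
  refine ⟨fun y => if hy : y = 0 then 0 else ((g (Additive.ofMul (Units.mk0 y hy)) : ℚ) : K), ?_, ?_⟩
  · intro y z hy hz
    dsimp only
    rw [dif_neg hy, dif_neg hz, dif_neg (mul_ne_zero hy hz), ← Rat.cast_add, ← map_add]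
    congr 2
    rw [← ofMul_mul]
    congr 1
    ext
    rfl
  · dsimp only
    rw [dif_neg hx]
    change ((g u : ℚ) : K) ≠ 0
    rw [hgu, Rat.cast_one]
    exact one_ne_zero

end

end Pool.Agent.W522.T
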