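import Mathlib
import Pool.Agent.W522.T.D1

/-!
# Groups with finitely many traces
-/

set_option linter.unusedSectionVars false

namespace Pool.Agent.W522.T

open Module Pool.Agent.W522.U

noncomputable section

variable {K : Type*} [Field K] {E : Type*} [AddCommGroup E] [Module K E] [FiniteDimensional K E]
  {G : Type*} [Group G] {r : Representation K G E}

/-- Burnside's theorem. -/
theorem burnside [IsAlgClosed K] (hE : 0 < finrank K E)
    (h : ∀ W : Submodule K E, (∀ g, ∀ u ∈ W, r g u ∈ W) → W = ⊥ ∨ W = ⊤) :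
    Submodule.span K (Set.range fun g => r g) = ⊤ := by
  have _ : Nontrivial E := Module.nontrivial_of_finrank_pos hE
  set A := Submodule.span K (Set.range fun g => r g) with hA
  have hrA : ∀ g, r g ∈ A := fun g => Submodule.subset_span ⟨g, rfl⟩
  have hone : (1 : Module.End K E) ∈ A := by
    have h1 := hrA 1
    rwa [map_one] at h1
  have hgA : ∀ g, ∀ T ∈ A, r g * T ∈ A := by
    intro g T hT
    induction hT using Submodule.span_induction with
    | mem T hT =>
      obtain ⟨g', rfl⟩ := hT
      change r g * r g' ∈ A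
      rw [← map_mul]
      exact hrA _
    | zero => rw [mul_zero]; exact A.zero_mem
    | add a b _ _ ha hb => rw [mul_add]; exact A.add_mem ha hb
    | smul c a _ ha => rw [mul_smul_comm]; exact A.smul_mem _ ha
  have hAg : ∀ g, ∀ T ∈ A, T * r g ∈ A := by
    intro g T hT
    induction hT using Submodule.span_induction with
    | mem T hT =>
      obtain ⟨g', rfl⟩ := hT
      change r g' * r g ∈ A
      rw [← map_mul]
      exact hrA _
    | zero => rw [zero_mul]; exact A.zero_mem
    | add a b _ _ ha hb => rw [add_mul]; exact A.add_mem ha hb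
    | smul c a _ ha => rw [smul_mul_assoc]; exact A.smul_mem _ ha
  have hmul : ∀ S ∈ A, ∀ T ∈ A, S * T ∈ A := by
    intro S hS T hT
    induction hS using Submodule.span_induction with
    | mem S hS =>
      obtain ⟨g, rfl⟩ := hS
      exact hgA g T hT
    | zero => rw [zero_mul]; exact A.zero_mem
    | add a b _ _ ha hb => rw [add_mul]; exact A.add_mem ha hb
    | smul c a _ ha => rw [smul_mul_assoc]; exact A.smul_mem _ ha
  -- transitivity
  have htr : ∀ u : E, u ≠ 0 → ∀ v : E, ∃ S ∈ A, S u = v := by
    intro u hu v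
    let W : Submodule K E := A.map (LinearMap.applyₗ u)
    have hW : W = ⊥ ∨ W = ⊤ := by
      refine h W ?_
      rintro g _ ⟨T, hT, rfl⟩
      exact ⟨r g * T, hgA g T hT, rfl⟩
    have huW : u ∈ W := ⟨1, hone, rfl⟩
    rcases hW with hW | hW
    · rw [hW, Submodule.mem_bot] at huW
      exact absurd huW hu
    · have h1 : v ∈ W := by
        rw [hW]
        exact Submodule.mem_top
      obtain ⟨S, hS, hSv⟩ := h1
      exact ⟨S, hS, hSv⟩
  -- an element of minimal rank
  have hex : ∃ n, ∃ T ∈ A, T ≠ 0 ∧ finrank K (LinearMap.range T) = n := ⟨_, 1, hone, one_ne_zero, rfl⟩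
  classical
  obtain ⟨T, hT, hT0, hTn⟩ := Nat.find_spec hex
  have hmin : ∀ S ∈ A, finrank K (LinearMap.range S) < Nat.find hex → S = 0 := by
    intro S hS hlt
    by_contra hS0
    exact Nat.find_min hex hlt ⟨S, hS, hS0, rfl⟩
  have hTST : ∀ S ∈ A, ∃ c : K, T * S * T = c • T := by
    intro S hS
    have hst : ∀ w ∈ LinearMap.range T, (T * S) w ∈ LinearMap.range T := fun w _ => ⟨S w, rfl⟩
    have hnt : Nontrivial (LinearMap.range T) := by
      rw [Submodule.nontrivial_iff_ne_bot]
      intro h1
      exact hT0 (LinearMap.range_eq_bot.1 h1)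
    obtain ⟨c, hc⟩ := Module.End.exists_eigenvalue ((T * S).restrict hst)
    refine ⟨c, ?_⟩
    rw [← sub_eq_zero]
    apply hmin _ (A.sub_mem (hmul _ (hmul _ hT _ hS) _ hT) (A.smul_mem _ hT))
    obtain ⟨w, hw, hw0⟩ := hc.exists_hasEigenvector
    rw [Module.End.mem_eigenspace_iff] at hw
    rw [← hTn]
    -- the range is the image of the range of T under T S - c
    let Q : LinearMap.range T →ₗ[K] LinearMap.range T :=
      (T * S).restrict hst - c • LinearMap.id
    have h1 : finrank K (LinearMap.range Q) < finrank K (LinearMap.range T) := by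
      have h2 := LinearMap.finrank_range_add_finrank_ker Q
      have h3 : 0 < finrank K (LinearMap.ker Q) := by
        have h4 : w ∈ LinearMap.ker Q := by
          rw [LinearMap.mem_ker, LinearMap.sub_apply, LinearMap.smul_apply, LinearMap.id_apply, hw,
            sub_self]
        have _ : Nontrivial (LinearMap.ker Q) :=
          ⟨⟨w, h4⟩, 0, fun h5 => hw0 (congrArg Subtype.val h5)⟩
        exact finrank_pos
      omega
    refine lt_of_le_of_lt ?_ h1
    have h5 : LinearMap.range (T * S * T - c • T) ≤
        (LinearMap.range Q).map (LinearMap.range T).subtype := by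
      rintro _ ⟨v, rfl⟩
      exact ⟨Q ⟨T v, ⟨v, rfl⟩⟩, ⟨_, rfl⟩, rfl⟩
    exact (Submodule.finrank_mono h5).trans (Submodule.finrank_map_le _ _)
  obtain ⟨x, hx⟩ : ∃ x, T x ≠ 0 := by
    by_contra h1
    push Not at h1
    exact hT0 (LinearMap.ext h1)
  have hrank : ∀ y, ∃ c : K, T y = c • T x := by
    intro y
    obtain ⟨S, hS, hSy⟩ := htr _ hx y
    obtain ⟨c, hc⟩ := hTST S hS
    refine ⟨c, ?_⟩
    have h1 := congrArg (fun f : Module.End K E => f x) hc
    simp only [Module.End.mul_apply, LinearMap.smul_apply] at h1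
    rw [← hSy, h1]
  obtain ⟨f, hf⟩ : ∃ f : Dual K E, f (T x) = 1 := by
    obtain ⟨f, hf⟩ : ∃ f : Dual K E, f (T x) ≠ 0 := by
      by_contra h1
      push Not at h1
      exact hx ((Module.forall_dual_apply_eq_zero_iff K _).1 h1)
    exact ⟨(f (T x))⁻¹ • f, by rw [LinearMap.smul_apply, smul_eq_mul, inv_mul_cancel₀ hf]⟩
  set φ : Dual K E := f.comp T with hφ
  have hTφ : ∀ y, T y = φ y • T x := by
    intro y
    obtain ⟨c, hc⟩ := hrank y
    rw [hφ, LinearMap.comp_apply, hc, map_smul, hf, smul_eq_mul, mul_one]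
  have hφx : φ x = 1 := by rw [hφ, LinearMap.comp_apply, hf]
  -- all functionals
  let Ψ : Submodule K (Dual K E) := A.map
    ({ toFun := fun S => φ.comp S
       map_add' := fun a b => by rw [LinearMap.comp_add]
       map_smul' := fun c a => by
        rw [RingHom.id_apply, LinearMap.comp_smul] } : Module.End K E →ₗ[K] Dual K E)
  have hΨ : Ψ = ⊤ := by
    have h1 : Ψ.dualCoannihilator = ⊥ := by
      rcases h Ψ.dualCoannihilator (by
        intro g u hu
        rw [Submodule.mem_dualCoannihilator] at hu ⊢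
        rintro _ ⟨S, hS, rfl⟩
        exact hu (φ.comp (S * r g)) ⟨S * r g, hAg g S hS, rfl⟩) with h2 | h2
      · exact h2
      · exfalso
        have h3 : x ∈ Ψ.dualCoannihilator := by
          rw [h2]
          exact Submodule.mem_top
        rw [Submodule.mem_dualCoannihilator] at h3
        have h4 := h3 (φ.comp 1) ⟨1, hone, rfl⟩
        change φ x = 0 at h4
        rw [hφx] at h4
        exact one_ne_zero h4
    have h2 := Subspace.dualCoannihilator_dualAnnihilator_eq (W := Ψ)
    rw [h1, Submodule.dualAnnihilator_bot] at h2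
    exact h2.symm
  have hall : ∀ (ψ : Dual K E) (v : E), ψ.smulRight v ∈ A := by
    intro ψ v
    obtain ⟨S, hS, hSv⟩ := htr _ hx v
    have h1 : ψ ∈ Ψ := by
      rw [hΨ]
      exact Submodule.mem_top
    obtain ⟨S', hS', hSψ⟩ := h1
    have h2 : ψ.smulRight v = S * T * S' := by
      refine LinearMap.ext fun y => ?_
      rw [LinearMap.smulRight_apply, Module.End.mul_apply, Module.End.mul_apply, hTφ, map_smul,
        hSv, ← hSψ]
      rfl
    rw [h2]
    exact hmul _ (hmul _ hS _ hT) _ hS'
  rw [eq_top_iff]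
  intro S _
  let b := Module.finBasis K E
  have h1 : S = ∑ k, (b.coord k).smulRight (S (b k)) := by
    refine b.ext fun l => ?_
    rw [LinearMap.sum_apply, Finset.sum_eq_single l]
    · rw [LinearMap.smulRight_apply, Basis.coord_apply, Basis.repr_self, Finsupp.single_eq_same,
        one_smul]
    · intro k _ hk
      rw [LinearMap.smulRight_apply, Basis.coord_apply, Basis.repr_self,
        Finsupp.single_eq_of_ne hk, zero_smul]
    · intro h2
      exact absurd (Finset.mem_univ _) h2
  rw [h1]
  exact A.sum_mem fun k _ => hall _ _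

/-- A group with finitely many normalised traces is finite modulo scalars. -/
theorem fin_scalars [IsAlgClosed K] (hE : 0 < finrank K E)
    (h : ∀ W : Submodule K E, (∀ g, ∀ u ∈ W, r g u ∈ W) → W = ⊥ ∨ W = ⊤) (S : Set K)
    (hS : S.Finite)
    (hr : ∀ g, LinearMap.trace K E (r g) ^ finrank K E / LinearMap.det (r g) ∈ S) :
    ∃ Δ : Subgroup G, Δ.FiniteIndex ∧ ∀ g ∈ Δ, ∃ c : K, ∀ u, r g u = c • u := by
  classical
  have hdet0 : ∀ g, LinearMap.det (r g) ≠ 0 := by
    intro g h1
    have h2 : LinearMap.det (r g * r g⁻¹) = 1 := by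
      rw [← map_mul, mul_inv_cancel, map_one, map_one]
    rw [map_mul, h1, zero_mul] at h2
    exact zero_ne_one h2
  choose δ hδ using fun g => IsAlgClosed.exists_pow_nat_eq (LinearMap.det (r g)) hE
  have hδ0 : ∀ g, δ g ≠ 0 := by
    intro g h1
    have h2 := hδ g
    rw [h1, zero_pow hE.ne'] at h2
    exact hdet0 g h2.symm
  have hspan := burnside hE h
  obtain ⟨t, ht⟩ : ∃ t : Finset G, Submodule.span K ((fun g => r g) '' (t : Set G)) = ⊤ := by
    have hfg : (Submodule.span K (Set.range fun g => r g)).FG := IsNoetherian.noetherian _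
    obtain ⟨t', ht', ht⟩ := Submodule.fg_span_iff_fg_span_finset_subset _ |>.1 hfg
    obtain ⟨t, htt⟩ := Finset.subset_set_image_iff.1 (by rw [Set.image_univ]; exact ht')
    refine ⟨t, ?_⟩
    rw [← hspan, ht, ← htt.2, Finset.coe_image]
  let V : t → Set K := fun j => {y | ∃ s ∈ S, y ^ finrank K E = s * LinearMap.det (r j.1)}
  have hV : ∀ j, (V j).Finite := by
    intro j
    have h1 : V j = ⋃ s ∈ S, {y | y ^ finrank K E = s * LinearMap.det (r j.1)} := by
      ext y
      simp [V]
    rw [h1]
    refine hS.biUnion fun s _ => ?_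
    refine ((Polynomial.nthRoots (finrank K E) (s * LinearMap.det (r j.1))).toFinset.finite_toSet).subset
      ?_
    intro y hy
    rw [Finset.mem_coe, Multiset.mem_toFinset, Polynomial.mem_nthRoots hE]
    exact hy
  have hmem : ∀ (g : G) (j : t), LinearMap.trace K E (r (g * j.1)) / δ g ∈ V j := by
    intro g j
    refine ⟨_, hr (g * j.1), ?_⟩
    rw [div_pow, hδ]
    have h1 : LinearMap.det (r (g * j.1)) = LinearMap.det (r g) * LinearMap.det (r j.1) := by
      rw [map_mul, map_mul]
    rw [h1]
    have h2 := hdet0 g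
    have h3 := hdet0 j.1
    field_simp
  have _ : ∀ j, Finite (V j) := fun j => hV j
  let Δ : Subgroup G :=
    { carrier := {g | ∃ c : K, ∀ u, r g u = c • u}
      mul_mem' := by
        rintro a b ⟨c, hc⟩ ⟨d, hd⟩
        refine ⟨c * d, fun u => ?_⟩
        rw [map_mul, Module.End.mul_apply, hd, map_smul, hc, smul_smul, mul_comm]
      one_mem' := ⟨1, fun u => by
        rw [map_one, one_smul]
        rfl⟩
      inv_mem' := by
        rintro a ⟨c, hc⟩
        have _ : Nontrivial E := Module.nontrivial_of_finrank_pos hE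
        have hc0 : c ≠ 0 := by
          rintro rfl
          obtain ⟨u, hu⟩ := _root_.exists_ne (0 : E)
          apply hu
          have h1 : r a⁻¹ (r a u) = u := by
            rw [← Module.End.mul_apply, ← map_mul, inv_mul_cancel, map_one]
            rfl
          rw [← h1, hc, zero_smul, map_zero]
        refine ⟨c⁻¹, fun u => ?_⟩
        have h1 : r a⁻¹ (r a u) = u := by
          rw [← Module.End.mul_apply, ← map_mul, inv_mul_cancel, map_one]
          rfl
        rw [hc, map_smul] at h1
        rw [eq_inv_smul_iff₀ hc0]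
        exact h1 }
  refine ⟨Δ, ?_, fun g hg => hg⟩
  refine fi_of_map (α := ∀ j : t, V j) Δ (fun g j => ⟨_, hmem g j⟩) fun g g' hgg => ?_
  -- equal values
  have h1 : ∀ T : Module.End K E, LinearMap.trace K E (((δ g)⁻¹ • r g - (δ g')⁻¹ • r g') * T) = 0 := by
    intro T
    have hT : T ∈ Submodule.span K ((fun g => r g) '' (t : Set G)) := by
      rw [ht]
      exact Submodule.mem_top
    induction hT using Submodule.span_induction with
    | mem T hT =>
      obtain ⟨j, hj, rfl⟩ := hT
      have h2 := congrArg Subtype.val (congrFun hgg ⟨j, hj⟩)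
      change LinearMap.trace K E (r (g * j)) / δ g = LinearMap.trace K E (r (g' * j)) / δ g' at h2
      change LinearMap.trace K E (((δ g)⁻¹ • r g - (δ g')⁻¹ • r g') * r j) = 0
      rw [sub_mul, smul_mul_assoc, smul_mul_assoc, ← map_mul, ← map_mul, map_sub, map_smul,
        map_smul, smul_eq_mul, smul_eq_mul, sub_eq_zero, inv_mul_eq_div, inv_mul_eq_div]
      exact h2
    | zero => rw [mul_zero, map_zero]
    | add a b _ _ ha hb => rw [mul_add, map_add, ha, hb, add_zero]
    | smul c a _ ha => rw [mul_smul_comm, map_smul, ha, smul_zero]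
  have h2 : (δ g)⁻¹ • r g = (δ g')⁻¹ • r g' := by
    rw [← sub_eq_zero]
    refine LinearMap.ext fun u => ?_
    rw [LinearMap.zero_apply]
    refine (Module.forall_dual_apply_eq_zero_iff K _).1 fun ψ => ?_
    have h3 := h1 (ψ.smulRight u)
    have h4 : ((δ g)⁻¹ • r g - (δ g')⁻¹ • r g') * ψ.smulRight u =
        ψ.smulRight (((δ g)⁻¹ • r g - (δ g')⁻¹ • r g') u) := by
      refine LinearMap.ext fun v => ?_
      rw [Module.End.mul_apply, LinearMap.smulRight_apply, map_smul, LinearMap.smulRight_apply]
    rw [h4] at h3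
    rwa [LinearMap.trace_smulRight] at h3
  refine ⟨δ g' * (δ g)⁻¹, fun u => ?_⟩
  have h3 : r g' u = (δ g' * (δ g)⁻¹) • r g u := by
    have h4 := congrArg (fun f : Module.End K E => f u) h2
    simp only [LinearMap.smul_apply] at h4
    rw [mul_smul, h4, smul_smul, mul_inv_cancel₀ (hδ0 g'), one_smul]
  rw [map_mul, Module.End.mul_apply, h3, map_smul]
  congr 1
  rw [← Module.End.mul_apply, ← map_mul, inv_mul_cancel, map_one]
  rfl

end

end Pool.Agent.W522.T
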